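import Mathlib

set_option autoImplicit false

namespace Pool.Agent.W_MP_90188c_ag

open MvPowerSeries

/-- the formal power series ring in `n` variables over the complex numbers -/
abbrev P (n : ℕ) := MvPowerSeries (Fin n) ℂ

/-- the ideal generated by the variables -/
noncomputable abbrev mm (n : ℕ) : Ideal (P n) :=
  Ideal.span (Set.range (MvPowerSeries.X : Fin n → P n))

variable {n : ℕ}

lemma X_mem_mm (i : Fin n) : (MvPowerSeries.X i : P n) ∈ mm n :=
  Ideal.subset_span ⟨i, rfl⟩

/-- the part of `h` whose monomials have smallest variable `i`, divided by `X i`. -/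
noncomputable def piece (h : P n) (i : Fin n) : P n :=
  fun a => if (∀ j, j < i → a j = 0) then coeff (a + Finsupp.single i 1) h else 0

lemma coeff_piece (h : P n) (i : Fin n) (a : Fin n →₀ ℕ) :
    coeff a (piece h i) =
      if (∀ j, j < i → a j = 0) then coeff (a + Finsupp.single i 1) h else 0 := by
  rw [coeff_apply]; rfl

lemma sum_piece (h : P n) (h0 : constantCoeff h = 0) :
    h = ∑ i, MvPowerSeries.X i * piece h i := by
  classical
  ext b
  rw [map_sum]
  by_cases hb : b = 0
  · subst hb
    have : coeff (0 : Fin n →₀ ℕ) h = 0 := by
      simpa using h0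
    rw [this]
    symm
    apply Finset.sum_eq_zero
    intro i _
    rw [mul_comm]
    simp [coeff_zero_mul_X]
  · -- smallest variable in the support
    have hne : b.support.Nonempty := by
      rwa [Finsupp.support_nonempty_iff]
    set i0 := b.support.min' hne with hi0
    have hi0mem : i0 ∈ b.support := Finset.min'_mem _ _
    have hi0pos : b i0 ≠ 0 := by simpa using hi0mem
    have hmin : ∀ j, j < i0 → b j = 0 := by
      intro j hj
      by_contra hbj
      have : i0 ≤ j := Finset.min'_le _ _ (by simpa using hbj)
      exact absurd hj (not_lt.mpr this)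
    have key : ∀ i : Fin n, coeff b (MvPowerSeries.X i * piece h i) =
        if i = i0 then coeff b h else 0 := by
      intro i
      by_cases hbi : b i = 0
      · have hne' : i ≠ i0 := by
          rintro rfl; exact hi0pos hbi
        rw [if_neg hne']
        have : ¬ (Finsupp.single i 1 ≤ b) := by
          intro hle
          have := hle i
          simp [hbi] at this
        rw [MvPowerSeries.X, coeff_monomial_mul, if_neg this]
      · have hle : Finsupp.single i 1 ≤ b := by
          rw [Finsupp.single_le_iff]
          omega
        rw [MvPowerSeries.X, coeff_monomial_mul, if_pos hle, one_mul, coeff_piece]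
        have hadd : b - Finsupp.single i 1 + Finsupp.single i 1 = b := tsub_add_cancel_of_le hle
        rw [hadd]
        by_cases hii : i = i0
        · rw [if_pos hii, if_pos]
          intro j hj
          have h1 : b j = 0 := hmin j (hii ▸ hj)
          simp [h1]
        · rw [if_neg hii, if_neg]
          intro hall
          have hle' : i0 ≤ i := Finset.min'_le _ _ (by simpa using hbi)
          have hlt : i0 < i := lt_of_le_of_ne hle' (Ne.symm hii)
          have := hall i0 hlt
          simp [hii] at this
          omega
    simp_rw [key]
    simp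

lemma piece_low {h : P n} {k : ℕ} (hh : ∀ d : Fin n →₀ ℕ, d.degree < k + 1 → coeff d h = 0)
    (i : Fin n) : ∀ d : Fin n →₀ ℕ, d.degree < k → coeff d (piece h i) = 0 := by
  intro d hd
  rw [coeff_piece]
  split_ifs with hc
  · apply hh
    simp only [map_add, Finsupp.degree_single]
    omega
  · rfl

/-- a power series without terms of degree `< k` lies in the `k`-th power of the ideal generated
by the variables -/
lemma mem_mm_pow : ∀ (k : ℕ) (h : P n), (∀ d : Fin n →₀ ℕ, d.degree < k → coeff d h = 0) →
    h ∈ (mm n) ^ k := by
  intro k
  induction k with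
  | zero => intro h _; simp
  | succ k ih =>
    intro h hh
    have h0 : constantCoeff h = 0 := by
      have := hh 0 (by simp)
      simpa using this
    rw [sum_piece h h0]
    apply Ideal.sum_mem
    intro i _
    rw [pow_succ']
    exact Ideal.mul_mem_mul (X_mem_mm i) (ih _ (piece_low hh i))

lemma mem_mm_iff (g : P n) : g ∈ mm n ↔ constantCoeff g = 0 := by
  constructor
  · intro hg
    have : mm n ≤ RingHom.ker (constantCoeff (σ := Fin n) (R := ℂ)) := by
      rw [Ideal.span_le]
      rintro _ ⟨i, rfl⟩
      simp [RingHom.mem_ker]
    exact this hg
  · intro hg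
    have := mem_mm_pow 1 g (by
      intro d hd
      have : d = 0 := by
        have h0 : d.degree = 0 := by omega
        exact (Finsupp.degree_eq_zero_iff d).mp h0
      subst this
      simpa using hg)
    simpa using this

lemma mm_eq_maximal : mm n = IsLocalRing.maximalIdeal (P n) := by
  ext g
  rw [mem_mm_iff, IsLocalRing.mem_maximalIdeal, mem_nonunits_iff, MvPowerSeries.isUnit_iff_constantCoeff,
    isUnit_iff_ne_zero, not_not]

/-- the `i`-th linear coefficient -/
noncomputable def lin (i : Fin n) : P n →ₗ[ℂ] ℂ := coeff (Finsupp.single i 1)

lemma lin_X (i j : Fin n) : lin i (MvPowerSeries.X j : P n) = if i = j then 1 else 0 := by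
  classical
  unfold lin
  rw [coeff_X]
  by_cases h : i = j
  · subst h; simp
  · rw [if_neg, if_neg h]
    intro h'
    have := Finsupp.single_left_injective (one_ne_zero) h'
    exact h this

lemma lin_mul (i : Fin n) (g h : P n) :
    lin i (g * h) = constantCoeff g * lin i h + constantCoeff h * lin i g := by
  classical
  unfold lin
  rw [coeff_mul, Finsupp.antidiagonal_single, Finset.sum_map]
  rw [Finset.Nat.sum_antidiagonal_succ]
  simp
  ring

end Pool.Agent.W_MP_90188c_ag
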