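import Pool.Agent.W_MP_90188c_ag.Basic

set_option autoImplicit false

namespace Pool.Agent.W_MP_90188c_ag

open MvPowerSeries

variable {n : ℕ}

lemma deriv_mem_pow (J : Ideal (P n)) (E : Derivation ℂ (P n) (P n ⧸ J)) :
    ∀ (j : ℕ) (g : P n), g ∈ (mm n) ^ (j + 1) →
      E g ∈ ((mm n) ^ j • ⊤ : Submodule (P n) (P n ⧸ J)) := by
  intro j
  induction j with
  | zero =>
    intro g _
    rw [pow_zero, Ideal.one_eq_top, Submodule.top_smul]
    trivial
  | succ j ih =>
    intro g hg
    rw [pow_succ] at hg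
    induction hg using Submodule.mul_induction_on' with
    | mem_mul_mem a ha b hb =>
      rw [E.leibniz]
      refine Submodule.add_mem _ (Submodule.smul_mem_smul ha trivial) ?_
      rw [pow_succ', Submodule.mul_smul]
      exact Submodule.smul_mem_smul hb (ih a ha)
    | add x _ y _ hx hy =>
      rw [map_add]
      exact Submodule.add_mem _ hx hy

lemma deriv_poly (J : Ideal (P n)) (E : Derivation ℂ (P n) (P n ⧸ J))
    (hX : ∀ i, E (MvPowerSeries.X i) = 0) (p : MvPolynomial (Fin n) ℂ) :
    E (p : P n) = 0 := by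
  induction p using MvPolynomial.induction_on with
  | C a =>
    rw [MvPolynomial.coe_C]
    exact E.map_algebraMap a
  | add p q hp hq => rw [MvPolynomial.coe_add, map_add, hp, hq, add_zero]
  | mul_X p i hp =>
    rw [MvPolynomial.coe_mul, E.leibniz, hp, MvPolynomial.coe_X, hX]
    simp

lemma pow_smul_top_eq_bot {J : Ideal (P n)} {k : ℕ} (hk : (mm n) ^ k ≤ J) :
    ((mm n) ^ k • ⊤ : Submodule (P n) (P n ⧸ J)) = ⊥ := by
  rw [eq_bot_iff, Submodule.smul_le]
  intro r hr x _
  obtain ⟨y, rfl⟩ := Ideal.Quotient.mk_surjective x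
  rw [Submodule.mem_bot, ← Ideal.Quotient.mk_eq_mk, ← Submodule.Quotient.mk_smul,
    Submodule.Quotient.mk_eq_zero, smul_eq_mul]
  exact J.mul_mem_right _ (hk hr)

lemma sub_trunc_mem (k : ℕ) (g : P n) : g - (truncTotal k g : MvPolynomial (Fin n) ℂ) ∈ (mm n) ^ k := by
  apply mem_mm_pow
  intro d hd
  rw [map_sub, MvPolynomial.coeff_coe, coeff_truncTotal _ hd, sub_self]

/-- Derivations of the power series ring with values in an Artinian quotient are determined by
their values on the variables. -/
lemma deriv_ext_artin (J : Ideal (P n)) {k : ℕ} (hk : (mm n) ^ k ≤ J)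
    (D D' : Derivation ℂ (P n) (P n ⧸ J))
    (hX : ∀ i, D (MvPowerSeries.X i) = D' (MvPowerSeries.X i)) : D = D' := by
  rw [← sub_eq_zero]
  set E := D - D' with hE
  have hEX : ∀ i, E (MvPowerSeries.X i) = 0 := by
    intro i
    rw [hE, Derivation.sub_apply, hX, sub_self]
  ext g
  have h1 : E (g - (truncTotal (k + 1) g : MvPolynomial (Fin n) ℂ)) = 0 := by
    have := deriv_mem_pow J E k _ (sub_trunc_mem (k + 1) g)
    rwa [pow_smul_top_eq_bot hk, Submodule.mem_bot] at this
  rw [map_sub, deriv_poly J E hEX, sub_zero] at h1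
  simpa using h1

/-- the composition of a derivation of the power series ring with a quotient map -/
noncomputable def qD (J : Ideal (P n)) (D : Derivation ℂ (P n) (P n)) :
    Derivation ℂ (P n) (P n ⧸ J) := (Submodule.mkQ J).compDer D

lemma qD_apply (J : Ideal (P n)) (D : Derivation ℂ (P n) (P n)) (g : P n) :
    qD J D g = Ideal.Quotient.mk J (D g) := rfl

/-- the derivation of the power series ring with prescribed values on the variables -/
noncomputable def dOf (a : Fin n → P n) : Derivation ℂ (P n) (P n) :=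
  ∑ i, a i • pderiv ℂ i

lemma dOf_X (a : Fin n → P n) (j : Fin n) : dOf a (MvPowerSeries.X j) = a j := by
  classical
  unfold dOf
  rw [← Derivation.coeFnAddMonoidHom_apply, map_sum, Finset.sum_apply]
  simp only [Derivation.coeFnAddMonoidHom_apply, Derivation.smul_apply, smul_eq_mul]
  rw [Finset.sum_eq_single j]
  · rw [pderiv_X_self, mul_one]
  · intro b _ hb
    rw [pderiv_X_of_ne (Ne.symm hb), mul_zero]
  · intro h; exact absurd (Finset.mem_univ _) h

lemma exists_lift (J : Ideal (P n)) {k : ℕ} (hk : (mm n) ^ k ≤ J)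
    (D : Derivation ℂ (P n) (P n ⧸ J)) : ∃ D' : Derivation ℂ (P n) (P n), qD J D' = D := by
  choose a ha using fun i => Ideal.Quotient.mk_surjective (I := J) (D (MvPowerSeries.X i))
  refine ⟨dOf a, deriv_ext_artin J hk _ _ fun i => ?_⟩
  rw [qD_apply, dOf_X, ha]

end Pool.Agent.W_MP_90188c_ag
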