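import Pool.Agent.W_MP_90188c_ag.NumJ

/-!
# Multiples of the Euler derivation

For `a` in `A = P/J` killed by the third power of the ideal of the variables, `X_i ↦ X_i a` is a
derivation of `R = P/I` with values in `A` as soon as `I ≤ (X)^2` and `I ≤ J`.
-/

set_option autoImplicit false

namespace Pool.Agent.W_MP_90188c_ag

open MvPowerSeries

variable {n : ℕ}

/-- the Euler operator `∑ X_j ∂_j` -/
noncomputable def eul (n : ℕ) : Derivation ℂ (P n) (P n) := dOf MvPowerSeries.X

lemma eul_X (j : Fin n) : eul n (MvPowerSeries.X j) = MvPowerSeries.X j := dOf_X _ j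

lemma eul_mem_mm (g : P n) : eul n g ∈ mm n := by
  unfold eul dOf
  rw [← Derivation.coeFnAddMonoidHom_apply, map_sum, Finset.sum_apply]
  apply Ideal.sum_mem
  intro j _
  exact Ideal.mul_mem_right _ _ (X_mem_mm j)

lemma eul_one (b : P n) (hb : b ∈ mm n) : eul n b - b ∈ (mm n) ^ 2 := by
  induction hb using Submodule.span_induction with
  | mem x hx =>
    obtain ⟨j, rfl⟩ := hx
    rw [eul_X, sub_self]
    exact Ideal.zero_mem _
  | zero => rw [map_zero, sub_self]; exact Ideal.zero_mem _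
  | add x y _ _ hx hy =>
    rw [map_add]
    have h : eul n x + eul n y - (x + y) = (eul n x - x) + (eul n y - y) := by ring
    rw [h]
    exact Ideal.add_mem _ hx hy
  | smul c x hx' hx =>
    rw [smul_eq_mul, Derivation.leibniz, smul_eq_mul, smul_eq_mul]
    have h : c * eul n x + x * eul n c - c * x = c * (eul n x - x) + x * eul n c := by ring
    rw [h]
    refine Ideal.add_mem _ (Ideal.mul_mem_left _ _ hx) ?_
    rw [pow_two]
    exact Ideal.mul_mem_mul hx' (eul_mem_mm c)

lemma eul_two (g : P n) (hg : g ∈ (mm n) ^ 2) : eul n g - 2 * g ∈ (mm n) ^ 3 := by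
  rw [pow_two] at hg
  induction hg using Submodule.mul_induction_on' with
  | mem_mul_mem a ha b hb =>
    rw [Derivation.leibniz, smul_eq_mul, smul_eq_mul]
    have h : a * eul n b + b * eul n a - 2 * (a * b) = a * (eul n b - b) + b * (eul n a - a) := by
      ring
    rw [h, pow_succ']
    exact Ideal.add_mem _ (Ideal.mul_mem_mul ha (eul_one b hb))
      (Ideal.mul_mem_mul hb (eul_one a ha))
  | add x _ y _ hx hy =>
    rw [map_add]
    have h : eul n x + eul n y - 2 * (x + y) = (eul n x - 2 * x) + (eul n y - 2 * y) := by ring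
    rw [h]
    exact Ideal.add_mem _ hx hy

/-- the multiple `a E` of the Euler derivation -/
lemma eul_mem_VV (I J : Ideal (P n)) (hI : I ≤ (mm n) ^ 2) (hIJ : I ≤ J) (a : P n ⧸ J)
    (ha : a ∈ lev J 3) :
    (LinearMap.toSpanSingleton (P n) (P n ⧸ J) a).compDer (eul n) ∈ VV I J := by
  intro g hg
  change eul n g • a = 0
  have h1 : eul n g = (eul n g - 2 * g) + 2 * g := by ring
  rw [h1, add_smul, ha _ (eul_two g (hI hg)), zero_add]
  have h2 : (2 * g) ∈ J := Ideal.mul_mem_left _ _ (hIJ hg)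
  obtain ⟨z, rfl⟩ := Ideal.Quotient.mk_surjective a
  rw [← mul_mk_smul, ← map_mul, Ideal.Quotient.eq_zero_iff_mem]
  exact Ideal.mul_mem_right _ _ h2

/-- an element of the third level outside of the second -/
lemma exists_lev (J : Ideal (P n)) {k : ℕ} (hk : (mm n) ^ k ≤ J) (h2 : ¬ (mm n) ^ 2 ≤ J) :
    ∃ a : P n ⧸ J, a ∈ lev J 3 ∧ ∃ j, (MvPowerSeries.X j : P n) • a ∉ soc J := by
  classical
  have hk' : ∃ k, (mm n) ^ k ≤ J := ⟨k, hk⟩
  have hs := Nat.find_spec hk'
  have hmin0 : ∀ {l : ℕ}, l < Nat.find hk' → ¬ (mm n) ^ l ≤ J := fun h => Nat.find_min hk' h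
  generalize Nat.find hk' = m at hs hmin0
  have hm3 : 3 ≤ m := by
    by_contra hlt
    apply h2
    exact (Ideal.pow_le_pow_right (by omega)).trans hs
  obtain ⟨j, rfl⟩ : ∃ j, m = j + 3 := ⟨m - 3, by omega⟩
  have hmin : ¬ (mm n) ^ (j + 2) ≤ J := hmin0 (by omega)
  have h5 : ∃ y ∈ (mm n) ^ j, ∃ z ∈ (mm n) ^ 2, y * z ∉ J := by
    by_contra hcon
    push Not at hcon
    apply hmin
    rw [pow_add, Ideal.mul_le]
    intro y hy z hz
    exact hcon y hy z hz
  obtain ⟨y, hy, z, hz, hyz⟩ := h5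
  refine ⟨Ideal.Quotient.mk J y, ?_, ?_⟩
  · intro x hx
    rw [← mul_mk_smul, ← map_mul, Ideal.Quotient.eq_zero_iff_mem]
    apply hs
    rw [add_comm, pow_add]
    exact Ideal.mul_mem_mul hx hy
  · by_contra hcon
    push Not at hcon
    apply hyz
    have h6 : ∀ x ∈ mm n, x • (Ideal.Quotient.mk J y : P n ⧸ J) ∈ soc J := by
      intro x hx
      induction hx using Submodule.span_induction with
      | mem x hx =>
        obtain ⟨i, rfl⟩ := hx
        exact hcon i
      | zero => rw [zero_smul]; exact (soc J).zero_mem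
      | add x y _ _ hx hy => rw [add_smul]; exact (soc J).add_mem hx hy
      | smul c x _ hx => rw [smul_eq_mul, mul_smul]; exact (soc J).smul_mem c hx
    have h7 : ∀ x ∈ (mm n) ^ 2, x • (Ideal.Quotient.mk J y : P n ⧸ J) = 0 := by
      intro x hx
      rw [pow_two] at hx
      induction hx using Submodule.mul_induction_on' with
      | mem_mul_mem a ha b hb =>
        rw [mul_smul]
        exact h6 b hb a ha
      | add x _ y _ hx hy => rw [add_smul, hx, hy, add_zero]
    have h8 := h7 z hz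
    rw [← mul_mk_smul, ← map_mul, Ideal.Quotient.eq_zero_iff_mem, mul_comm] at h8
    exact h8

/-- **the second lower bound** -/
lemma euler_bound (I J : Ideal (P n)) (hI : I ≤ (mm n) ^ 2) (hIJ : I ≤ J) {k : ℕ}
    (hk : (mm n) ^ k ≤ J) (hsq : ¬ (mm n) ^ 2 ≤ J) :
    n * Module.finrank ℂ (soc J) + 1 ≤ Module.finrank ℂ (VV I J) := by
  classical
  have h1 := finite_VV I hk
  have h2 := finite_sub hk (soc J)
  obtain ⟨a, ha, j, hj⟩ := exists_lev J hk hsq
  let E : VV I J := ⟨_, eul_mem_VV I J hI hIJ a ha⟩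
  have hEX : ∀ i, (E : Derivation ℂ (P n) (P n ⧸ J)) (MvPowerSeries.X i) =
      (MvPowerSeries.X i : P n) • a := by
    intro i
    change eul n (MvPowerSeries.X i) • a = _
    rw [eul_X]
  let L : ((Fin n → soc J) × ℂ) →ₗ[ℂ] VV I J :=
    (socMap I J hI).coprod (LinearMap.toSpanSingleton ℂ (VV I J) E)
  have hL : ∀ (p : (Fin n → soc J) × ℂ) (i : Fin n),
      (L p : Derivation ℂ (P n) (P n ⧸ J)) (MvPowerSeries.X i) =
        (p.1 i : P n ⧸ J) + p.2 • ((MvPowerSeries.X i : P n) • a) := by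
    intro p i
    change ((socMap I J hI p.1 : Derivation ℂ (P n) (P n ⧸ J)) +
      p.2 • (E : Derivation ℂ (P n) (P n ⧸ J))) (MvPowerSeries.X i) = _
    rw [Derivation.add_apply, socMap_apply, Derivation.smul_apply, hEX, Finset.sum_eq_single i]
    · rw [lin_X, if_pos rfl, one_smul]
    · intro l _ hl
      rw [lin_X, if_neg hl, zero_smul]
    · intro hj; exact absurd (Finset.mem_univ _) hj
  have hinj : Function.Injective L := by
    intro p q hpq
    have h5 : ∀ i, (p.1 i : P n ⧸ J) + p.2 • ((MvPowerSeries.X i : P n) • a) =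
        (q.1 i : P n ⧸ J) + q.2 • ((MvPowerSeries.X i : P n) • a) := by
      intro i
      rw [← hL, ← hL, hpq]
    have h6 : p.2 = q.2 := by
      by_contra hne
      apply hj
      have hne' : p.2 - q.2 ≠ 0 := sub_ne_zero.mpr hne
      have h7 : (p.2 - q.2) • ((MvPowerSeries.X j : P n) • a) =
          (q.1 j : P n ⧸ J) - (p.1 j : P n ⧸ J) := by
        rw [sub_smul, sub_eq_sub_iff_add_eq_add, add_comm, h5 j, add_comm]
      have h8 : (MvPowerSeries.X j : P n) • a =
          (p.2 - q.2)⁻¹ • ((q.1 j : P n ⧸ J) - (p.1 j : P n ⧸ J)) := by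
        rw [← h7, smul_smul, inv_mul_cancel₀ hne', one_smul]
      rw [h8]
      intro x hx
      rw [smul_comm, smul_sub, (q.1 j).2 x hx, (p.1 j).2 x hx, sub_zero, smul_zero]
    apply Prod.ext
    · funext i
      apply Subtype.ext
      have h7 := h5 i
      rw [h6] at h7
      exact add_right_cancel h7
    · exact h6
  have h5 := LinearMap.finrank_le_finrank_of_injective hinj
  rw [Module.finrank_prod, Module.finrank_pi_fintype, Finset.sum_const, Finset.card_univ,
    Fintype.card_fin, smul_eq_mul, Module.finrank_self] at h5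
  exact h5

/-- **Strict bound in terms of the type** -/
theorem type_bound_strict (I : Ideal (P n)) (hI2 : I ≤ (mm n) ^ 2)
    (hrad : I.IsRadical) (hdim : ringKrullDim (P n ⧸ I) = 1)
    (f : P n) (hf0 : constantCoeff f = 0) (hreg : ∀ g, f * g ∈ I → g ∈ I)
    (hrig : Rig I) (h2 : ¬ (mm n) ^ 2 ≤ I ⊔ Ideal.span {f}) :
    n * Module.finrank ℂ (soc (I ⊔ Ideal.span {f})) + 1 ≤
      Module.finrank ℂ (P n ⧸ (I ⊔ Ideal.span {f})) := by
  obtain ⟨_, _, k, hk⟩ := artin_facts I hdim f hf0 hreg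
  have h3 := master_finrank I hrad hdim f hf0 hreg hrig
  exact (euler_bound I (I ⊔ Ideal.span {f}) hI2 le_sup_left hk h2).trans h3

/-- arithmetic, case `e = 2 n` -/
lemma arith_three (n e t m2 m3 b r C : ℤ) (hn : 4 ≤ n) (he : e = 2 * n) (ht : 1 ≤ t)
    (hC : 2 * C = n * (n + 1)) (hT : n * t + 1 ≤ e)
    (hm3 : b + m3 = e) (hm2 : e ≤ n + m2) (ht3 : m3 ≤ t) (ht2 : m3 = 0 → m2 ≤ t)
    (hr : r + b ≤ C) (h0 : 0 ≤ m3)
    (hb : n * m2 + m3 ≤ e + r * m3 + m2) : False := by
  have h1 : t = 1 := by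
    rcases (by omega : t = 1 ∨ 2 ≤ t) with h | h
    · exact h
    · exfalso
      nlinarith
  subst h1
  rcases (by omega : m3 = 0 ∨ m3 = 1) with h | h
  · have := ht2 h
    omega
  · subst h
    subst he
    have h2 : (n - 1) * n ≤ (n - 1) * m2 := mul_le_mul_of_nonneg_left (by linarith) (by linarith)
    nlinarith

/-- **Sections with `m^4 = 0`**, without exception -/
theorem soc_three_all (hn : 4 ≤ n) (I : Ideal (P n)) (hI2 : I ≤ (mm n) ^ 2) (hrad : I.IsRadical)
    (hdim : ringKrullDim (P n ⧸ I) = 1) (f : P n) (hf0 : constantCoeff f = 0) (i0 : Fin n)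
    (hi0 : lin i0 f ≠ 0) (hreg : ∀ g, f * g ∈ I → g ∈ I)
    (h4 : (mm n) ^ 4 ≤ I ⊔ Ideal.span {f}) : ¬ Rig I := by
  intro hrig
  by_cases he : Module.finrank ℂ (P n ⧸ (I ⊔ Ideal.span {f})) = 2 * n
  swap
  · exact soc_three hn I hI2 hrad hdim f hf0 i0 hi0 hreg h4 (Or.inl he) hrig
  have hmas := master_finrank I hrad hdim f hf0 hreg hrig
  have hJm : I ⊔ Ideal.span {f} ≤ mm n := by
    refine sup_le (hI2.trans (Ideal.pow_le_self two_ne_zero)) ?_
    rw [Ideal.span_singleton_le_iff_mem, mem_mm_iff]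
    exact hf0
  have hfJ : f ∈ I ⊔ Ideal.span {f} :=
    (le_sup_right : Ideal.span {f} ≤ _) (Ideal.mem_span_singleton_self f)
  obtain ⟨r, G, hGI, hr, hspan⟩ := exists_G I hI2 f hf0 i0 hi0
  have hG2 : ∀ i, G i ∈ (mm n) ^ 2 := fun i => hI2 (hGI i)
  have hstr := type_bound_strict I hI2 hrad hdim f hf0 hreg hrig
  set J := I ⊔ Ideal.span {f} with hJ
  have hJtop : J ≠ ⊤ := by
    intro h
    have h1 : (1 : P n) ∈ mm n := hJm (h ▸ Submodule.mem_top)
    rw [mem_mm_iff, map_one] at h1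
    exact one_ne_zero h1
  have hpos := soc_pos h4 hJtop
  have h3J := finrank_mA h4 3
  have h2J := finrank_mA h4 2
  have h2le := finrank_two_le J f hfJ hf0 i0 hi0
  have h4bot : mA J 4 = ⊥ := mA_eq_bot h4
  have hsq : ¬ (mm n) ^ 2 ≤ J := by
    intro h
    have h5 : Subsingleton (mA J 2) := Submodule.subsingleton_iff_eq_bot.mpr (mA_eq_bot h)
    have h6 : Module.finrank ℂ (mA J 2) = 0 := Module.finrank_zero_of_subsingleton
    omega
  have hstr' := hstr hsq
  have hs3 : Module.finrank ℂ (mA J 3) ≤ Module.finrank ℂ (soc J) :=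
    finrank_sub_le h4 (mA_le_soc 3 h4bot)
  have hs2 : Module.finrank ℂ (mA J 3) = 0 →
      Module.finrank ℂ (mA J 2) ≤ Module.finrank ℂ (soc J) := by
    intro h0
    have hfin := finite_sub h4 (mA J 3)
    have h1 : Subsingleton (mA J 3) := Module.finrank_zero_iff.mp h0
    exact finrank_sub_le h4 (mA_le_soc 2 (Submodule.subsingleton_iff_eq_bot.mp h1))
  have hchoose : (n + 1).choose 2 * 2 = (n + 1) * n := by
    rw [Nat.choose_two_right, Nat.add_sub_cancel]
    exact Nat.div_mul_cancel (Nat.even_mul_pred_self (n + 1)).two_dvd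
  have hb := bound_three I J h4 f hfJ G hG2 hspan
  refine arith_three (n : ℤ) (Module.finrank ℂ (P n ⧸ J)) (Module.finrank ℂ (soc J))
    (Module.finrank ℂ (mA J 2)) (Module.finrank ℂ (mA J 3))
    (Module.finrank ℂ (P n ⧸ (J ⊔ (mm n) ^ 3))) r ((n + 1).choose 2) ?_ ?_ ?_ ?_ ?_ ?_ ?_ ?_ ?_
    ?_ ?_ ?_
  · exact_mod_cast hn
  · exact_mod_cast he
  · exact_mod_cast hpos
  · have : (((n + 1).choose 2 * 2 : ℕ) : ℤ) = (((n + 1) * n : ℕ) : ℤ) := by exact_mod_cast hchoose
    push_cast at this ⊢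
    linarith
  · exact_mod_cast hstr'
  · exact_mod_cast h3J
  · have : Module.finrank ℂ (P n ⧸ J) ≤ n + Module.finrank ℂ (mA J 2) := by omega
    exact_mod_cast this
  · exact_mod_cast hs3
  · intro h0
    exact_mod_cast hs2 (by exact_mod_cast h0)
  · exact_mod_cast hr
  · positivity
  · have : n * Module.finrank ℂ (mA J 2) + Module.finrank ℂ (mA J 3) ≤
        Module.finrank ℂ (P n ⧸ J) + r * Module.finrank ℂ (mA J 3) +
          Module.finrank ℂ (mA J 2) := by omega
    exact_mod_cast this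

end Pool.Agent.W_MP_90188c_ag
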