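import Pool.Agent.W_MP_90188c_ag.Main

set_option autoImplicit false

namespace Pool.Agent.W_MP_90188c_ag

open MvPowerSeries

variable {n : ℕ}

lemma mk_mem_span (J : Ideal (P n)) (E : Derivation ℂ (P n) (P n ⧸ J))
    (hE : ∀ i, Ideal.Quotient.mk J (MvPowerSeries.X i) ∈ Ideal.span (Set.range E))
    {x : P n} (hx : x ∈ mm n) : Ideal.Quotient.mk J x ∈ Ideal.span (Set.range E) := by
  have : mm n ≤ (Ideal.span (Set.range E)).comap (Ideal.Quotient.mk J) := by
    rw [Ideal.span_le]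
    rintro _ ⟨i, rfl⟩
    exact hE i
  exact this hx

lemma mul_soc_mem (J : Ideal (P n)) {s : P n ⧸ J} (hs : s ∈ soc J) (a : P n ⧸ J) :
    a * s ∈ soc J := by
  obtain ⟨y, rfl⟩ := Ideal.Quotient.mk_surjective a
  rw [mul_mk_smul]
  exact (soc J).smul_mem y hs

lemma mul_span_soc (J : Ideal (P n)) (E : Derivation ℂ (P n) (P n ⧸ J)) (a : P n ⧸ J)
    (h : ∀ g, a * E g ∈ soc J) {z : P n ⧸ J} (hz : z ∈ Ideal.span (Set.range E)) :
    a * z ∈ soc J := by
  induction hz using Submodule.span_induction with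
  | mem x hx => obtain ⟨g, rfl⟩ := hx; exact h g
  | zero => rw [mul_zero]; exact (soc J).zero_mem
  | add x y _ _ hx hy => rw [mul_add]; exact (soc J).add_mem hx hy
  | smul r x _ hx =>
    rw [smul_eq_mul, mul_left_comm]
    exact mul_soc_mem J hx r

lemma A1 (J : Ideal (P n)) (E : Derivation ℂ (P n) (P n ⧸ J))
    (hE : ∀ i, Ideal.Quotient.mk J (MvPowerSeries.X i) ∈ Ideal.span (Set.range E)) (a : P n ⧸ J)
    (h : ∀ g, a * E g ∈ soc J) {y : P n} (hy : y ∈ (mm n) ^ 2) : y • a = 0 := by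
  rw [pow_two] at hy
  induction hy using Submodule.mul_induction_on' with
  | mem_mul_mem u hu w hw =>
    have h1 := mul_span_soc J E a h (mk_mem_span J E hE hw)
    rw [mul_comm, mul_mk_smul] at h1
    rw [mul_smul]
    exact h1 u hu
  | add x _ y _ hx hy => rw [add_smul, hx, hy, add_zero]

lemma A2 (J : Ideal (P n)) (E : Derivation ℂ (P n) (P n ⧸ J))
    (hE : ∀ i, Ideal.Quotient.mk J (MvPowerSeries.X i) ∈ Ideal.span (Set.range E)) (a : P n ⧸ J)
    (h : ∀ g, a * E g = 0) : a ∈ soc J := by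
  intro x hx
  rw [← mul_mk_smul]
  have hz := mk_mem_span J E hE hx
  generalize Ideal.Quotient.mk J x = w at hz
  induction hz using Submodule.span_induction with
  | mem x hx => obtain ⟨g, rfl⟩ := hx; rw [mul_comm]; exact h g
  | zero => rw [zero_mul]
  | add x y _ _ hx hy => rw [add_mul, hx, hy, add_zero]
  | smul r x _ hx => rw [smul_eq_mul, mul_assoc, hx, mul_zero]

lemma tl_smul (J : Ideal (P n)) (l : P n →ₗ[ℂ] ℂ) (hl : PD l) (hlJ : ∀ g ∈ J, l g = 0)
    (x : P n) {y : P n} (hy : y ∈ mm n) :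
    tl J l hlJ (x • Ideal.Quotient.mk J y) = constantCoeff x * tl J l hlJ (Ideal.Quotient.mk J y) := by
  have h1 : x • Ideal.Quotient.mk J y = Ideal.Quotient.mk J (x * y) := rfl
  rw [h1, tl_mk, tl_mk, hl, (mem_mm_iff y).mp hy, zero_mul, add_zero]

/-- the functional `g ↦ l(E g)` -/
noncomputable def lE (J : Ideal (P n)) (E : Derivation ℂ (P n) (P n ⧸ J)) (l : P n →ₗ[ℂ] ℂ)
    (hlJ : ∀ g ∈ J, l g = 0) : P n →ₗ[ℂ] ℂ :=
  (tl J l hlJ).comp (E : P n →ₗ[ℂ] (P n ⧸ J))

lemma lE_apply (J : Ideal (P n)) (E : Derivation ℂ (P n) (P n ⧸ J)) (l : P n →ₗ[ℂ] ℂ)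
    (hlJ : ∀ g ∈ J, l g = 0) (g : P n) : lE J E l hlJ g = tl J l hlJ (E g) := rfl

lemma PD_lE (J : Ideal (P n)) (E : Derivation ℂ (P n) (P n ⧸ J)) (l : P n →ₗ[ℂ] ℂ) (hl : PD l)
    (hlJ : ∀ g ∈ J, l g = 0) (hval : ∀ g, ∃ y ∈ mm n, Ideal.Quotient.mk J y = E g) :
    PD (lE J E l hlJ) := by
  intro g h
  rw [lE_apply, lE_apply, lE_apply, E.leibniz, map_add]
  obtain ⟨y, hy, hyg⟩ := hval g
  obtain ⟨w, hw, hwh⟩ := hval h
  rw [← hyg, ← hwh, tl_smul J l hl hlJ _ hy, tl_smul J l hl hlJ _ hw]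

/-- main step 1 -/
lemma S1 (I J : Ideal (P n)) (E : Derivation ℂ (P n) (P n ⧸ J)) (hEV : E ∈ VV I J)
    (hE : ∀ i, Ideal.Quotient.mk J (MvPowerSeries.X i) ∈ Ideal.span (Set.range E))
    (hval : ∀ g, ∃ y ∈ mm n, Ideal.Quotient.mk J y = E g)
    (l0 : P n →ₗ[ℂ] ℂ)
    (v y : P n) (hy : y ∈ (mm n) ^ 2) (hv : E v = Ideal.Quotient.mk J y) (hl0v : l0 v = 1)
    (hsurj : ∀ D ∈ VV I J, ∃ a : P n ⧸ J, ∃ s ∈ soc J, ∀ g, D g = a * E g + l0 g • s)
    (l : P n →ₗ[ℂ] ℂ) (hl : PD l) (hlJ : ∀ g ∈ J, l g = 0) (s : P n ⧸ J) (hs : s ∈ soc J) :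
    ∃ b : P n ⧸ J, ∀ x ∈ mm n, x • b = l x • s := by
  have hm := PD_lE J E l hl hlJ hval
  have hmI : ∀ g ∈ I, lE J E l hlJ g = 0 := by
    intro g hg
    rw [lE_apply, hEV g hg, map_zero]
  obtain ⟨a, s', hs', hD⟩ := hsurj _ (socM I J (lE J E l hlJ) hm hmI ⟨s, hs⟩).2
  have hD' : ∀ g, lE J E l hlJ g • s = a * E g + l0 g • s' := by
    intro g
    rw [← hD g, socM_apply]
  have hsocC : ∀ (c : ℂ) {t : P n ⧸ J}, t ∈ soc J → c • t ∈ soc J := by
    intro c t ht x hx
    rw [smul_comm, ht x hx, smul_zero]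
  have haE : ∀ g, a * E g ∈ soc J := by
    intro g
    have h1 : a * E g = lE J E l hlJ g • s - l0 g • s' := by
      rw [hD' g]; ring
    rw [h1]
    exact (soc J).sub_mem (hsocC _ hs) (hsocC _ hs')
  have hav : a * E v = 0 := by
    rw [hv, mul_comm, mul_mk_smul]
    exact A1 J E hE a haE hy
  have hmv : lE J E l hlJ v = 0 := by
    rw [lE_apply, hv, tl_mk]
    exact hl.sq hy
  have hs0 : s' = 0 := by
    have h1 := hD' v
    rw [hav, hmv, hl0v, zero_smul, zero_add, one_smul] at h1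
    exact h1.symm
  have hD2 : ∀ g, a * E g = tl J l hlJ (E g) • s := by
    intro g
    have h1 := hD' g
    rw [hs0, smul_zero, add_zero] at h1
    rw [← h1, lE_apply]
  have key : ∀ z ∈ Ideal.span (Set.range E), (∃ y ∈ mm n, Ideal.Quotient.mk J y = z) ∧
      a * z = tl J l hlJ z • s := by
    intro z hz
    induction hz using Submodule.span_induction with
    | mem x hx => obtain ⟨g, rfl⟩ := hx; exact ⟨hval g, hD2 g⟩
    | zero => exact ⟨⟨0, (mm n).zero_mem, map_zero _⟩, by rw [mul_zero, map_zero, zero_smul]⟩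
    | add x y _ _ hx hy =>
      obtain ⟨⟨x1, hx1, rfl⟩, hx2⟩ := hx
      obtain ⟨⟨y1, hy1, rfl⟩, hy2⟩ := hy
      refine ⟨⟨x1 + y1, (mm n).add_mem hx1 hy1, map_add _ _ _⟩, ?_⟩
      rw [mul_add, hx2, hy2, map_add, add_smul]
    | smul r x _ hx =>
      obtain ⟨⟨x1, hx1, rfl⟩, hx2⟩ := hx
      obtain ⟨r1, rfl⟩ := Ideal.Quotient.mk_surjective r
      refine ⟨⟨r1 * x1, (mm n).mul_mem_left _ hx1, map_mul _ _ _⟩, ?_⟩
      rw [smul_eq_mul, mul_left_comm, hx2, mul_mk_smul, mul_mk_smul, tl_smul J l hl hlJ _ hx1,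
        smul_comm, smul_soc J hs, smul_smul, mul_comm]
  refine ⟨a, fun x hx => ?_⟩
  rw [← mul_mk_smul, mul_comm, (key _ (mk_mem_span J E hE hx)).2, tl_mk]

lemma exists_soc (J : Ideal (P n)) (hJ : J ≠ ⊤) (k : ℕ) (hk : (mm n) ^ k ≤ J) :
    ∃ s ∈ soc J, s ≠ 0 := by
  classical
  have hex : ∃ k, (mm n) ^ k ≤ J := ⟨k, hk⟩
  have h1 := Nat.find_spec hex
  have h0 : Nat.find hex ≠ 0 := by
    intro h0
    rw [h0, pow_zero, Ideal.one_eq_top] at h1
    exact hJ (top_le_iff.mp h1)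
  obtain ⟨m, hm⟩ := Nat.exists_eq_succ_of_ne_zero h0
  have h2 : ¬ (mm n) ^ m ≤ J := Nat.find_min hex (by omega)
  obtain ⟨x, hx, hxJ⟩ := Set.not_subset.mp h2
  refine ⟨Ideal.Quotient.mk J x, ?_, ?_⟩
  · intro y hy
    change Ideal.Quotient.mk J (y * x) = 0
    rw [Ideal.Quotient.eq_zero_iff_mem]
    apply h1
    rw [hm, Nat.succ_eq_add_one, pow_succ']
    exact Ideal.mul_mem_mul hy hx
  · rw [ne_eq, Ideal.Quotient.eq_zero_iff_mem]
    exact hxJ

/-- a nonzero linear form killed by fewer functionals than variables -/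
lemma exists_vec {ι : Type} [Fintype ι] (hι : Fintype.card ι < n) (m : ι → P n →ₗ[ℂ] ℂ) :
    ∃ c : Fin n → ℂ, c ≠ 0 ∧ ∀ i, m i (∑ j, c j • (MvPowerSeries.X j : P n)) = 0 := by
  let T : (Fin n → ℂ) →ₗ[ℂ] (ι → ℂ) :=
    LinearMap.pi fun i => (m i).comp (∑ j, (LinearMap.proj j).smulRight (MvPowerSeries.X j : P n))
  have h1 : LinearMap.ker T ≠ ⊥ := by
    apply LinearMap.ker_ne_bot_of_finrank_lt
    simpa using hι
  obtain ⟨c, hc, hc0⟩ := Submodule.exists_mem_ne_zero_of_ne_bot h1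
  refine ⟨c, hc0, fun i => ?_⟩
  have h2 := congrFun (LinearMap.mem_ker.mp hc) i
  simpa [T] using h2

lemma exists_PD (c : Fin n → ℂ) (hc : c ≠ 0) :
    ∃ l : P n →ₗ[ℂ] ℂ, PD l ∧ l (∑ j, c j • (MvPowerSeries.X j : P n)) = 1 := by
  classical
  obtain ⟨i, hi⟩ := Function.ne_iff.mp hc
  refine ⟨(c i)⁻¹ • lin i, (PD_lin i).smul _, ?_⟩
  rw [LinearMap.smul_apply, map_sum]
  simp only [map_smul, lin_X, smul_eq_mul, mul_ite, mul_one, mul_zero, Finset.sum_ite_eq,
    Finset.mem_univ, if_true]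
  exact inv_mul_cancel₀ hi

/-- the core of the main theorem, for a general ideal `J` -/
theorem core (hn : 4 ≤ n) (I J : Ideal (P n)) (hI2 : I ≤ (mm n) ^ 2) (f : P n)
    (hf0 : constantCoeff f = 0) (i0 : Fin n) (hi0 : lin i0 f ≠ 0)
    (hvan : ∀ l : P n →ₗ[ℂ] ℂ, PD l → l f = 0 → ∀ g ∈ J, l g = 0)
    (hmaster : Module.length (P n) (VV I J) ≤ Module.length (P n) (P n ⧸ J))
    (hfJ : f ∈ J) (hJm : J ≤ mm n) (k : ℕ) (hk : (mm n) ^ k ≤ J)
    (hfin : Module.length (P n) (P n ⧸ J) ≠ ⊤)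
    (E : Derivation ℂ (P n) (P n ⧸ J)) (hEI : ∀ g ∈ I, E g = 0)
    (hE : ∀ i, Ideal.Quotient.mk J (MvPowerSeries.X i) ∈ Ideal.span (Set.range E)) : False := by
  classical
  have hJtop : J ≠ ⊤ := by
    intro h
    have h1 : (1 : P n) ∈ mm n := hJm (h ▸ Submodule.mem_top)
    rw [mem_mm_iff, map_one] at h1
    exact one_ne_zero h1
  obtain ⟨s, hs, hs0⟩ := exists_soc J hJtop k hk
  have hsocne : soc J ≠ ⊥ := by
    intro h
    rw [h] at hs
    exact hs0 ((Submodule.mem_bot _).mp hs)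
  by_cases hu : ∃ g0, IsUnit (E g0)
  · -- a value is a unit
    obtain ⟨g0, u, hu⟩ := hu
    let ε : P n →ₗ[ℂ] ℂ := coeff (0 : Fin n →₀ ℕ)
    have hεJ : ∀ g ∈ J, ε g = 0 := by
      intro g hg
      have := (mem_mm_iff g).mp (hJm hg)
      simpa [ε] using this
    obtain ⟨c, hc0, hc⟩ := exists_vec (n := n) (ι := Unit) (by simp; omega)
      (fun _ => lE J E ε hεJ)
    obtain ⟨l0, hl0, hl0v⟩ := exists_PD c hc0
    set v := ∑ j, c j • (MvPowerSeries.X j : P n) with hv
    have hEv : ∃ y ∈ mm n, Ideal.Quotient.mk J y = E v := by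
      obtain ⟨y, hy⟩ := Ideal.Quotient.mk_surjective (E v)
      refine ⟨y, ?_, hy⟩
      have h1 := hc ()
      rw [lE_apply, ← hy, tl_mk] at h1
      rw [mem_mm_iff]
      simpa [ε] using h1
    obtain ⟨y, hy, hyv⟩ := hEv
    have hl0I : ∀ g ∈ I, l0 g = 0 := fun g hg => hl0.sq (hI2 hg)
    let Φ : ((P n ⧸ J) × soc J) →ₗ[P n] VV I J :=
      (scaleE I J E hEI).coprod (socM I J l0 hl0 hl0I)
    refine false_of_length (soc J) Φ ?_ hsocne hfin hmaster
    rintro ⟨a, t⟩ hat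
    have h1 : ∀ g, a * E g + l0 g • t.1 = 0 := by
      intro g
      have h2 := congrArg (fun D : VV I J => (D : Derivation ℂ (P n) (P n ⧸ J)) g) hat
      exact h2
    have h2 : a = -(l0 g0 • (t.1 * (↑u⁻¹ : P n ⧸ J))) := by
      have h3 := h1 g0
      rw [← hu] at h3
      have h4 : a * (u : P n ⧸ J) * (↑u⁻¹ : P n ⧸ J) = a := by
        rw [mul_assoc, Units.mul_inv, mul_one]
      have h5 : l0 g0 • (t.1 * (↑u⁻¹ : P n ⧸ J)) = (l0 g0 • t.1) * (↑u⁻¹ : P n ⧸ J) :=
        (smul_mul_assoc _ _ _).symm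
      rw [h5]
      linear_combination (↑u⁻¹ : P n ⧸ J) * h3 - h4
    have h3 : a ∈ soc J := by
      rw [h2]
      apply (soc J).neg_mem
      have h5 : t.1 * (↑u⁻¹ : P n ⧸ J) ∈ soc J := by
        rw [mul_comm]; exact mul_soc_mem J t.2 _
      intro x hx
      rw [smul_comm, h5 x hx, smul_zero]
    have h4 : a * E v = 0 := by
      rw [← hyv, mul_comm, mul_mk_smul]
      exact h3 y hy
    have h5 : t.1 = 0 := by
      have h6 := h1 v
      rw [h4, hl0v, one_smul, zero_add] at h6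
      exact h6
    have h6 : a = 0 := by
      rw [h2, h5, zero_mul, smul_zero, neg_zero]
    exact Prod.ext h6 (Subtype.ext h5)
  · -- all values lie in the maximal ideal
    have hval : ∀ g, ∃ y ∈ mm n, Ideal.Quotient.mk J y = E g := by
      intro g
      obtain ⟨y, hy⟩ := Ideal.Quotient.mk_surjective (E g)
      refine ⟨y, ?_, hy⟩
      by_contra hym
      apply hu
      refine ⟨g, ?_⟩
      rw [← hy]
      have : IsUnit y := by
        rw [mm_eq_maximal, IsLocalRing.mem_maximalIdeal, mem_nonunits_iff, not_not] at hym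
        exact hym
      exact this.map _
    have hlfJ : ∀ i, ∀ g ∈ J, lf f i0 i g = 0 := fun i => hvan _ (PD_lf f i0 i) (lf_f f i0 i hi0)
    obtain ⟨c, hc0, hc⟩ := exists_vec (n := n) (ι := {i : Fin n // i ≠ i0}) (by
        rw [Fintype.card_subtype_compl]
        simp
        omega)
      (fun i => lE J E (lf f i0 i) (hlfJ i))
    obtain ⟨l0, hl0, hl0v⟩ := exists_PD c hc0
    set v := ∑ j, c j • (MvPowerSeries.X j : P n) with hv
    obtain ⟨y, hy2, hyv⟩ : ∃ y ∈ (mm n) ^ 2, E v = Ideal.Quotient.mk J y := by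
      obtain ⟨w, hw, hwv⟩ := hval v
      obtain ⟨d, hd⟩ := mem_of_lf f i0 hi0 hf0 w hw (by
        intro i hi
        have h1 := hc ⟨i, hi⟩
        rwa [lE_apply, ← hwv, tl_mk] at h1)
      refine ⟨_, hd, ?_⟩
      rw [← hwv, Ideal.Quotient.eq]
      have h1 : w - (w - d • f) = d • f := by abel
      rw [h1, Algebra.smul_def]
      exact Ideal.mul_mem_left _ _ hfJ
    have hl0I : ∀ g ∈ I, l0 g = 0 := fun g hg => hl0.sq (hI2 hg)
    let Φ : ((P n ⧸ J) × soc J) →ₗ[P n] VV I J :=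
      (scaleE I J E hEI).coprod (socM I J l0 hl0 hl0I)
    have hΦ : Function.Surjective Φ := by
      refine surj_of_length (soc J) Φ ?_ hfin hmaster
      rintro ⟨a, t⟩ hat
      have h1 : ∀ g, a * E g + l0 g • t.1 = 0 := by
        intro g
        have h2 := congrArg (fun D : VV I J => (D : Derivation ℂ (P n) (P n ⧸ J)) g) hat
        exact h2
      have h2 : ∀ g, a * E g ∈ soc J := by
        intro g
        rw [eq_neg_of_add_eq_zero_left (h1 g)]
        apply (soc J).neg_mem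
        intro x hx
        rw [smul_comm, t.2 x hx, smul_zero]
      have h3 : a * E v = 0 := by
        rw [hyv, mul_comm, mul_mk_smul]
        exact A1 J E hE a h2 hy2
      have h4 : t.1 = 0 := by
        have h5 := h1 v
        rw [h3, hl0v, one_smul, zero_add] at h5
        exact h5
      refine ⟨Subtype.ext h4, ?_⟩
      apply A2 J E hE
      intro g
      have h5 := h1 g
      rwa [h4, smul_zero, add_zero] at h5
    have hsurj : ∀ D ∈ VV I J, ∃ a : P n ⧸ J, ∃ t ∈ soc J, ∀ g, D g = a * E g + l0 g • t := by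
      intro D hD
      obtain ⟨⟨a, t⟩, hat⟩ := hΦ ⟨D, hD⟩
      refine ⟨a, t.1, t.2, fun g => ?_⟩
      have h2 := congrArg (fun D : VV I J => (D : Derivation ℂ (P n) (P n ⧸ J)) g) hat
      exact h2.symm
    -- the elements b_i
    have hb : ∀ i, ∃ b : P n ⧸ J, ∀ x ∈ mm n, x • b = lf f i0 i x • s := fun i =>
      S1 I J E hEI hE hval l0 v y hy2 hyv hl0v hsurj (lf f i0 i) (PD_lf f i0 i) (hlfJ i) s hs
    choose b hb using hb
    -- the functionals m_i
    set m : Fin n → P n →ₗ[ℂ] ℂ := fun i => lE J E (lf f i0 i) (hlfJ i) with hm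
    have hmPD : ∀ i, PD (m i) := fun i => PD_lE J E _ (PD_lf f i0 i) (hlfJ i) hval
    -- relation (R)
    have hR : ∀ i j : Fin n, ∀ x z : P n, m i x * lf f i0 j z - m j x * lf f i0 i z =
        m i z * lf f i0 j x - m j z * lf f i0 i x := by
      intro i j
      set D := dder J (lf f i0 i) (lf f i0 j) (PD_lf f i0 i) (PD_lf f i0 j) s (b i) (b j)
        (hb i) (hb j) with hD
      have hDV : D ∈ VV I J := by
        intro g hg
        rw [hD, dder_apply, (PD_lf f i0 i).sq (hI2 hg), (PD_lf f i0 j).sq (hI2 hg), zero_smul,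
          zero_smul, sub_zero]
      obtain ⟨a, t, ht, hat⟩ := hsurj D hDV
      have h1 : ∀ x z : P n, a * (E x * E z) = (m i x * lf f i0 j z - m j x * lf f i0 i z) • s := by
        intro x z
        obtain ⟨w, hw, hwx⟩ := hval x
        have h2 := hat z
        have h3 : w • D z = w • (a * E z) := by
          rw [h2, smul_add, smul_comm w, ht w hw, smul_zero, add_zero]
        have h4 : w • (a * E z) = a * (E x * E z) := by
          rw [← hwx, mul_mk_smul, mul_smul']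
        have h5 : w • D z = (m i x * lf f i0 j z - m j x * lf f i0 i z) • s := by
          rw [hD, dder_apply, smul_sub, smul_comm w, smul_comm w, hb i w hw, hb j w hw, smul_smul,
            smul_smul, ← sub_smul]
          congr 1
          have h6 : m i x = lf f i0 i w := by
            rw [hm]
            change lE J E (lf f i0 i) (hlfJ i) x = _
            rw [lE_apply, ← hwx, tl_mk]
          have h7 : m j x = lf f i0 j w := by
            rw [hm]
            change lE J E (lf f i0 j) (hlfJ j) x = _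
            rw [lE_apply, ← hwx, tl_mk]
          rw [h6, h7]
          ring
        rw [← h4, ← h3, h5]
      intro x z
      have h2 := h1 x z
      rw [mul_comm (E x), h1 z x] at h2
      have h3 : ((m i z * lf f i0 j x - m j z * lf f i0 i x) -
          (m i x * lf f i0 j z - m j x * lf f i0 i z)) • s = 0 := by
        rw [sub_smul, h2, sub_self]
      rcases smul_eq_zero.mp h3 with h4 | h4
      · linear_combination -h4
      · exact absurd h4 hs0
    -- choose a third index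
    have hthird : ∀ i j : Fin n, ∃ q, q ≠ i0 ∧ q ≠ i ∧ q ≠ j := by
      intro i j
      have hcard : ({i0, i, j} : Finset (Fin n)).card < (Finset.univ : Finset (Fin n)).card := by
        rw [Finset.card_univ, Fintype.card_fin]
        exact lt_of_le_of_lt Finset.card_le_three (by omega)
      obtain ⟨q, _, hq⟩ := Finset.exists_mem_notMem_of_card_lt_card hcard
      simp only [Finset.mem_insert, Finset.mem_singleton, not_or] at hq
      exact ⟨q, hq.1, hq.2.1, hq.2.2⟩
    have hmf : ∀ i, i ≠ i0 → m i f = 0 := by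
      intro i hi
      obtain ⟨j, hj0, hji, _⟩ := hthird i i
      have h1 := hR i j f (MvPowerSeries.X j)
      rw [lf_X f hj0, lf_X f hj0, if_pos rfl, if_neg (Ne.symm hji), lf_f f i0 j hi0,
        lf_f f i0 i hi0] at h1
      linear_combination h1
    have hmk : ∀ i k, i ≠ i0 → k ≠ i0 → i ≠ k → m i (MvPowerSeries.X k) = 0 := by
      intro i k hi hk hik
      obtain ⟨j, hj0, hji, hjk⟩ := hthird i k
      have h1 := hR i j (MvPowerSeries.X k) (MvPowerSeries.X j)
      rw [lf_X f hj0, lf_X f hj0, lf_X f hk, lf_X f hk, if_pos rfl, if_neg (Ne.symm hji),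
        if_neg hjk, if_neg hik] at h1
      linear_combination h1
    have hmsum : ∀ i j, i ≠ i0 → j ≠ i0 → i ≠ j →
        m i (MvPowerSeries.X i) + m j (MvPowerSeries.X j) = 0 := by
      intro i j hi hj hij
      have h1 := hR i j (MvPowerSeries.X i) (MvPowerSeries.X j)
      rw [lf_X f hj, lf_X f hj, lf_X f hi, lf_X f hi, if_pos rfl, if_pos rfl, if_neg hij,
        if_neg (Ne.symm hij)] at h1
      linear_combination h1
    have hmii : ∀ i, i ≠ i0 → m i (MvPowerSeries.X i) = 0 := by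
      intro i hi
      obtain ⟨j, hj0, hji, _⟩ := hthird i i
      obtain ⟨q, hq0, hqi, hqj⟩ := hthird i j
      have h1 := hmsum i j hi hj0 (Ne.symm hji)
      have h2 := hmsum i q hi hq0 (Ne.symm hqi)
      have h3 := hmsum j q hj0 hq0 (Ne.symm hqj)
      linear_combination (h1 + h2 - h3) / 2
    have hmX : ∀ i, i ≠ i0 → ∀ k, k ≠ i0 → m i (MvPowerSeries.X k) = 0 := by
      intro i hi k hk
      by_cases hik : i = k
      · subst hik; exact hmii i hi
      · exact hmk i k hi hk hik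
    have hmX0 : ∀ i, i ≠ i0 → m i (MvPowerSeries.X i0) = 0 := by
      intro i hi
      have h1 := hmf i hi
      rw [(hmPD i).expand f, Finset.sum_eq_single i0] at h1
      · exact (mul_eq_zero.mp h1).resolve_left hi0
      · intro k _ hk
        rw [hmX i hi k hk, mul_zero]
      · intro h; exact absurd (Finset.mem_univ _) h
    obtain ⟨i, hi, _, _⟩ := hthird i0 i0
    have hm0 : ∀ g, m i g = 0 := by
      intro g
      rw [(hmPD i).expand g]
      apply Finset.sum_eq_zero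
      intro k _
      by_cases hk : k = i0
      · rw [hk, hmX0 i hi, mul_zero]
      · rw [hmX i hi k hk, mul_zero]
    -- contradiction
    have hspan : ∀ z ∈ Ideal.span (Set.range E), (∃ w ∈ mm n, Ideal.Quotient.mk J w = z) ∧
        tl J (lf f i0 i) (hlfJ i) z = 0 := by
      intro z hz
      induction hz using Submodule.span_induction with
      | mem x hx => obtain ⟨g, rfl⟩ := hx; exact ⟨hval g, hm0 g⟩
      | zero => exact ⟨⟨0, (mm n).zero_mem, map_zero _⟩, map_zero _⟩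
      | add x y _ _ hx hy =>
        obtain ⟨⟨x1, hx1, rfl⟩, hx2⟩ := hx
        obtain ⟨⟨y1, hy1, rfl⟩, hy2⟩ := hy
        refine ⟨⟨x1 + y1, (mm n).add_mem hx1 hy1, map_add _ _ _⟩, ?_⟩
        rw [map_add, hx2, hy2, add_zero]
      | smul r x _ hx =>
        obtain ⟨⟨x1, hx1, rfl⟩, hx2⟩ := hx
        obtain ⟨r1, rfl⟩ := Ideal.Quotient.mk_surjective r
        refine ⟨⟨r1 * x1, (mm n).mul_mem_left _ hx1, map_mul _ _ _⟩, ?_⟩
        rw [smul_eq_mul, mul_mk_smul, tl_smul J _ (PD_lf f i0 i) _ _ hx1, hx2, mul_zero]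
    have h1 := (hspan _ (hE i)).2
    rw [tl_mk, lf_X f hi, if_pos rfl] at h1
    exact one_ne_zero h1

/-- **Main theorem.** -/
theorem not_rigid (hn : 4 ≤ n) (I : Ideal (P n)) (hI2 : I ≤ (mm n) ^ 2) (hrad : I.IsRadical)
    (hdim : ringKrullDim (P n ⧸ I) = 1) (f : P n) (hf0 : constantCoeff f = 0) (i0 : Fin n)
    (hi0 : lin i0 f ≠ 0) (hreg : ∀ g, f * g ∈ I → g ∈ I)
    (E : Derivation ℂ (P n) (P n ⧸ (I ⊔ Ideal.span {f}))) (hEI : ∀ g ∈ I, E g = 0)
    (hE : ∀ i, Ideal.Quotient.mk (I ⊔ Ideal.span {f}) (MvPowerSeries.X i) ∈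
      Ideal.span (Set.range E)) : ¬ Rig I := by
  intro hrig
  have hmaster := master I hrad hdim f hf0 hreg hrig
  obtain ⟨hart, hI, k, hk⟩ := artin_facts I hdim f hf0 hreg
  have hJm : I ⊔ Ideal.span {f} ≤ mm n := by
    refine sup_le (hI2.trans (Ideal.pow_le_self two_ne_zero)) ?_
    rw [Ideal.span_singleton_le_iff_mem, mem_mm_iff]
    exact hf0
  exact core hn I (I ⊔ Ideal.span {f}) hI2 f hf0 i0 hi0
    (fun l hl hlf => hl.vanish I hI2 f hf0 hlf) hmaster
    ((le_sup_right : Ideal.span {f} ≤ _) (Ideal.mem_span_singleton_self f)) hJm k hk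
    (length_A_ne_top _ hart) E hEI hE

end Pool.Agent.W_MP_90188c_ag
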