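import Mathlib

set_option autoImplicit false

namespace Pool.Agent.W_MP_90188c_ag

open Module

variable {R : Type*} [CommRing R] {M : Type*} [AddCommGroup M] [Module R M]

/-- the length of `M / f^k M` is `k` times that of `M / f M` if `f` is injective on `M`. -/
lemma length_quot_pow (f : R) (hf : ∀ x : M, f • x = 0 → x = 0) (k : ℕ) :
    length R (M ⧸ LinearMap.range (f ^ k • (LinearMap.id : M →ₗ[R] M))) =
      k * length R (M ⧸ LinearMap.range (f • (LinearMap.id : M →ₗ[R] M))) := by
  induction k with
  | zero =>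
    have : Subsingleton (M ⧸ LinearMap.range (f ^ 0 • (LinearMap.id : M →ₗ[R] M))) := by
      rw [Submodule.Quotient.subsingleton_iff, pow_zero, one_smul, LinearMap.range_id]
    rw [length_eq_zero]
    simp
  | succ k ih =>
    -- 0 → M/f^k → M/f^(k+1) → M/f → 0
    have hle1 : LinearMap.range (f ^ k • (LinearMap.id : M →ₗ[R] M)) ≤
        (LinearMap.range (f ^ (k + 1) • (LinearMap.id : M →ₗ[R] M))).comap
          (f • (LinearMap.id : M →ₗ[R] M)) := by
      rintro _ ⟨x, rfl⟩
      refine ⟨x, ?_⟩
      simp only [LinearMap.smul_apply, LinearMap.id_coe, id_eq]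
      rw [← mul_smul, pow_succ']
    have hle2 : LinearMap.range (f ^ (k + 1) • (LinearMap.id : M →ₗ[R] M)) ≤
        (LinearMap.range (f • (LinearMap.id : M →ₗ[R] M))).comap
          (LinearMap.id : M →ₗ[R] M) := by
      rintro _ ⟨x, rfl⟩
      refine ⟨f ^ k • x, ?_⟩
      simp only [LinearMap.smul_apply, LinearMap.id_coe, id_eq]
      rw [← mul_smul, pow_succ']
    have key := Module.length_eq_add_of_exact
      (Submodule.mapQ _ _ (f • (LinearMap.id : M →ₗ[R] M)) hle1)
      (Submodule.mapQ _ _ (LinearMap.id : M →ₗ[R] M) hle2) ?_ ?_ ?_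
    · rw [key, ih]
      push_cast
      ring
    · rw [← LinearMap.ker_eq_bot, LinearMap.ker_eq_bot']
      intro m hm
      obtain ⟨x, rfl⟩ := Submodule.Quotient.mk_surjective _ m
      rw [Submodule.mapQ_apply, Submodule.Quotient.mk_eq_zero] at hm
      obtain ⟨y, hy⟩ := hm
      rw [Submodule.Quotient.mk_eq_zero]
      refine ⟨y, ?_⟩
      have h1 : f • (f ^ k • y - x) = 0 := by
        rw [smul_sub, ← mul_smul, ← pow_succ']
        simpa [sub_eq_zero] using hy
      have h2 := hf _ h1
      simpa [sub_eq_zero] using h2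
    · intro m
      obtain ⟨x, rfl⟩ := Submodule.Quotient.mk_surjective _ m
      exact ⟨Submodule.Quotient.mk x, by simp⟩
    · intro m
      obtain ⟨x, rfl⟩ := Submodule.Quotient.mk_surjective _ m
      constructor
      · intro hm
        rw [Submodule.mapQ_apply, Submodule.Quotient.mk_eq_zero] at hm
        obtain ⟨y, hy⟩ := hm
        refine ⟨Submodule.Quotient.mk y, ?_⟩
        rw [Submodule.mapQ_apply]
        congr 1
      · rintro ⟨y, hy⟩
        obtain ⟨z, rfl⟩ := Submodule.Quotient.mk_surjective _ y
        rw [Submodule.mapQ_apply] at hy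
        rw [← hy, Submodule.mapQ_apply, Submodule.Quotient.mk_eq_zero]
        exact ⟨z, rfl⟩

lemma enat_bound (a b : ℕ∞) (c : ℕ) (hb : b ≠ ⊤)
    (h : ∀ j : ℕ, (j : ℕ∞) * a ≤ ((j + c : ℕ) : ℕ∞) * b) : a ≤ b := by
  lift b to ℕ using hb
  have ha : a ≠ ⊤ := by
    intro ha
    have := h 1
    rw [ha] at this
    simp at this
    exact absurd this (by
      rw [← ne_eq]
      exact_mod_cast ENat.natCast_ne_top ((1 + c) * b))
  lift a to ℕ using ha
  norm_cast
  by_contra hlt
  push Not at hlt
  have h1 := h (c * b + 1)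
  norm_cast at h1
  have h2 : (c * b + 1) * (b + 1) ≤ (c * b + 1) * a := Nat.mul_le_mul_left _ hlt
  nlinarith

/-- If `f` acts injectively on the finite module `M` over a Noetherian ring, then for every
submodule `N` of `M` the length of `N/fN` is at most that of `M/fM`. -/
lemma length_sub_quot_le [IsNoetherianRing R] [Module.Finite R M] (f : R)
    (hf : ∀ x : M, f • x = 0 → x = 0) (N : Submodule R M)
    (hfin : length R (M ⧸ LinearMap.range (f • (LinearMap.id : M →ₗ[R] M))) ≠ ⊤) :
    length R (N ⧸ LinearMap.range (f • (LinearMap.id : N →ₗ[R] N))) ≤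
      length R (M ⧸ LinearMap.range (f • (LinearMap.id : M →ₗ[R] M))) := by
  obtain ⟨c, hc⟩ := Ideal.exists_pow_inf_eq_pow_smul (Ideal.span {f}) N
  apply enat_bound _ _ c hfin
  intro j
  have hfN : ∀ x : N, f • x = 0 → x = 0 := by
    intro x hx
    apply Subtype.ext
    apply hf
    simpa using congrArg Subtype.val hx
  rw [← length_quot_pow f hfN j, ← length_quot_pow f hf (j + c)]
  -- N/(N ∩ f^(j+c) M) injects in M/f^(j+c)M and surjects onto N/f^j N
  set Q := (LinearMap.range (f ^ (j + c) • (LinearMap.id : M →ₗ[R] M))) with hQ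
  have hinj : length R (N ⧸ Q.comap N.subtype) ≤ length R (M ⧸ Q) := by
    apply Module.length_le_of_injective (Submodule.mapQ _ _ N.subtype le_rfl)
    rw [← LinearMap.ker_eq_bot, LinearMap.ker_eq_bot']
    intro m hm
    obtain ⟨x, rfl⟩ := Submodule.Quotient.mk_surjective _ m
    rw [Submodule.mapQ_apply, Submodule.Quotient.mk_eq_zero] at hm
    rw [Submodule.Quotient.mk_eq_zero]
    exact hm
  refine le_trans ?_ hinj
  have hle : Q.comap N.subtype ≤
      (LinearMap.range (f ^ j • (LinearMap.id : N →ₗ[R] N))).comap (LinearMap.id : N →ₗ[R] N) := by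
    intro x hx
    have hx1 : (x : M) ∈ (Ideal.span {f}) ^ (j + c) • (⊤ : Submodule R M) ⊓ N := by
      refine ⟨?_, x.2⟩
      obtain ⟨y, hy⟩ := hx
      have : (x : M) = f ^ (j + c) • y := by
        simpa using hy.symm
      rw [this]
      exact Submodule.smul_mem_smul (Ideal.pow_mem_pow (Ideal.mem_span_singleton_self f) _)
        Submodule.mem_top
    rw [hc (j + c) (by omega)] at hx1
    have hjc : j + c - c = j := by omega
    rw [hjc, Ideal.span_singleton_pow, Submodule.ideal_span_singleton_smul,
      Submodule.mem_smul_pointwise_iff_exists] at hx1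
    obtain ⟨y, hy, hyx⟩ := hx1
    refine ⟨⟨y, hy.2⟩, ?_⟩
    apply Subtype.ext
    simpa using hyx
  apply Module.length_le_of_surjective (Submodule.mapQ _ _ (LinearMap.id : N →ₗ[R] N) hle)
  intro m
  obtain ⟨x, rfl⟩ := Submodule.Quotient.mk_surjective _ m
  exact ⟨Submodule.Quotient.mk x, by simp⟩

/-- abstract form of the main inequality -/
lemma length_le_abstract [IsNoetherianRing R] [Module.Finite R M] {X V : Type*}
    [AddCommGroup X] [Module R X] [AddCommGroup V] [Module R V] (f : R)
    (hf : ∀ x : M, f • x = 0 → x = 0) (ψ : X →ₗ[R] M) (q : X →ₗ[R] V)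
    (hq : Function.Surjective q) (hker : ∀ D D' : X, ψ D = f • ψ D' → q D = 0)
    (hfin : length R (M ⧸ LinearMap.range (f • (LinearMap.id : M →ₗ[R] M))) ≠ ⊤) :
    length R V ≤ length R (M ⧸ LinearMap.range (f • (LinearMap.id : M →ₗ[R] M))) := by
  set N := LinearMap.range ψ with hN
  refine le_trans ?_ (length_sub_quot_le f hf N hfin)
  set fN := LinearMap.range (f • (LinearMap.id : N →ₗ[R] N)) with hfN
  set K := fN.comap ψ.rangeRestrict with hK
  have hKq : K ≤ LinearMap.ker q := by
    intro D hD
    obtain ⟨⟨y, D', hD'⟩, hy⟩ := hD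
    have h1 : f • y = ψ D := by
      have := congrArg Subtype.val hy
      simpa using this
    rw [← hD'] at h1
    exact hker D D' h1.symm
  have hs1 : length R V ≤ length R (X ⧸ K) := by
    apply Module.length_le_of_surjective (Submodule.liftQ K q hKq)
    intro x
    obtain ⟨D, rfl⟩ := hq x
    exact ⟨Submodule.Quotient.mk D, rfl⟩
  have hs2 : length R (X ⧸ K) ≤ length R (N ⧸ fN) := by
    apply Module.length_le_of_injective (Submodule.mapQ K fN ψ.rangeRestrict le_rfl)
    rw [← LinearMap.ker_eq_bot, LinearMap.ker_eq_bot']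
    intro m hm
    obtain ⟨x, rfl⟩ := Submodule.Quotient.mk_surjective _ m
    rw [Submodule.mapQ_apply, Submodule.Quotient.mk_eq_zero] at hm
    rw [Submodule.Quotient.mk_eq_zero]
    exact hm
  exact hs1.trans hs2

lemma length_range_add_ker {X V : Type*} [AddCommGroup X] [Module R X] [AddCommGroup V]
    [Module R V] (Φ : X →ₗ[R] V) :
    length R X = length R (LinearMap.ker Φ) + length R (LinearMap.range Φ) :=
  Module.length_eq_add_of_exact (LinearMap.ker Φ).subtype Φ.rangeRestrict
    (Submodule.subtype_injective _) (LinearMap.surjective_rangeRestrict Φ) (by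
      intro x
      constructor
      · intro hx
        have h1 : Φ x = 0 := congrArg Subtype.val hx
        exact ⟨⟨x, h1⟩, rfl⟩
      · rintro ⟨y, rfl⟩
        exact Subtype.ext y.2)

lemma surj_of_length (S : Submodule R M) {V : Type*} [AddCommGroup V] [Module R V]
    (Φ : (M × S) →ₗ[R] V) (h : ∀ x, Φ x = 0 → x.2 = 0 ∧ x.1 ∈ S)
    (hfin : length R M ≠ ⊤) (hV : length R V ≤ length R M) : Function.Surjective Φ := by
  have hS : length R S ≠ ⊤ :=
    ne_top_of_le_ne_top hfin (Module.length_le_of_injective S.subtype (Submodule.subtype_injective _))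
  have h1 := length_range_add_ker Φ
  rw [Module.length_prod] at h1
  have h2 : length R (LinearMap.ker Φ) ≤ length R S := by
    let g : LinearMap.ker Φ →ₗ[R] S :=
      { toFun := fun x => ⟨x.1.1, (h x.1 x.2).2⟩
        map_add' := fun x y => rfl
        map_smul' := fun c x => rfl }
    apply Module.length_le_of_injective g
    intro x y hxy
    have h3 : x.1.1 = y.1.1 := congrArg Subtype.val hxy
    have h4 := (h x.1 x.2).1
    have h5 := (h y.1 y.2).1
    exact Subtype.ext (Prod.ext h3 (h4.trans h5.symm))
  have h3 : length R M ≤ length R (LinearMap.range Φ) := by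
    have h4 : length R S + length R M ≤ length R S + length R (LinearMap.range Φ) := by
      rw [add_comm (length R S) (length R M), h1]
      gcongr
    exact (ENat.add_le_add_iff_left hS).mp h4
  have h5 : length R V = length R (LinearMap.range Φ) + length R (V ⧸ LinearMap.range Φ) :=
    Module.length_eq_add_of_exact (LinearMap.range Φ).subtype (LinearMap.range Φ).mkQ
      (Submodule.subtype_injective _) (Submodule.mkQ_surjective _)
      (LinearMap.exact_subtype_mkQ _)
  have h6 : length R (V ⧸ LinearMap.range Φ) = 0 := by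
    have h7 : length R (LinearMap.range Φ) + length R (V ⧸ LinearMap.range Φ) ≤
        length R (LinearMap.range Φ) + 0 := by
      rw [← h5, add_zero]
      exact hV.trans h3
    have h8 : length R (LinearMap.range Φ) ≠ ⊤ := by
      have h9 : length R (LinearMap.range Φ) ≤ length R V := by rw [h5]; exact le_self_add
      exact ne_top_of_le_ne_top hfin (h9.trans hV)
    have h10 := (ENat.add_le_add_iff_left h8).mp h7
    exact le_antisymm h10 bot_le
  rw [Module.length_eq_zero_iff, Submodule.Quotient.subsingleton_iff] at h6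
  exact LinearMap.range_eq_top.mp h6

lemma false_of_length (S : Submodule R M) {V : Type*} [AddCommGroup V] [Module R V]
    (Φ : (M × S) →ₗ[R] V) (h : ∀ x, Φ x = 0 → x = 0) (hS0 : S ≠ ⊥)
    (hfin : length R M ≠ ⊤) (hV : length R V ≤ length R M) : False := by
  have hinj : Function.Injective Φ := by
    rw [← LinearMap.ker_eq_bot, LinearMap.ker_eq_bot']
    exact h
  have h1 := (Module.length_le_of_injective Φ hinj).trans hV
  rw [Module.length_prod] at h1
  have h2 : length R M + length R S ≤ length R M + 0 := by rwa [add_zero]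
  have h3 := (ENat.add_le_add_iff_left hfin).mp h2
  have h4 : length R S = 0 := le_antisymm h3 bot_le
  rw [Module.length_eq_zero_iff] at h4
  exact hS0 (Submodule.subsingleton_iff_eq_bot.mp h4)

end Pool.Agent.W_MP_90188c_ag
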