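import Pool.Agent.W_MP_90188c_ag.Point

set_option autoImplicit false

namespace Pool.Agent.W_MP_90188c_ag

open MvPowerSeries

variable {n : ℕ}

lemma mul_smul' (J : Ideal (P n)) (x : P n) (a b : P n ⧸ J) : a * (x • b) = x • (a * b) := by
  obtain ⟨y, rfl⟩ := Ideal.Quotient.mk_surjective a
  obtain ⟨z, rfl⟩ := Ideal.Quotient.mk_surjective b
  change Ideal.Quotient.mk J (y * (x * z)) = Ideal.Quotient.mk J (x * (y * z))
  congr 1
  ring

/-- the derivation `a E` -/
noncomputable def aE (J : Ideal (P n)) (E : Derivation ℂ (P n) (P n ⧸ J)) (a : P n ⧸ J) :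
    Derivation ℂ (P n) (P n ⧸ J) :=
  Derivation.mk' ((LinearMap.mulLeft ℂ a).comp (E : P n →ₗ[ℂ] (P n ⧸ J))) (by
    intro g h
    change a * E (g * h) = g • (a * E h) + h • (a * E g)
    rw [E.leibniz, mul_add, mul_smul', mul_smul'])

/-- `a ↦ a E` -/
noncomputable def scaleE (I J : Ideal (P n)) (E : Derivation ℂ (P n) (P n ⧸ J))
    (hE : E ∈ VV I J) : (P n ⧸ J) →ₗ[P n] VV I J where
  toFun a := ⟨aE J E a, fun g hg => by
    change a * E g = 0
    rw [hE g hg, mul_zero]⟩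
  map_add' a b := by
    apply Subtype.ext
    ext g
    exact add_mul a b (E g)
  map_smul' c a := by
    apply Subtype.ext
    ext g
    change (c • a) * E g = c • (a * E g)
    rw [mul_comm, mul_smul', mul_comm]

lemma scaleE_apply (I J : Ideal (P n)) (E : Derivation ℂ (P n) (P n ⧸ J)) (hE : E ∈ VV I J)
    (a : P n ⧸ J) (g : P n) :
    (scaleE I J E hE a : Derivation ℂ (P n) (P n ⧸ J)) g = a * E g := rfl

/-- `s ↦ (g ↦ l(g) s)` -/
noncomputable def socM (I J : Ideal (P n)) (l : P n →ₗ[ℂ] ℂ) (hl : PD l)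
    (hlI : ∀ g ∈ I, l g = 0) : soc J →ₗ[P n] VV I J where
  toFun s := ⟨sder J l hl s.1 s.2, fun g hg => by rw [sder_apply, hlI g hg, zero_smul]⟩
  map_add' s t := by
    apply Subtype.ext
    ext g
    change l g • (s.1 + t.1) = l g • s.1 + l g • t.1
    rw [smul_add]
  map_smul' c s := by
    apply Subtype.ext
    ext g
    change l g • (c • s.1) = c • (l g • s.1)
    rw [smul_comm]

lemma socM_apply (I J : Ideal (P n)) (l : P n →ₗ[ℂ] ℂ) (hl : PD l)
    (hlI : ∀ g ∈ I, l g = 0) (s : soc J) (g : P n) :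
    (socM I J l hl hlI s : Derivation ℂ (P n) (P n ⧸ J)) g = l g • s.1 := rfl

lemma mul_mk_smul (J : Ideal (P n)) (x : P n) (b : P n ⧸ J) :
    Ideal.Quotient.mk J x * b = x • b := by
  obtain ⟨z, rfl⟩ := Ideal.Quotient.mk_surjective b
  rfl

/-- the functional `l_i` vanishing at `f` -/
noncomputable def lf (f : P n) (i0 i : Fin n) : P n →ₗ[ℂ] ℂ :=
  lin i + (-(lin i f / lin i0 f)) • lin i0

lemma PD_lf (f : P n) (i0 i : Fin n) : PD (lf f i0 i) := (PD_lin i).add ((PD_lin i0).smul _)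

lemma lf_f (f : P n) (i0 i : Fin n) (h : lin i0 f ≠ 0) : lf f i0 i f = 0 := by
  simp only [lf, LinearMap.add_apply, LinearMap.smul_apply, smul_eq_mul]
  field_simp
  ring

lemma lf_X (f : P n) {i0 i j : Fin n} (hj : j ≠ i0) :
    lf f i0 i (MvPowerSeries.X j) = if i = j then 1 else 0 := by
  simp only [lf, LinearMap.add_apply, LinearMap.smul_apply, smul_eq_mul]
  rw [lin_X, lin_X, if_neg (Ne.symm hj)]
  simp

lemma PD.vanish {l : P n →ₗ[ℂ] ℂ} (h : PD l) (I : Ideal (P n)) (hI : I ≤ (mm n) ^ 2) (f : P n)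
    (hf0 : constantCoeff f = 0) (hlf : l f = 0) : ∀ g ∈ I ⊔ Ideal.span {f}, l g = 0 := by
  intro g hg
  rw [Submodule.mem_sup] at hg
  obtain ⟨a, ha, b, hb, rfl⟩ := hg
  obtain ⟨y, rfl⟩ := Ideal.mem_span_singleton'.mp hb
  rw [map_add, h.sq (hI ha), h, hlf, hf0]
  ring

/-- if the values of all `l_i` at `g ∈ (X)` vanish then `g` lies in `(X)^2 + (f)` -/
lemma mem_of_lf (f : P n) (i0 : Fin n) (hi0 : lin i0 f ≠ 0) (hf0 : constantCoeff f = 0) (g : P n)
    (hg : g ∈ mm n) (h : ∀ i, i ≠ i0 → lf f i0 i g = 0) :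
    ∃ c : ℂ, g - c • f ∈ (mm n) ^ 2 := by
  refine ⟨lin i0 g / lin i0 f, ?_⟩
  apply mem_mm_pow
  intro d hd
  have hd' : d.degree = 0 ∨ d.degree = 1 := by omega
  rcases hd' with hd0 | hd1
  · have : d = 0 := (Finsupp.degree_eq_zero_iff d).mp hd0
    subst this
    rw [map_sub, map_smul, coeff_zero_eq_constantCoeff, (mem_mm_iff g).mp hg, hf0]
    simp
  · obtain ⟨i, rfl⟩ := exists_single d hd1
    change lin i (g - (lin i0 g / lin i0 f) • f) = 0
    rw [map_sub, map_smul, smul_eq_mul]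
    by_cases hi : i = i0
    · subst hi
      field_simp
      ring
    · have h1 := h i hi
      simp only [lf, LinearMap.add_apply, LinearMap.smul_apply, smul_eq_mul] at h1
      field_simp at h1 ⊢
      linear_combination h1

end Pool.Agent.W_MP_90188c_ag
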