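import Pool.Agent.W_MP_90188c_ag.Rank
import Pool.Agent.W_MP_90188c_ag.Len

set_option autoImplicit false

namespace Pool.Agent.W_MP_90188c_ag

open MvPowerSeries

variable {n : ℕ}

lemma artin_facts (I : Ideal (P n)) (hdim : ringKrullDim (P n ⧸ I) = 1) (f : P n)
    (hf0 : constantCoeff f = 0) (hreg : ∀ g, f * g ∈ I → g ∈ I) :
    IsArtinianRing (P n ⧸ (I ⊔ Ideal.span {f})) ∧ I ≠ ⊤ ∧
      ∃ k : ℕ, (mm n) ^ k ≤ I ⊔ Ideal.span {f} := by
  have hI : I ≠ ⊤ := by
    rintro rfl
    have : Subsingleton (P n ⧸ (⊤ : Ideal (P n))) := Ideal.Quotient.subsingleton_iff.mpr rfl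
    rw [ringKrullDim_eq_bot_of_subsingleton] at hdim
    simp at hdim
  set J := I ⊔ Ideal.span {f} with hJ
  have hInd : I ≤ mm n := by
    rw [mm_eq_maximal]
    exact IsLocalRing.le_maximalIdeal hI
  have hJm : J ≤ mm n := by
    refine sup_le hInd ?_
    rw [Ideal.span_singleton_le_iff_mem, mem_mm_iff]
    exact hf0
  have hmtop : mm n ≠ ⊤ := by
    rw [mm_eq_maximal]
    exact Ideal.IsPrime.ne_top'
  have hJtop : J ≠ ⊤ := fun h => hmtop (top_le_iff.mp (h ▸ hJm))
  have : Nontrivial (P n ⧸ J) := Ideal.Quotient.nontrivial_iff.mpr hJtop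
  have hloc : IsLocalRing (P n ⧸ J) :=
    IsLocalRing.of_surjective' (Ideal.Quotient.mk J) Ideal.Quotient.mk_surjective
  have hIJ : I ≤ J := le_sup_left
  have hsurj : Function.Surjective (Ideal.Quotient.factor hIJ) := by
    intro x
    obtain ⟨y, rfl⟩ := Ideal.Quotient.mk_surjective x
    exact ⟨Ideal.Quotient.mk I y, rfl⟩
  have hnzd : Ideal.Quotient.mk I f ∈ nonZeroDivisors (P n ⧸ I) := by
    rw [mem_nonZeroDivisors_iff_right]
    intro x hx
    obtain ⟨y, rfl⟩ := Ideal.Quotient.mk_surjective x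
    rw [← map_mul, Ideal.Quotient.eq_zero_iff_mem] at hx
    rw [Ideal.Quotient.eq_zero_iff_mem]
    apply hreg
    rwa [mul_comm]
  have hzero : Ideal.Quotient.factor hIJ (Ideal.Quotient.mk I f) = 0 := by
    rw [Ideal.Quotient.factor_mk, Ideal.Quotient.eq_zero_iff_mem]
    exact (le_sup_right : Ideal.span {f} ≤ J) (Ideal.mem_span_singleton_self f)
  have hd := ringKrullDim_succ_le_of_surjective _ hsurj hnzd hzero
  rw [hdim] at hd
  have hk0 : Ring.KrullDimLE 0 (P n ⧸ J) := by
    rw [Ring.krullDimLE_iff]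
    have h1 : ringKrullDim (P n ⧸ J) + 1 ≤ (0 : WithBot ℕ∞) + 1 := by simpa using hd
    exact ENat.WithBot.add_le_add_one_right_iff.mp h1
  have hart : IsArtinianRing (P n ⧸ J) := isArtinianRing_iff_krullDimLE_zero.mpr hk0
  refine ⟨hart, hI, ?_⟩
  obtain ⟨k, hk⟩ := (isArtinianRing_iff_isNilpotent_maximalIdeal (P n ⧸ J)).mp hart
  refine ⟨k, ?_⟩
  have hmap : Ideal.map (Ideal.Quotient.mk J) (mm n) ≤ IsLocalRing.maximalIdeal (P n ⧸ J) := by
    apply IsLocalRing.le_maximalIdeal
    intro htop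
    have hcm := congrArg (Ideal.comap (Ideal.Quotient.mk J)) htop
    rw [Ideal.comap_map_of_surjective _ Ideal.Quotient.mk_surjective, Ideal.comap_top,
      ← RingHom.ker_eq_comap_bot, Ideal.mk_ker, sup_eq_left.mpr hJm] at hcm
    exact hmtop hcm
  have h3 : Ideal.map (Ideal.Quotient.mk J) ((mm n) ^ k) = ⊥ := by
    rw [Ideal.map_pow, eq_bot_iff]
    refine (Ideal.pow_right_mono hmap k).trans ?_
    rw [hk]; simp
  rw [Ideal.map_eq_bot_iff_le_ker, Ideal.mk_ker] at h3
  exact h3

lemma length_A_ne_top (J : Ideal (P n)) (hart : IsArtinianRing (P n ⧸ J)) :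
    Module.length (P n) (P n ⧸ J) ≠ ⊤ := by
  have h1 : IsNoetherian (P n) (P n ⧸ J) := inferInstance
  have h2 : IsArtinian (P n) (P n ⧸ J) :=
    isArtinian_of_surjective_algebraMap (Ideal.Quotient.mk_surjective (I := J))
  exact Module.length_ne_top

/-- `Der(R, P/J)` for `R = P/I`: the derivations of `P` with values in `P/J` which kill `I` -/
def VV (I J : Ideal (P n)) : Submodule (P n) (Derivation ℂ (P n) (P n ⧸ J)) where
  carrier := {D | ∀ g ∈ I, D g = 0}
  zero_mem' := fun g _ => rfl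
  add_mem' := by
    intro a b ha hb g hg
    rw [Derivation.add_apply, ha g hg, hb g hg, add_zero]
  smul_mem' := by
    intro c a ha g hg
    rw [Derivation.smul_apply, ha g hg, smul_zero]

/-- the derivations of `P` which preserve `I` -/
def TT (I : Ideal (P n)) : Submodule (P n) (Derivation ℂ (P n) (P n)) where
  carrier := {D | ∀ g ∈ I, D g ∈ I}
  zero_mem' := fun g _ => I.zero_mem
  add_mem' := by
    intro a b ha hb g hg
    rw [Derivation.add_apply]
    exact I.add_mem (ha g hg) (hb g hg)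
  smul_mem' := by
    intro c a ha g hg
    rw [Derivation.smul_apply]
    exact I.mul_mem_left _ (ha g hg)

lemma mem_VV (I J : Ideal (P n)) (D : Derivation ℂ (P n) (P n ⧸ J)) :
    D ∈ VV I J ↔ ∀ g ∈ I, D g = 0 := Iff.rfl

lemma mem_TT (I : Ideal (P n)) (D : Derivation ℂ (P n) (P n)) :
    D ∈ TT I ↔ ∀ g ∈ I, D g ∈ I := Iff.rfl

/-- rigidity: every homomorphism `I → P/I` is induced by a derivation of `P` -/
def Rig (I : Ideal (P n)) : Prop :=
  ∀ φ : (↥I) →ₗ[P n] (P n ⧸ I), ∃ D : Derivation ℂ (P n) (P n),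
    ∀ g : (↥I), φ g = Ideal.Quotient.mk I (D (g : P n))

lemma lift_of_rig (I : Ideal (P n)) (hrig : Rig I) (f : P n) (hreg : ∀ g, f * g ∈ I → g ∈ I)
    (k : ℕ) (hk : (mm n) ^ k ≤ I ⊔ Ideal.span {f})
    (D : Derivation ℂ (P n) (P n ⧸ (I ⊔ Ideal.span {f}))) (hD : D ∈ VV I (I ⊔ Ideal.span {f})) :
    ∃ D' ∈ TT I, qD (I ⊔ Ideal.span {f}) D' = D := by
  obtain ⟨E, hE⟩ := exists_lift _ hk D
  have hEI : ∀ g : (↥I), ∃ b : P n, E (g : P n) - f * b ∈ I := by
    intro g
    have h1 : Ideal.Quotient.mk (I ⊔ Ideal.span {f}) (E (g : P n)) = 0 := by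
      rw [← qD_apply, hE]
      exact hD g g.2
    rw [Ideal.Quotient.eq_zero_iff_mem, Submodule.mem_sup] at h1
    obtain ⟨a, ha, b, hb, hab⟩ := h1
    obtain ⟨y, rfl⟩ := Ideal.mem_span_singleton'.mp hb
    refine ⟨y, ?_⟩
    rw [← hab]
    have : a + y * f - f * y = a := by ring
    rw [this]; exact ha
  choose b hb using hEI
  let φ : (↥I) →ₗ[P n] (P n ⧸ I) :=
    { toFun := fun g => Ideal.Quotient.mk I (b g)
      map_add' := by
        intro x y
        rw [← map_add, Ideal.Quotient.eq]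
        apply hreg
        have h1 := I.sub_mem (I.add_mem (hb x) (hb y)) (hb (x + y))
        rw [Submodule.coe_add, map_add] at h1
        convert h1 using 1
        ring
      map_smul' := by
        intro c x
        rw [RingHom.id_apply, ← Ideal.Quotient.mk_eq_mk, ← Ideal.Quotient.mk_eq_mk,
          ← Submodule.Quotient.mk_smul, Submodule.Quotient.eq]
        apply hreg
        have h1 := I.sub_mem (I.mul_mem_left c (hb x)) (hb (c • x))
        rw [Submodule.coe_smul, smul_eq_mul, E.leibniz] at h1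
        have h2 := I.add_mem h1 (I.mul_mem_right (E c) x.2)
        simp only [smul_eq_mul] at h2 ⊢
        convert h2 using 1
        ring }
  obtain ⟨D1, hD1⟩ := hrig φ
  refine ⟨E - f • D1, ?_, ?_⟩
  · intro g hg
    have h1 := hD1 ⟨g, hg⟩
    have h2 : Ideal.Quotient.mk I (b ⟨g, hg⟩) = Ideal.Quotient.mk I (D1 g) := h1
    rw [Ideal.Quotient.eq] at h2
    rw [Derivation.sub_apply, Derivation.smul_apply, smul_eq_mul]
    have h3 := I.add_mem (hb ⟨g, hg⟩) (I.mul_mem_left f h2)
    convert h3 using 1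
    ring
  · rw [← hE]
    ext g
    rw [qD_apply, qD_apply, Derivation.sub_apply, Derivation.smul_apply, smul_eq_mul,
      Ideal.Quotient.eq]
    have : E g - f * D1 g - E g = f * (- D1 g) := by ring
    rw [this]
    exact Ideal.mul_mem_right _ _
      ((le_sup_right : Ideal.span {f} ≤ I ⊔ Ideal.span {f}) (Ideal.mem_span_singleton_self f))

/-- **Master inequality**: if `R = P/I` is rigid, then `length Der(R, R/f) ≤ length R/f`. -/
lemma master (I : Ideal (P n)) (hrad : I.IsRadical) (hdim : ringKrullDim (P n ⧸ I) = 1) (f : P n)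
    (hf0 : constantCoeff f = 0) (hreg : ∀ g, f * g ∈ I → g ∈ I) (hrig : Rig I) :
    Module.length (P n) (VV I (I ⊔ Ideal.span {f})) ≤
      Module.length (P n) (P n ⧸ (I ⊔ Ideal.span {f})) := by
  obtain ⟨hart, hI, k, hk⟩ := artin_facts I hdim f hf0 hreg
  set J := I ⊔ Ideal.span {f} with hJ
  have hfin := length_A_ne_top J hart
  -- M = P/I
  have hfM : ∀ x : P n ⧸ I, f • x = 0 → x = 0 := by
    intro x hx
    obtain ⟨y, rfl⟩ := Ideal.Quotient.mk_surjective x
    rw [← Ideal.Quotient.mk_eq_mk, ← Submodule.Quotient.mk_smul, Submodule.Quotient.mk_eq_zero] at hx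
    rw [Ideal.Quotient.eq_zero_iff_mem]
    exact hreg y hx
  have hMJ : Module.length (P n) ((P n ⧸ I) ⧸
      LinearMap.range (f • (LinearMap.id : (P n ⧸ I) →ₗ[P n] (P n ⧸ I)))) ≤
      Module.length (P n) (P n ⧸ J) := by
    have hle : J ≤ LinearMap.ker ((Submodule.mkQ (LinearMap.range
        (f • (LinearMap.id : (P n ⧸ I) →ₗ[P n] (P n ⧸ I))))).comp (Submodule.mkQ I)) := by
      refine sup_le ?_ ?_
      · intro x hx
        rw [LinearMap.mem_ker, LinearMap.comp_apply, Submodule.mkQ_apply, Submodule.mkQ_apply,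
          (Submodule.Quotient.mk_eq_zero I).mpr hx]
        rfl
      · rw [Ideal.span_singleton_le_iff_mem]
        change _ = _
        rw [LinearMap.comp_apply, Submodule.mkQ_apply, Submodule.mkQ_apply,
          Submodule.Quotient.mk_eq_zero]
        refine ⟨Submodule.Quotient.mk 1, ?_⟩
        simp only [LinearMap.smul_apply, LinearMap.id_coe, id_eq]
        rw [← Submodule.Quotient.mk_smul, smul_eq_mul, mul_one]
    apply Module.length_le_of_surjective (Submodule.liftQ J _ hle)
    intro x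
    obtain ⟨y, rfl⟩ := Submodule.Quotient.mk_surjective _ x
    obtain ⟨z, rfl⟩ := Submodule.Quotient.mk_surjective _ y
    exact ⟨Submodule.Quotient.mk z, rfl⟩
  have hMfin : Module.length (P n) ((P n ⧸ I) ⧸
      LinearMap.range (f • (LinearMap.id : (P n ⧸ I) →ₗ[P n] (P n ⧸ I)))) ≠ ⊤ :=
    ne_top_of_le_ne_top hfin hMJ
  -- psi : TT → P/I
  let ψ : TT I →ₗ[P n] (P n ⧸ I) :=
    { toFun := fun D => Ideal.Quotient.mk I ((D : Derivation ℂ (P n) (P n)) f)
      map_add' := by
        intro x y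
        rw [Submodule.coe_add, Derivation.add_apply, map_add]
      map_smul' := by
        intro c x
        rw [Submodule.coe_smul, Derivation.smul_apply]
        rfl }
  refine le_trans ?_ hMJ
  -- q : TT → VV
  let q : TT I →ₗ[P n] VV I J :=
    { toFun := fun D => ⟨qD J D, fun g hg => by
        rw [qD_apply, Ideal.Quotient.eq_zero_iff_mem]
        exact (le_sup_left : I ≤ J) (D.2 g hg)⟩
      map_add' := by
        intro x y
        apply Subtype.ext
        ext g
        rfl
      map_smul' := by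
        intro c x
        apply Subtype.ext
        ext g
        rfl }
  have hqsurj : Function.Surjective q := by
    intro D
    obtain ⟨D', hD', hDD⟩ := lift_of_rig I hrig f hreg k hk D.1 D.2
    exact ⟨⟨D', hD'⟩, Subtype.ext hDD⟩
  refine length_le_abstract (X := ↥(TT I)) (V := ↥(VV I J)) f hfM ψ q hqsurj ?_ hMfin
  intro D D' hDD
  have h3 : (D : Derivation ℂ (P n) (P n)) f - f * (D' : Derivation ℂ (P n) (P n)) f ∈ I := by
    rw [← Ideal.Quotient.eq, map_mul]
    exact hDD
  have h4 := rank_lemma I hI hrad f hf0 hreg k hk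
    ((D : Derivation ℂ (P n) (P n)) - f • (D' : Derivation ℂ (P n) (P n))) (by
      intro g hg
      rw [Derivation.sub_apply, Derivation.smul_apply, smul_eq_mul]
      exact I.sub_mem (D.2 g hg) (I.mul_mem_left _ (D'.2 g hg))) (by
      rw [Derivation.sub_apply, Derivation.smul_apply, smul_eq_mul]
      exact h3)
  apply Subtype.ext
  ext g
  change Ideal.Quotient.mk J ((D : Derivation ℂ (P n) (P n)) g) = 0
  rw [Ideal.Quotient.eq_zero_iff_mem]
  have h5 := h4 g
  rw [Derivation.sub_apply, Derivation.smul_apply, smul_eq_mul] at h5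
  have h6 : f * (D' : Derivation ℂ (P n) (P n)) g ∈ J :=
    Ideal.mul_mem_right _ _
      ((le_sup_right : Ideal.span {f} ≤ J) (Ideal.mem_span_singleton_self f))
  have h7 := J.add_mem ((le_sup_left : I ≤ J) h5) h6
  convert h7 using 1
  ring

end Pool.Agent.W_MP_90188c_ag
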