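import Pool.Agent.W_MP_90188c_ag.Main

set_option autoImplicit false

namespace Pool.Agent.W_MP_90188c_ag

open MvPowerSeries

variable {n : ℕ}

/-- the module structure of a module killed by the variables -/
lemma length_eq_finrank_of_mm (X : Type) [AddCommGroup X] [Module (P n) X] [Module ℂ X]
    [IsScalarTower ℂ (P n) X] (h : ∀ g ∈ mm n, ∀ x : X, g • x = 0) [Module.Finite ℂ X] :
    Module.length (P n) X = Module.finrank ℂ X := by
  rw [← Module.length_eq_finrank]
  have hsurj : Function.Surjective (constantCoeff (σ := Fin n) (R := ℂ)) := by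
    intro c
    exact ⟨MvPowerSeries.C c, by simp⟩
  have : RingHomSurjective (constantCoeff (σ := Fin n) (R := ℂ)) := ⟨hsurj⟩
  let f : X →ₛₗ[constantCoeff (σ := Fin n) (R := ℂ)] X :=
    { toFun := fun x => x
      map_add' := fun x y => rfl
      map_smul' := by
        intro g x
        have h1 : (g - algebraMap ℂ (P n) (constantCoeff g)) • x = 0 := h _ (sub_const_mem g) x
        rw [sub_smul, algebraMap_smul, sub_eq_zero] at h1
        exact h1 }
  rw [Module.length, Module.length, WithBot.unbot_inj,
    Order.krullDim_eq_of_orderIso (Submodule.orderIsoMapComapOfBijective f Function.bijective_id)]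

lemma kill_smul (k : ℕ) (X : Type) [AddCommGroup X] [Module (P n) X]
    (h : ∀ g ∈ (mm n) ^ (k + 1), ∀ x : X, g • x = 0) (g : P n) (hg : g ∈ (mm n) ^ k) (x : X)
    (hx : x ∈ (mm n) • (⊤ : Submodule (P n) X)) : g • x = 0 := by
  induction hx using Submodule.smul_induction_on' with
  | smul r hr y _ =>
    rw [← mul_smul]
    apply h
    rw [pow_succ]
    exact Ideal.mul_mem_mul hg hr
  | add y _ z _ hy hz => rw [smul_add, hy, hz, add_zero]

/-- for finite dimensional modules killed by a power of the ideal of the variables the length is
the dimension -/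
lemma length_eq_finrank (k : ℕ) : ∀ (X : Type) [AddCommGroup X] [Module (P n) X] [Module ℂ X]
    [IsScalarTower ℂ (P n) X] [Module.Finite ℂ X], (∀ g ∈ (mm n) ^ k, ∀ x : X, g • x = 0) →
    Module.length (P n) X = Module.finrank ℂ X := by
  induction k with
  | zero =>
    intro X _ _ _ _ _ h
    have : Subsingleton X := ⟨fun x y => by
      have hx := h 1 (by simp) x
      have hy := h 1 (by simp) y
      rw [one_smul] at hx hy
      rw [hx, hy]⟩
    rw [Module.length_eq_zero, Module.finrank_zero_of_subsingleton]
    rfl
  | succ k ih =>
    intro X _ _ _ _ _ h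
    set N : Submodule (P n) X := (mm n) • ⊤ with hN
    have hfinN : Module.Finite ℂ N :=
      Module.Finite.of_injective (N.subtype.restrictScalars ℂ) (Submodule.subtype_injective _)
    have hfinQ : Module.Finite ℂ (X ⧸ N) :=
      Module.Finite.of_surjective (N.mkQ.restrictScalars ℂ) (Submodule.mkQ_surjective _)
    have h1 := ih N (by
      intro g hg x
      apply Subtype.ext
      exact kill_smul k X h g hg x.1 x.2)
    have h2 := length_eq_finrank_of_mm (n := n) (X ⧸ N) (by
      intro g hg x
      obtain ⟨y, rfl⟩ := Submodule.Quotient.mk_surjective _ x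
      rw [← Submodule.Quotient.mk_smul, Submodule.Quotient.mk_eq_zero]
      exact Submodule.smul_mem_smul hg Submodule.mem_top)
    have h3 : Module.length (P n) X = Module.length (P n) N + Module.length (P n) (X ⧸ N) :=
      Module.length_eq_add_of_exact N.subtype N.mkQ
        (Submodule.subtype_injective _) (Submodule.mkQ_surjective _)
        (LinearMap.exact_subtype_mkQ _)
    rw [h3, h1, h2]
    have h4 := LinearMap.finrank_range_add_finrank_ker (N.mkQ.restrictScalars ℂ)
    have h5 : LinearMap.range (N.mkQ.restrictScalars ℂ) = ⊤ :=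
      LinearMap.range_eq_top.mpr (Submodule.mkQ_surjective _)
    have h6 : LinearMap.ker (N.mkQ.restrictScalars ℂ) = N.restrictScalars ℂ := by
      ext x
      rw [LinearMap.mem_ker]
      exact Submodule.Quotient.mk_eq_zero N
    rw [h5, finrank_top, h6] at h4
    have h7 : Module.finrank ℂ (N.restrictScalars ℂ) = Module.finrank ℂ N := rfl
    rw [h7] at h4
    rw [← h4]
    push_cast
    ring

/-- finitely generated modules killed by a power of the ideal of the variables are finite
dimensional -/
lemma finite_of_mm_pow (k : ℕ) : ∀ (X : Type) [AddCommGroup X] [Module (P n) X] [Module ℂ X]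
    [IsScalarTower ℂ (P n) X] [Module.Finite (P n) X], (∀ g ∈ (mm n) ^ k, ∀ x : X, g • x = 0) →
    Module.Finite ℂ X := by
  induction k with
  | zero =>
    intro X _ _ _ _ _ h
    have : Subsingleton X := ⟨fun x y => by
      have hx := h 1 (by simp) x
      have hy := h 1 (by simp) y
      rw [one_smul] at hx hy
      rw [hx, hy]⟩
    infer_instance
  | succ k ih =>
    intro X _ _ _ _ _ h
    set N : Submodule (P n) X := (mm n) • ⊤ with hN
    have hNfg : Module.Finite (P n) N := inferInstance
    have h1 : Module.Finite ℂ N := ih N (by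
      intro g hg x
      apply Subtype.ext
      exact kill_smul k X h g hg x.1 x.2)
    have h2 : Module.Finite ℂ (X ⧸ N) := by
      obtain ⟨s, hs⟩ := (inferInstance : Module.Finite (P n) (X ⧸ N)).fg_top
      refine ⟨⟨s, ?_⟩⟩
      rw [eq_top_iff]
      rintro x -
      have hx : x ∈ Submodule.span (P n) (s : Set (X ⧸ N)) := by rw [hs]; trivial
      induction hx using Submodule.span_induction with
      | mem x hx => exact Submodule.subset_span hx
      | zero => exact Submodule.zero_mem _
      | add x y _ _ hx hy => exact Submodule.add_mem _ hx hy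
      | smul g x _ hx =>
        have h3 : (g - algebraMap ℂ (P n) (constantCoeff g)) • x = 0 := by
          obtain ⟨y, rfl⟩ := Submodule.Quotient.mk_surjective _ x
          rw [← Submodule.Quotient.mk_smul, Submodule.Quotient.mk_eq_zero]
          exact Submodule.smul_mem_smul (sub_const_mem g) Submodule.mem_top
        rw [sub_smul, algebraMap_smul, sub_eq_zero] at h3
        rw [h3]
        exact Submodule.smul_mem _ _ hx
    have h3 : Module.Finite ℂ (N.restrictScalars ℂ) := h1
    have h4 : Module.Finite ℂ (X ⧸ N.restrictScalars ℂ) :=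
      Module.Finite.equiv (Submodule.Quotient.restrictScalarsEquiv ℂ N).symm
    exact Module.Finite.of_submodule_quotient (N.restrictScalars ℂ)

end Pool.Agent.W_MP_90188c_ag
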