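import Pool.Agent.W_MP_90188c_ag.NumA

set_option autoImplicit false

namespace Pool.Agent.W_MP_90188c_ag

open MvPowerSeries

variable {n : ℕ}

lemma A_kill {J : Ideal (P n)} {k : ℕ} (hk : (mm n) ^ k ≤ J) (g : P n) (hg : g ∈ (mm n) ^ k)
    (x : P n ⧸ J) : g • x = 0 := by
  obtain ⟨y, rfl⟩ := Ideal.Quotient.mk_surjective x
  change Ideal.Quotient.mk J (g * y) = 0
  rw [Ideal.Quotient.eq_zero_iff_mem]
  exact J.mul_mem_right _ (hk hg)

lemma finite_A {J : Ideal (P n)} {k : ℕ} (hk : (mm n) ^ k ≤ J) : Module.Finite ℂ (P n ⧸ J) :=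
  finite_of_mm_pow k (P n ⧸ J) (A_kill hk)

lemma length_A {J : Ideal (P n)} {k : ℕ} (hk : (mm n) ^ k ≤ J) :
    Module.length (P n) (P n ⧸ J) = Module.finrank ℂ (P n ⧸ J) := by
  have := finite_A hk
  exact length_eq_finrank k (P n ⧸ J) (A_kill hk)

/-- evaluation of derivations at the variables -/
noncomputable def evX (I J : Ideal (P n)) : VV I J →ₗ[ℂ] (Fin n → P n ⧸ J) where
  toFun D i := (D : Derivation ℂ (P n) (P n ⧸ J)) (MvPowerSeries.X i)
  map_add' D D' := rfl
  map_smul' c D := rfl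

lemma finite_VV (I : Ideal (P n)) {J : Ideal (P n)} {k : ℕ} (hk : (mm n) ^ k ≤ J) :
    Module.Finite ℂ (VV I J) := by
  have := finite_A hk
  apply Module.Finite.of_injective (evX I J)
  intro D D' h
  apply Subtype.ext
  apply deriv_ext_artin J hk
  intro i
  exact congrFun h i

lemma length_VV (I : Ideal (P n)) {J : Ideal (P n)} {k : ℕ} (hk : (mm n) ^ k ≤ J) :
    Module.length (P n) (VV I J) = Module.finrank ℂ (VV I J) := by
  have := finite_VV I hk
  apply length_eq_finrank k
  intro g hg D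
  apply Subtype.ext
  ext x
  change g • (D : Derivation ℂ (P n) (P n ⧸ J)) x = 0
  exact A_kill hk g hg _

/-- the master inequality in terms of dimensions -/
lemma master_finrank (I : Ideal (P n)) (hrad : I.IsRadical) (hdim : ringKrullDim (P n ⧸ I) = 1)
    (f : P n) (hf0 : constantCoeff f = 0) (hreg : ∀ g, f * g ∈ I → g ∈ I) (hrig : Rig I) :
    Module.finrank ℂ (VV I (I ⊔ Ideal.span {f})) ≤
      Module.finrank ℂ (P n ⧸ (I ⊔ Ideal.span {f})) := by
  obtain ⟨_, _, k, hk⟩ := artin_facts I hdim f hf0 hreg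
  have h := master I hrad hdim f hf0 hreg hrig
  rw [length_A hk, length_VV I hk] at h
  exact_mod_cast h

/-- socle valued derivations -/
noncomputable def socMap (I J : Ideal (P n)) (hI : I ≤ (mm n) ^ 2) :
    (Fin n → soc J) →ₗ[ℂ] VV I J :=
  ∑ i, ((socM I J (lin i) (PD_lin i) (fun _ hg => (PD_lin i).sq (hI hg))).restrictScalars ℂ).comp
    (LinearMap.proj i)

lemma socMap_apply (I J : Ideal (P n)) (hI : I ≤ (mm n) ^ 2) (s : Fin n → soc J) (g : P n) :
    (socMap I J hI s : Derivation ℂ (P n) (P n ⧸ J)) g = ∑ i, lin i g • (s i : P n ⧸ J) := by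
  unfold socMap
  rw [LinearMap.sum_apply, Submodule.coe_sum, ← Derivation.coeFnAddMonoidHom_apply, map_sum,
    Finset.sum_apply]
  rfl

lemma socMap_injective (I J : Ideal (P n)) (hI : I ≤ (mm n) ^ 2) :
    Function.Injective (socMap I J hI) := by
  classical
  intro s t h
  funext j
  apply Subtype.ext
  have h1 := congrArg (fun D : VV I J => (D : Derivation ℂ (P n) (P n ⧸ J)) (MvPowerSeries.X j)) h
  simp only [socMap_apply] at h1
  have h2 : ∀ u : Fin n → soc J, ∑ i, lin i (MvPowerSeries.X j : P n) • (u i : P n ⧸ J) = u j := by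
    intro u
    rw [Finset.sum_eq_single j]
    · rw [lin_X, if_pos rfl, one_smul]
    · intro i _ hi
      rw [lin_X, if_neg hi, zero_smul]
    · intro hj; exact absurd (Finset.mem_univ _) hj
  rw [h2, h2] at h1
  exact h1

/-- the first lower bound -/
lemma bound_one (I J : Ideal (P n)) (hI : I ≤ (mm n) ^ 2) {k : ℕ} (hk : (mm n) ^ k ≤ J) :
    n * Module.finrank ℂ (soc J) ≤ Module.finrank ℂ (VV I J) := by
  have h1 := finite_VV I hk
  have h2 := finite_A hk
  have h3 : Module.Finite ℂ (soc J) :=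
    Module.Finite.of_injective ((soc J).subtype.restrictScalars ℂ) (Submodule.subtype_injective _)
  have h := LinearMap.finrank_le_finrank_of_injective (socMap_injective I J hI)
  rwa [Module.finrank_pi_fintype, Finset.sum_const, Finset.card_univ, Fintype.card_fin,
    smul_eq_mul] at h

end Pool.Agent.W_MP_90188c_ag
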