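import Pool.Agent.W_MP_90188c_ag.NumB

set_option autoImplicit false

namespace Pool.Agent.W_MP_90188c_ag

open MvPowerSeries

variable {n : ℕ}

lemma pderiv_mem_pow (D : Derivation ℂ (P n) (P n)) :
    ∀ (j : ℕ) (g : P n), g ∈ (mm n) ^ (j + 1) → D g ∈ (mm n) ^ j := by
  intro j
  induction j with
  | zero => intro g _; simp
  | succ j ih =>
    intro g hg
    rw [pow_succ] at hg
    induction hg using Submodule.mul_induction_on' with
    | mem_mul_mem a ha b hb =>
      rw [D.leibniz, smul_eq_mul, smul_eq_mul]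
      refine Ideal.add_mem _ (Ideal.mul_mem_right _ _ ha) ?_
      rw [pow_succ']
      exact Ideal.mul_mem_mul hb (ih a ha)
    | add x _ y _ hx hy =>
      rw [map_add]
      exact Ideal.add_mem _ hx hy

lemma mul_pderiv_mem (D : Derivation ℂ (P n) (P n)) (ν : ℕ) (g : P n) (hg : g ∈ (mm n) ^ ν)
    (x : P n) (hx : x ∈ mm n) : x * D g ∈ (mm n) ^ ν := by
  cases ν with
  | zero => simp
  | succ j =>
    rw [pow_succ']
    exact Ideal.mul_mem_mul hx (pderiv_mem_pow D j g hg)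

/-- the elements of `P/J` killed by the `ν`-th power of the ideal of the variables -/
def lev (J : Ideal (P n)) (ν : ℕ) : Submodule (P n) (P n ⧸ J) where
  carrier := {s | ∀ x ∈ (mm n) ^ ν, x • s = 0}
  zero_mem' := fun x _ => smul_zero x
  add_mem' := by
    intro a b ha hb x hx
    rw [smul_add, ha x hx, hb x hx, add_zero]
  smul_mem' := by
    intro c a ha x hx
    rw [smul_comm, ha x hx, smul_zero]

/-- the derivation `g ↦ ∑ ∂_j g u_j` -/
noncomputable def Eu (J : Ideal (P n)) (u : Fin n → P n ⧸ J) :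
    Derivation ℂ (P n) (P n ⧸ J) :=
  ∑ j, (LinearMap.toSpanSingleton (P n) (P n ⧸ J) (u j)).compDer (pderiv ℂ j)

lemma Eu_apply (J : Ideal (P n)) (u : Fin n → P n ⧸ J) (g : P n) :
    Eu J u g = ∑ j, pderiv ℂ j g • u j := by
  unfold Eu
  rw [← Derivation.coeFnAddMonoidHom_apply, map_sum, Finset.sum_apply]
  rfl

lemma Eu_X (J : Ideal (P n)) (u : Fin n → P n ⧸ J) (i : Fin n) :
    Eu J u (MvPowerSeries.X i) = u i := by
  classical
  rw [Eu_apply, Finset.sum_eq_single i]
  · rw [pderiv_X_self, one_smul]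
  · intro j _ hj
    rw [pderiv_X_of_ne (Ne.symm hj), zero_smul]
  · intro h; exact absurd (Finset.mem_univ _) h

lemma Eu_kill (J : Ideal (P n)) (ν : ℕ) (u : Fin n → lev J ν) (g : P n)
    (hg : g ∈ (mm n) ^ (ν + 1)) : Eu J (fun j => (u j : P n ⧸ J)) g = 0 := by
  rw [Eu_apply]
  apply Finset.sum_eq_zero
  intro j _
  exact (u j).2 _ (pderiv_mem_pow _ ν g hg)

lemma Eu_soc (J : Ideal (P n)) (ν : ℕ) (u : Fin n → lev J ν) (g : P n)
    (hg : g ∈ (mm n) ^ ν) : Eu J (fun j => (u j : P n ⧸ J)) g ∈ soc J := by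
  rw [Eu_apply]
  apply Submodule.sum_mem
  intro j _ x hx
  rw [← mul_smul]
  exact (u j).2 _ (mul_pderiv_mem _ ν g hg x hx)

/-- values of `Eu` at `r` elements of `(X)^ν` -/
noncomputable def PsiG (J : Ideal (P n)) (ν : ℕ) {r : ℕ} (G : Fin r → P n)
    (hG : ∀ i, G i ∈ (mm n) ^ ν) : (Fin n → lev J ν) →ₗ[ℂ] (Fin r → soc J) where
  toFun u i := ⟨Eu J (fun j => (u j : P n ⧸ J)) (G i), Eu_soc J ν u _ (hG i)⟩
  map_add' u v := by
    funext i
    apply Subtype.ext
    change Eu J _ (G i) = Eu J _ (G i) + Eu J _ (G i)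
    rw [Eu_apply, Eu_apply, Eu_apply, ← Finset.sum_add_distrib]
    refine Finset.sum_congr rfl fun j _ => ?_
    change pderiv ℂ j (G i) • ((u j : P n ⧸ J) + v j) = _
    rw [smul_add]
  map_smul' c u := by
    funext i
    apply Subtype.ext
    change Eu J _ (G i) = c • Eu J _ (G i)
    rw [Eu_apply, Eu_apply, Finset.smul_sum]
    refine Finset.sum_congr rfl fun j _ => ?_
    change pderiv ℂ j (G i) • (c • (u j : P n ⧸ J)) = _
    rw [smul_comm]

lemma PsiG_apply (J : Ideal (P n)) (ν : ℕ) {r : ℕ} (G : Fin r → P n)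
    (hG : ∀ i, G i ∈ (mm n) ^ ν) (u : Fin n → lev J ν) (i : Fin r) :
    (PsiG J ν G hG u i : P n ⧸ J) = Eu J (fun j => (u j : P n ⧸ J)) (G i) := rfl

/-- the kernel of `PsiG` consists of derivations killing `I` -/
noncomputable def kerMap (I J : Ideal (P n)) (ν : ℕ) {r : ℕ} (G : Fin r → P n)
    (hG : ∀ i, G i ∈ (mm n) ^ ν)
    (hspan : ∀ g ∈ I, ∃ c : Fin r → ℂ, g - ∑ i, c i • G i ∈ (mm n) ^ (ν + 1)) :
    LinearMap.ker (PsiG J ν G hG) →ₗ[ℂ] VV I J where
  toFun u := ⟨Eu J (fun j => (u.1 j : P n ⧸ J)), by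
    intro g hg
    obtain ⟨c, hc⟩ := hspan g hg
    have h1 := Eu_kill J ν u.1 _ hc
    have h2 : Eu J (fun j => (u.1 j : P n ⧸ J)) (∑ i, c i • G i) = 0 := by
      rw [map_sum]
      apply Finset.sum_eq_zero
      intro i _
      rw [Derivation.map_smul]
      have h3 : PsiG J ν G hG u.1 = 0 := u.2
      have h4 := congrArg Subtype.val (congrFun h3 i)
      rw [PsiG_apply] at h4
      rw [h4]
      exact smul_zero _
    rw [map_sub, h2, sub_zero] at h1
    exact h1⟩
  map_add' u v := by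
    apply Subtype.ext
    ext g
    change Eu J _ g = Eu J _ g + Eu J _ g
    rw [Eu_apply, Eu_apply, Eu_apply, ← Finset.sum_add_distrib]
    refine Finset.sum_congr rfl fun j _ => ?_
    change pderiv ℂ j g • ((u.1 j : P n ⧸ J) + v.1 j) = _
    rw [smul_add]
  map_smul' c u := by
    apply Subtype.ext
    ext g
    change Eu J _ g = c • Eu J _ g
    rw [Eu_apply, Eu_apply, Finset.smul_sum]
    refine Finset.sum_congr rfl fun j _ => ?_
    change pderiv ℂ j g • (c • (u.1 j : P n ⧸ J)) = _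
    rw [smul_comm]

lemma kerMap_injective (I J : Ideal (P n)) (ν : ℕ) {r : ℕ} (G : Fin r → P n)
    (hG : ∀ i, G i ∈ (mm n) ^ ν)
    (hspan : ∀ g ∈ I, ∃ c : Fin r → ℂ, g - ∑ i, c i • G i ∈ (mm n) ^ (ν + 1)) :
    Function.Injective (kerMap I J ν G hG hspan) := by
  intro u v h
  apply Subtype.ext
  funext i
  apply Subtype.ext
  have h1 := congrArg (fun D : VV I J => (D : Derivation ℂ (P n) (P n ⧸ J)) (MvPowerSeries.X i)) h
  change Eu J _ (MvPowerSeries.X i) = Eu J _ (MvPowerSeries.X i) at h1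
  rw [Eu_X, Eu_X] at h1
  exact h1

lemma finite_sub {J : Ideal (P n)} {k : ℕ} (hk : (mm n) ^ k ≤ J)
    (N : Submodule (P n) (P n ⧸ J)) : Module.Finite ℂ N := by
  have h2 := finite_A hk
  exact Module.Finite.of_injective (N.subtype.restrictScalars ℂ) (Submodule.subtype_injective _)

/-- the lower bound at level `ν` -/
lemma bound_level (I J : Ideal (P n)) {k : ℕ} (hk : (mm n) ^ k ≤ J) (ν : ℕ) {r : ℕ}
    (G : Fin r → P n) (hG : ∀ i, G i ∈ (mm n) ^ ν)
    (hspan : ∀ g ∈ I, ∃ c : Fin r → ℂ, g - ∑ i, c i • G i ∈ (mm n) ^ (ν + 1)) :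
    n * Module.finrank ℂ (lev J ν) ≤
      Module.finrank ℂ (VV I J) + r * Module.finrank ℂ (soc J) := by
  have h1 := finite_VV I hk
  have h2 := finite_sub hk (soc J)
  have h3 := finite_sub hk (lev J ν)
  have h4 := LinearMap.finrank_le_finrank_of_injective (kerMap_injective I J ν G hG hspan)
  have h5 := LinearMap.finrank_range_add_finrank_ker (PsiG J ν G hG)
  have h6 : Module.finrank ℂ (LinearMap.range (PsiG J ν G hG)) ≤
      Module.finrank ℂ (Fin r → soc J) := Submodule.finrank_le _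
  rw [Module.finrank_pi_fintype, Finset.sum_const, Finset.card_univ, Fintype.card_fin,
    smul_eq_mul] at h5 h6
  omega

end Pool.Agent.W_MP_90188c_ag
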