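import Pool.Agent.W_MP_90188c_ag.NumC

set_option autoImplicit false

namespace Pool.Agent.W_MP_90188c_ag

open MvPowerSeries

variable {n : ℕ}

/-- the quadratic coefficients of a power series -/
noncomputable def qc : P n →ₗ[ℂ] (Sym2 (Fin n) → ℂ) :=
  LinearMap.pi fun p => coeff (Sym2.lift (β := Fin n →₀ ℕ)
    ⟨fun i j => Finsupp.single i 1 + Finsupp.single j 1, fun i j => add_comm _ _⟩ p)

lemma qc_apply (g : P n) (i j : Fin n) :
    qc g s(i, j) = coeff (Finsupp.single i 1 + Finsupp.single j 1) g := rfl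

lemma exists_double (d : Fin n →₀ ℕ) (hd : d.degree = 2) :
    ∃ i j, d = Finsupp.single i 1 + Finsupp.single j 1 := by
  have hne : d ≠ 0 := by
    rintro rfl; simp at hd
  obtain ⟨i, hi⟩ := Finsupp.support_nonempty_iff.mpr hne
  have hi' : d i ≠ 0 := by simpa using hi
  have hle : Finsupp.single i 1 ≤ d := by
    rw [Finsupp.single_le_iff]; omega
  have h1 : d - Finsupp.single i 1 + Finsupp.single i 1 = d := tsub_add_cancel_of_le hle
  have h2 := congrArg Finsupp.degree h1
  rw [map_add, Finsupp.degree_single, hd] at h2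
  have h3 : (d - Finsupp.single i 1).degree = 1 := by omega
  obtain ⟨j, hj⟩ := exists_single _ h3
  exact ⟨j, i, by rw [← hj, h1]⟩

lemma mem_cube_of_qc (g : P n) (hg : g ∈ (mm n) ^ 2) (h : qc g = 0) : g ∈ (mm n) ^ 3 := by
  apply mem_mm_pow
  intro d hd
  have h0 : constantCoeff g = 0 := (mem_mm_iff g).mp (Ideal.pow_le_self two_ne_zero hg)
  rcases (by omega : d.degree = 0 ∨ d.degree = 1 ∨ d.degree = 2) with h1 | h1 | h1
  · have : d = 0 := (Finsupp.degree_eq_zero_iff d).mp h1
    subst this
    simpa using h0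
  · obtain ⟨i, rfl⟩ := exists_single d h1
    exact (PD_lin i).sq hg
  · obtain ⟨i, j, rfl⟩ := exists_double d h1
    rw [← qc_apply, h]
    rfl

lemma qc_surj (w : Sym2 (Fin n) → ℂ) : ∃ z ∈ (mm n) ^ 2, qc z = w := by
  classical
  have hmon : ∀ p : Sym2 (Fin n), ∃ z ∈ (mm n) ^ 2, qc z = Pi.single p (1 : ℂ) := by
    intro p
    induction p using Sym2.inductionOn with
    | _ i j =>
      refine ⟨MvPowerSeries.X i * MvPowerSeries.X j, ?_, ?_⟩
      · rw [pow_two]
        exact Ideal.mul_mem_mul (X_mem_mm i) (X_mem_mm j)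
      · funext q
        induction q using Sym2.inductionOn with
        | _ a b =>
          rw [qc_apply, MvPowerSeries.X, MvPowerSeries.X, monomial_mul_monomial, coeff_monomial,
            Pi.single_apply, mul_one]
          congr 1
          rw [eq_iff_iff]
          constructor
          · intro h
            rw [Sym2.eq_iff]
            have ha := congrArg (fun d : Fin n →₀ ℕ => d a) h
            have hb := congrArg (fun d : Fin n →₀ ℕ => d b) h
            have hi := congrArg (fun d : Fin n →₀ ℕ => d i) h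
            have hj := congrArg (fun d : Fin n →₀ ℕ => d j) h
            simp only [Finsupp.add_apply, Finsupp.single_apply] at ha hb hi hj
            by_cases hai : a = i
            · subst hai
              by_cases hbj : b = j
              · exact Or.inl ⟨rfl, hbj⟩
              · by_cases hba : b = a
                · subst hba
                  rw [if_pos rfl, if_neg (Ne.symm hbj)] at hb
                  exact absurd hb (by norm_num)
                · simp [hba, hbj, Ne.symm hba, Ne.symm hbj] at hb hj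
            · by_cases haj : a = j
              · subst haj
                by_cases hbi : b = i
                · exact Or.inr ⟨rfl, hbi⟩
                · simp [Ne.symm hai, hai, hbi, Ne.symm hbi] at hi
              · simp [hai, haj, Ne.symm hai, Ne.symm haj] at ha
          · intro h
            rw [Sym2.eq_iff] at h
            rcases h with ⟨rfl, rfl⟩ | ⟨rfl, rfl⟩
            · rfl
            · exact add_comm _ _
  choose z hz hzq using hmon
  refine ⟨∑ p, w p • z p, ?_, ?_⟩
  · apply Ideal.sum_mem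
    intro p _
    rw [Algebra.smul_def]
    exact Ideal.mul_mem_left _ _ (hz p)
  · rw [map_sum]
    funext q
    rw [Finset.sum_apply, Finset.sum_eq_single q]
    · rw [map_smul, hzq, Pi.smul_apply, Pi.single_eq_same, smul_eq_mul, mul_one]
    · intro p _ hp
      rw [map_smul, hzq, Pi.smul_apply, Pi.single_eq_of_ne (Ne.symm hp), smul_zero]
    · intro h; exact absurd (Finset.mem_univ _) h

/-- the square of the maximal ideal of `P/I` is not principal -/
lemma sq_not_principal (hn : 2 ≤ n) (I : Ideal (P n)) (hI2 : I ≤ (mm n) ^ 2) (hI : I ≠ ⊤)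
    (f : P n) (hf0 : constantCoeff f = 0) (hreg : ∀ g, f * g ∈ I → g ∈ I) (z : P n)
    (hz : z ∈ (mm n) ^ 2) (h : (mm n) ^ 2 ≤ Ideal.span {z} ⊔ I) : False := by
  have hfm : f ∈ mm n := (mem_mm_iff f).mpr hf0
  have hff : f * f ∈ (mm n) ^ 2 := by
    rw [pow_two]
    exact Ideal.mul_mem_mul hfm hfm
  have hff' : ∀ v, f * f * v ∈ I → v ∈ I := by
    intro v hv
    apply hreg
    apply hreg
    rw [← mul_assoc]
    exact hv
  -- a unit multiple of `z` is a product
  have h1 : ∃ a ∈ mm n, ∃ b ∈ mm n, ∃ c, c ∉ mm n ∧ a * b - c * z ∈ I := by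
    by_contra hcon
    push Not at hcon
    have h2 : (mm n) ^ 2 ≤ mm n * Ideal.span {z} ⊔ I := by
      rw [pow_two, Ideal.mul_le]
      intro a ha b hb
      have h3 : a * b ∈ Ideal.span {z} ⊔ I := h (by
        rw [pow_two]
        exact Ideal.mul_mem_mul ha hb)
      rw [Submodule.mem_sup] at h3
      obtain ⟨y, hy, i, hi, hyi⟩ := h3
      obtain ⟨c, rfl⟩ := Ideal.mem_span_singleton'.mp hy
      have h4 : c ∈ mm n := by
        by_contra hc
        apply hcon a ha b hb c hc
        rw [← hyi]
        have : c * z + i - c * z = i := by ring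
        rw [this]
        exact hi
      rw [← hyi]
      exact Submodule.add_mem_sup
        (Ideal.mul_mem_mul h4 (Ideal.mem_span_singleton_self z)) hi
    have h3 := h2 hz
    rw [Submodule.mem_sup] at h3
    obtain ⟨y, hy, i, hi, hyi⟩ := h3
    rw [mul_comm, Ideal.mem_span_singleton_mul] at hy
    obtain ⟨c, hc, rfl⟩ := hy
    have h4 : IsUnit (1 - c) := by
      rw [MvPowerSeries.isUnit_iff_constantCoeff, map_sub, map_one, (mem_mm_iff c).mp hc, sub_zero]
      exact isUnit_one
    have h5 : (1 - c) * z ∈ I := by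
      have : (1 - c) * z = i := by
        linear_combination -hyi
      rw [this]
      exact hi
    have hzI : z ∈ I := by
      obtain ⟨u, hu⟩ := h4
      rw [← hu] at h5
      have := I.mul_mem_left (↑u⁻¹ : P n) h5
      rwa [← mul_assoc, Units.inv_mul, one_mul] at this
    have h6 : (mm n) ^ 2 ≤ I := by
      refine h.trans (sup_le ?_ le_rfl)
      rw [Ideal.span_singleton_le_iff_mem]
      exact hzI
    have h7 := hff' 1 (by rw [mul_one]; exact h6 hff)
    exact hI ((Ideal.eq_top_iff_one I).mpr h7)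
  obtain ⟨a, ha, b, hb, c, hc, habc⟩ := h1
  have hcu : IsUnit c := by
    rw [mm_eq_maximal, IsLocalRing.mem_maximalIdeal, mem_nonunits_iff, not_not] at hc
    exact hc
  obtain ⟨u, hu⟩ := hcu
  -- `(X)^2 ≤ (a b) + I`
  have h2 : ∀ x ∈ (mm n) ^ 2, ∃ y, x - y * (a * b) ∈ I := by
    intro x hx
    have h3 := h hx
    rw [Submodule.mem_sup] at h3
    obtain ⟨y, hy, i, hi, hyi⟩ := h3
    obtain ⟨d, rfl⟩ := Ideal.mem_span_singleton'.mp hy
    refine ⟨d * (↑u⁻¹ : P n), ?_⟩
    have h4 := I.sub_mem hi (I.mul_mem_left (d * (↑u⁻¹ : P n)) habc)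
    have h5 : (↑u⁻¹ : P n) * c = 1 := by rw [← hu, Units.inv_mul]
    convert h4 using 1
    rw [← hyi]
    linear_combination -(d * z) * h5
  -- `b` is a nonzerodivisor
  have hbreg : ∀ v, b * v ∈ I → v ∈ I := by
    intro v hv
    obtain ⟨y, hy⟩ := h2 _ hff
    apply hff'
    have h3 := I.add_mem (I.mul_mem_right v hy) (I.mul_mem_left (y * a) hv)
    convert h3 using 1
    ring
  -- `(X) ≤ (a) + I`
  have h3 : ∀ x ∈ mm n, ∃ y, x - y * a ∈ I := by
    intro x hx
    obtain ⟨y, hy⟩ := h2 (x * b) (by
      rw [pow_two]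
      exact Ideal.mul_mem_mul hx hb)
    refine ⟨y, hbreg _ ?_⟩
    convert hy using 1
    ring
  have h4 : ∀ i j : Fin n, ∃ y : ℂ, (∀ l : Fin n, (if l = i then (1 : ℂ) else 0) = y * lin l a) ∧
      (∀ l : Fin n, (if l = i then (1 : ℂ) else 0) = y * lin l a) := by
    intro i j
    obtain ⟨y, hy⟩ := h3 _ (X_mem_mm i)
    have h5 : ∀ l : Fin n, (if l = i then (1 : ℂ) else 0) = constantCoeff y * lin l a := by
      intro l
      have h6 := (PD_lin l).sq (hI2 hy)
      rw [map_sub, lin_X, lin_mul, (mem_mm_iff a).mp ha, zero_mul, add_zero, sub_eq_zero] at h6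
      exact h6
    exact ⟨constantCoeff y, h5, h5⟩
  set i : Fin n := ⟨0, by omega⟩ with hi
  set j : Fin n := ⟨1, by omega⟩ with hj
  have hij : i ≠ j := by
    rw [hi, hj, ne_eq, Fin.mk.injEq]
    omega
  obtain ⟨y, hy, _⟩ := h4 i j
  obtain ⟨y', hy', _⟩ := h4 j i
  have e1 := hy i
  have e2 := hy j
  have e3 := hy' j
  rw [if_pos rfl] at e1 e3
  rw [if_neg (Ne.symm hij)] at e2
  have hy0 : y ≠ 0 := by
    rintro rfl
    rw [zero_mul] at e1
    exact one_ne_zero e1
  have h5 : lin j a = 0 := by
    rcases mul_eq_zero.mp e2.symm with h6 | h6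
    · exact absurd h6 hy0
    · exact h6
  rw [h5, mul_zero] at e3
  exact one_ne_zero e3

lemma mm_pow_fg (k : ℕ) : ((mm n) ^ k).FG := IsNoetherian.noetherian _

/-- the quadratic forms of `I` have codimension at least two -/
lemma quad_codim (hn : 2 ≤ n) (I : Ideal (P n)) (hI2 : I ≤ (mm n) ^ 2) (hI : I ≠ ⊤)
    (f : P n) (hf0 : constantCoeff f = 0) (hreg : ∀ g, f * g ∈ I → g ∈ I) :
    Module.finrank ℂ (Submodule.map (qc (n := n)) (I.restrictScalars ℂ)) + 2 ≤
      (n + 1).choose 2 := by
  classical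
  by_contra hcon
  push Not at hcon
  set C := Submodule.map (qc (n := n)) (I.restrictScalars ℂ) with hC
  have hcard : Module.finrank ℂ (Sym2 (Fin n) → ℂ) = (n + 1).choose 2 := by
    rw [Module.finrank_fintype_fun_eq_card, Sym2.card, Fintype.card_fin]
  have h1 := Submodule.finrank_quotient_add_finrank C
  rw [hcard] at h1
  have h2 : Module.finrank ℂ ((Sym2 (Fin n) → ℂ) ⧸ C) ≤ 1 := by omega
  rw [finrank_le_one_iff] at h2
  obtain ⟨v, hv⟩ := h2
  obtain ⟨w0, rfl⟩ := Submodule.Quotient.mk_surjective _ v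
  obtain ⟨z, hz, hzw⟩ := qc_surj w0
  apply sq_not_principal hn I hI2 hI f hf0 hreg z hz
  apply Submodule.le_of_le_smul_of_le_jacobson_bot (I := mm n) (mm_pow_fg 2)
  · rw [mm_eq_maximal]
    exact IsLocalRing.maximalIdeal_le_jacobson _
  · intro h hh
    obtain ⟨c, hc⟩ := hv (Submodule.Quotient.mk (qc h))
    rw [← Submodule.Quotient.mk_smul, Submodule.Quotient.eq] at hc
    obtain ⟨g, hg, hgq⟩ := hc
    have hg' : g ∈ I := hg
    have h3 : h - c • z + g ∈ (mm n) ^ 3 := by
      apply mem_cube_of_qc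
      · refine Ideal.add_mem _ (Ideal.sub_mem _ hh ?_) (hI2 hg')
        rw [Algebra.smul_def]
        exact Ideal.mul_mem_left _ _ hz
      · rw [map_add, map_sub, map_smul, hzw, hgq]
        abel
    have h4 : h = (c • z - g) + (h - c • z + g) := by abel
    rw [h4]
    apply Submodule.add_mem_sup
    · apply Submodule.sub_mem
      · apply Submodule.mem_sup_left
        rw [Algebra.smul_def]
        exact Ideal.mul_mem_left _ _ (Ideal.mem_span_singleton_self z)
      · exact Submodule.mem_sup_right hg'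
    · rw [smul_eq_mul, ← pow_succ']
      exact h3

end Pool.Agent.W_MP_90188c_ag
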