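import Pool.Agent.W_MP_90188c_ag.NumD
import Pool.Agent.W_MP_90188c_ag.Final

set_option autoImplicit false

namespace Pool.Agent.W_MP_90188c_ag

open MvPowerSeries

variable {n : ℕ}

/-- every nonzero element has a nonzero multiple in the socle -/
lemma exists_mul_soc (J : Ideal (P n)) (k : ℕ) (hk : (mm n) ^ k ≤ J) (a : P n ⧸ J) (ha : a ≠ 0) :
    ∃ g : P n, g • a ∈ soc J ∧ g • a ≠ 0 := by
  classical
  have hex : ∃ j, ∀ g ∈ (mm n) ^ j, g • a = 0 := ⟨k, fun g hg => A_kill hk g hg a⟩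
  have h1 := Nat.find_spec hex
  have h0 : Nat.find hex ≠ 0 := by
    intro h0
    rw [h0] at h1
    apply ha
    have := h1 1 (by simp)
    rwa [one_smul] at this
  obtain ⟨m, hm⟩ := Nat.exists_eq_succ_of_ne_zero h0
  have h2 := Nat.find_min hex (m := m) (by omega)
  push Not at h2
  obtain ⟨g, hg, hga⟩ := h2
  refine ⟨g, ?_, hga⟩
  intro x hx
  rw [← mul_smul]
  apply h1
  rw [hm, Nat.succ_eq_add_one, pow_succ']
  exact Ideal.mul_mem_mul hx hg

/-- the form `c · constant term + ∑ v_i · linear coefficients` -/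
noncomputable def lcv (q : ℂ × (Fin n → ℂ)) : P n →ₗ[ℂ] ℂ :=
  q.1 • (coeff (0 : Fin n →₀ ℕ)) + ∑ i, q.2 i • lin i

lemma lcv_apply (q : ℂ × (Fin n → ℂ)) (g : P n) :
    lcv q g = q.1 * constantCoeff g + ∑ i, q.2 i * lin i g := by
  unfold lcv
  rw [LinearMap.add_apply, LinearMap.smul_apply, LinearMap.sum_apply]
  rfl

lemma lcv_add (q q' : ℂ × (Fin n → ℂ)) (g : P n) : lcv (q + q') g = lcv q g + lcv q' g := by
  rw [lcv_apply, lcv_apply, lcv_apply, Prod.fst_add, Prod.snd_add]
  simp only [Pi.add_apply, add_mul, Finset.sum_add_distrib]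
  ring

lemma lcv_smul (c : ℂ) (q : ℂ × (Fin n → ℂ)) (g : P n) : lcv (c • q) g = c * lcv q g := by
  rw [lcv_apply, lcv_apply, Prod.smul_fst, Prod.smul_snd]
  simp only [Pi.smul_apply, smul_eq_mul, mul_add, mul_assoc, Finset.mul_sum]

lemma lcv_sq (q : ℂ × (Fin n → ℂ)) (g : P n) (hg : g ∈ (mm n) ^ 2) : lcv q g = 0 := by
  rw [lcv_apply, (mem_mm_iff g).mp (Ideal.pow_le_self two_ne_zero hg)]
  rw [Finset.sum_eq_zero (fun i _ => by rw [(PD_lin i).sq hg, mul_zero])]
  ring

/-- the linear condition `∑ v_i lin_i f = 0` -/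
noncomputable def kap (f : P n) : (ℂ × (Fin n → ℂ)) →ₗ[ℂ] ℂ where
  toFun q := ∑ i, q.2 i * lin i f
  map_add' q q' := by
    rw [← Finset.sum_add_distrib]
    exact Finset.sum_congr rfl fun i _ => add_mul _ _ _
  map_smul' c q := by
    rw [RingHom.id_apply, smul_eq_mul, Finset.mul_sum]
    exact Finset.sum_congr rfl fun i _ => mul_assoc _ _ _

lemma lcv_vanish (I : Ideal (P n)) (hI : I ≤ (mm n) ^ 2) (f : P n)
    (hf0 : constantCoeff f = 0) (q : LinearMap.ker (kap f)) :
    ∀ g ∈ I ⊔ Ideal.span {f}, lcv q.1 g = 0 := by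
  intro g hg
  rw [Submodule.mem_sup] at hg
  obtain ⟨a, ha, b, hb, rfl⟩ := hg
  obtain ⟨y, rfl⟩ := Ideal.mem_span_singleton'.mp hb
  rw [map_add, lcv_sq _ _ (hI ha), lcv_apply, map_mul, hf0, zero_add, mul_zero, mul_zero, zero_add]
  have h1 : ∑ i, q.1.2 i * lin i f = 0 := q.2
  have h2 : ∀ i, q.1.2 i * lin i (y * f) = constantCoeff y * (q.1.2 i * lin i f) := by
    intro i
    rw [lin_mul, hf0]
    ring
  rw [Finset.sum_congr rfl (fun i _ => h2 i), ← Finset.mul_sum, h1, mul_zero]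

lemma finrank_ker_kap (f : P n) : n ≤ Module.finrank ℂ (LinearMap.ker (kap f)) := by
  have h1 := LinearMap.finrank_range_add_finrank_ker (kap f)
  have h2 : Module.finrank ℂ (LinearMap.range (kap f)) ≤ Module.finrank ℂ ℂ :=
    Submodule.finrank_le _
  rw [Module.finrank_prod, Module.finrank_self, Module.finrank_fintype_fun_eq_card,
    Fintype.card_fin] at h1
  rw [Module.finrank_self] at h2
  omega

/-- if the socle is one-dimensional, at least `n` independent elements are killed by the square of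
the ideal of the variables -/
lemma lev_two_ge (I : Ideal (P n)) (hI : I ≤ (mm n) ^ 2) (f : P n) (hf0 : constantCoeff f = 0)
    (k : ℕ) (hk : (mm n) ^ k ≤ I ⊔ Ideal.span {f})
    (ht : Module.finrank ℂ (soc (I ⊔ Ideal.span {f})) = 1) :
    n ≤ Module.finrank ℂ (lev (I ⊔ Ideal.span {f}) 2) := by
  classical
  set J := I ⊔ Ideal.span {f} with hJ
  have hA := finite_A hk
  have hlev := finite_sub hk (lev J 2)
  obtain ⟨s, hs0, hs⟩ := finrank_eq_one_iff'.mp ht
  have hs0' : (s : P n ⧸ J) ≠ 0 := fun h => hs0 (Subtype.ext h)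
  obtain ⟨lam, hlam⟩ := LinearMap.exists_leftInverse_of_injective
    (LinearMap.toSpanSingleton ℂ (P n ⧸ J) (s : P n ⧸ J)) (by
      rw [LinearMap.ker_eq_bot']
      intro c hc
      rw [LinearMap.toSpanSingleton_apply] at hc
      exact (smul_eq_zero.mp hc).resolve_right hs0')
  have hlam1 : lam (s : P n ⧸ J) = 1 := by
    have := LinearMap.congr_fun hlam 1
    simpa using this
  -- the pairing
  let θ : (P n ⧸ J) →ₗ[ℂ] Module.Dual ℂ (P n ⧸ J) :=
    (LinearMap.mul ℂ (P n ⧸ J)).compr₂ lam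
  have hθ : ∀ a b, θ a b = lam (a * b) := fun a b => rfl
  have hinj : Function.Injective θ := by
    rw [← LinearMap.ker_eq_bot, LinearMap.ker_eq_bot']
    intro a ha
    by_contra ha0
    obtain ⟨g, hg, hg0⟩ := exists_mul_soc J k hk a ha0
    obtain ⟨c, hc⟩ := hs ⟨g • a, hg⟩
    have hc' : c • (s : P n ⧸ J) = g • a := congrArg Subtype.val hc
    have h1 : lam (a * Ideal.Quotient.mk J g) = 0 := by
      rw [← hθ, ha]; rfl
    rw [mul_comm, mul_mk_smul, ← hc', map_smul, hlam1, smul_eq_mul, mul_one] at h1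
    rw [h1, zero_smul] at hc'
    exact hg0 hc'.symm
  have hsurj : Function.Surjective θ :=
    (LinearMap.injective_iff_surjective_of_finrank_eq_finrank
      (Subspace.dual_finrank_eq (K := ℂ) (V := P n ⧸ J)).symm).mp hinj
  let Θ := LinearEquiv.ofBijective θ ⟨hinj, hsurj⟩
  -- the functional on the quotient
  let T : LinearMap.ker (kap f) →ₗ[ℂ] Module.Dual ℂ (P n ⧸ J) :=
    { toFun := fun q => tl J (lcv q.1) (lcv_vanish I hI f hf0 q)
      map_add' := by
        intro q q'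
        refine LinearMap.ext fun a => ?_
        obtain ⟨g, rfl⟩ := Ideal.Quotient.mk_surjective a
        exact lcv_add q.1 q'.1 g
      map_smul' := by
        intro c q
        refine LinearMap.ext fun a => ?_
        obtain ⟨g, rfl⟩ := Ideal.Quotient.mk_surjective a
        exact lcv_smul c q.1 g }
  have hT : ∀ q g, T q (Ideal.Quotient.mk J g) = lcv q.1 g := fun q g => rfl
  let S : LinearMap.ker (kap f) →ₗ[ℂ] lev J 2 :=
    { toFun := fun q => ⟨Θ.symm (T q), by
        intro g hg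
        apply hinj
        rw [map_zero]
        ext a
        obtain ⟨y, rfl⟩ := Ideal.Quotient.mk_surjective a
        have e1 : (g • Θ.symm (T q)) * Ideal.Quotient.mk J y =
            Θ.symm (T q) * Ideal.Quotient.mk J (g * y) := by
          rw [map_mul, ← mul_mk_smul]
          ring
        rw [hθ, e1, ← hθ]
        have e2 : θ (Θ.symm (T q)) = T q := Θ.apply_symm_apply (T q)
        rw [e2, hT, lcv_sq _ _ (Ideal.mul_mem_right _ _ hg)]
        rfl⟩
      map_add' := by
        intro q q'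
        apply Subtype.ext
        change Θ.symm (T (q + q')) = Θ.symm (T q) + Θ.symm (T q')
        rw [map_add, map_add]
      map_smul' := by
        intro c q
        apply Subtype.ext
        change Θ.symm (T (c • q)) = c • Θ.symm (T q)
        rw [map_smul, map_smul] }
  have hS : Function.Injective S := by
    rw [← LinearMap.ker_eq_bot, LinearMap.ker_eq_bot']
    intro q hq
    have h1 : Θ.symm (T q) = 0 := congrArg Subtype.val hq
    have h2 : T q = 0 := by
      rw [← Θ.apply_symm_apply (T q), h1, map_zero]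
    apply Subtype.ext
    apply Prod.ext
    · have h3 := LinearMap.congr_fun h2 (Ideal.Quotient.mk J 1)
      rw [hT, lcv_apply, map_one, mul_one, Finset.sum_eq_zero (fun i _ => by
        rw [(PD_lin i).one, mul_zero]), add_zero] at h3
      exact h3
    · funext j
      have h3 := LinearMap.congr_fun h2 (Ideal.Quotient.mk J (MvPowerSeries.X j))
      rw [hT, lcv_apply, MvPowerSeries.constantCoeff_X, mul_zero, zero_add,
        Finset.sum_eq_single j] at h3
      · rw [lin_X, if_pos rfl, mul_one] at h3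
        exact h3
      · intro i _ hi
        rw [lin_X, if_neg hi, mul_zero]
      · intro h; exact absurd (Finset.mem_univ _) h
  exact (finrank_ker_kap f).trans (LinearMap.finrank_le_finrank_of_injective hS)

/-- `I` is generated modulo `(X)^3` by few elements -/
lemma exists_quadrics (hn : 2 ≤ n) (I : Ideal (P n)) (hI2 : I ≤ (mm n) ^ 2) (hI : I ≠ ⊤)
    (f : P n) (hf0 : constantCoeff f = 0) (hreg : ∀ g, f * g ∈ I → g ∈ I) :
    ∃ (r : ℕ) (G : Fin r → P n), r + 2 ≤ (n + 1).choose 2 ∧ (∀ i, G i ∈ I) ∧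
      ∀ g ∈ I, ∃ c : Fin r → ℂ, g - ∑ i, c i • G i ∈ (mm n) ^ (2 + 1) := by
  classical
  set C := Submodule.map (qc (n := n)) (I.restrictScalars ℂ) with hC
  have hr := quad_codim hn I hI2 hI f hf0 hreg
  let b := Module.finBasis ℂ C
  have hb : ∀ i, ∃ g ∈ I, qc g = (b i : Sym2 (Fin n) → ℂ) := by
    intro i
    obtain ⟨g, hg, hgq⟩ := (b i).2
    exact ⟨g, hg, hgq⟩
  choose G hGI hGq using hb
  refine ⟨_, G, hr, hGI, ?_⟩
  intro g hg
  have hgC : qc g ∈ C := ⟨g, hg, rfl⟩
  refine ⟨fun i => b.repr ⟨qc g, hgC⟩ i, ?_⟩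
  apply mem_cube_of_qc
  · refine Ideal.sub_mem _ (hI2 hg) ?_
    apply Ideal.sum_mem
    intro i _
    rw [Algebra.smul_def]
    exact Ideal.mul_mem_left _ _ (hI2 (hGI i))
  · have h1 := congrArg Subtype.val (b.sum_repr ⟨qc g, hgC⟩)
    rw [map_sub, map_sum, sub_eq_zero]
    rw [Submodule.coe_sum] at h1
    refine h1.symm.trans (Finset.sum_congr rfl fun i _ => ?_)
    rw [map_smul, hGq]
    rfl

/-- **Level criterion** -/
theorem level_criterion (I : Ideal (P n)) (hrad : I.IsRadical)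
    (hdim : ringKrullDim (P n ⧸ I) = 1)
    (f : P n) (hf0 : constantCoeff f = 0) (hreg : ∀ g, f * g ∈ I → g ∈ I) (ν r : ℕ)
    (G : Fin r → P n) (hG : ∀ i, G i ∈ (mm n) ^ ν)
    (hspan : ∀ g ∈ I, ∃ c : Fin r → ℂ, g - ∑ i, c i • G i ∈ (mm n) ^ (ν + 1))
    (h : Module.finrank ℂ (P n ⧸ (I ⊔ Ideal.span {f})) +
      r * Module.finrank ℂ (soc (I ⊔ Ideal.span {f})) <
      n * Module.finrank ℂ (lev (I ⊔ Ideal.span {f}) ν)) : ¬ Rig I := by
  intro hrig
  obtain ⟨_, _, k, hk⟩ := artin_facts I hdim f hf0 hreg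
  have h1 := master_finrank I hrad hdim f hf0 hreg hrig
  have h2 := bound_level I (I ⊔ Ideal.span {f}) hk ν G hG hspan
  omega

/-- **Bound in terms of the type** -/
theorem type_bound (I : Ideal (P n)) (hI2 : I ≤ (mm n) ^ 2)
    (hrad : I.IsRadical) (hdim : ringKrullDim (P n ⧸ I) = 1)
    (f : P n) (hf0 : constantCoeff f = 0) (hreg : ∀ g, f * g ∈ I → g ∈ I)
    (hrig : Rig I) :
    n * Module.finrank ℂ (soc (I ⊔ Ideal.span {f})) ≤
      Module.finrank ℂ (P n ⧸ (I ⊔ Ideal.span {f})) := by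
  obtain ⟨_, _, k, hk⟩ := artin_facts I hdim f hf0 hreg
  exact (bound_one I _ hI2 hk).trans (master_finrank I hrad hdim f hf0 hreg hrig)

/-- **Bound in the case of one-dimensional socle** -/
theorem gorenstein_bound (hn : 2 ≤ n) (I : Ideal (P n)) (hI2 : I ≤ (mm n) ^ 2)
    (hrad : I.IsRadical) (hdim : ringKrullDim (P n ⧸ I) = 1)
    (f : P n) (hf0 : constantCoeff f = 0) (hreg : ∀ g, f * g ∈ I → g ∈ I)
    (hrig : Rig I) (ht : Module.finrank ℂ (soc (I ⊔ Ideal.span {f})) = 1) :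
    n * (n - 1) + 4 ≤ 2 * Module.finrank ℂ (P n ⧸ (I ⊔ Ideal.span {f})) := by
  obtain ⟨_, hI, k, hk⟩ := artin_facts I hdim f hf0 hreg
  have h1 := master_finrank I hrad hdim f hf0 hreg hrig
  have h2 := lev_two_ge I hI2 f hf0 k hk ht
  obtain ⟨r, G, hr, hGI, hspan⟩ := exists_quadrics hn I hI2 hI f hf0 hreg
  have h3 := bound_level I (I ⊔ Ideal.span {f}) hk 2 G (fun i => hI2 (hGI i)) hspan
  rw [ht, mul_one] at h3
  have h4 : n * n ≤ n * Module.finrank ℂ (lev (I ⊔ Ideal.span {f}) 2) := Nat.mul_le_mul_left n h2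
  have h5 : (n + 1).choose 2 * 2 = (n + 1) * n := by
    rw [Nat.choose_two_right, Nat.add_sub_cancel]
    exact Nat.div_mul_cancel (Nat.even_mul_pred_self (n + 1)).two_dvd
  obtain ⟨m, rfl⟩ : ∃ m, n = m + 1 := ⟨n - 1, by omega⟩
  rw [Nat.add_sub_cancel]
  nlinarith

end Pool.Agent.W_MP_90188c_ag
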