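import Pool.Agent.W_MP_90188c_ag.NumE

set_option autoImplicit false

namespace Pool.Agent.W_MP_90188c_ag

open MvPowerSeries

variable {n : ℕ}

/-- the image of the `j`-th power of the ideal of the variables in `P/J` -/
@[irreducible] noncomputable def mA (J : Ideal (P n)) (j : ℕ) : Submodule (P n) (P n ⧸ J) :=
  (mm n) ^ j • (⊤ : Submodule (P n) (P n ⧸ J))

lemma mA_def (J : Ideal (P n)) (j : ℕ) :
    mA J j = (mm n) ^ j • (⊤ : Submodule (P n) (P n ⧸ J)) := by
  unfold mA
  rfl

lemma smul_mA (J : Ideal (P n)) (i j l : ℕ) (hl : l = i + j) (x : P n) (hx : x ∈ (mm n) ^ i)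
    (b : P n ⧸ J) (hb : b ∈ mA J j) : x • b ∈ mA J l := by
  have h : mA J l = (mm n) ^ i • mA J j := by
    rw [mA_def, mA_def, hl, pow_add, Submodule.mul_smul]
  rw [h]
  exact Submodule.smul_mem_smul hx hb

lemma mem_mA (J : Ideal (P n)) (j : ℕ) (b : P n ⧸ J) (hb : b ∈ mA J j) :
    ∃ y ∈ (mm n) ^ j, Ideal.Quotient.mk J y = b := by
  rw [mA_def] at hb
  induction hb using Submodule.smul_induction_on' with
  | smul r hr y _ =>
    obtain ⟨z, rfl⟩ := Ideal.Quotient.mk_surjective y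
    exact ⟨r * z, Ideal.mul_mem_right _ _ hr, rfl⟩
  | add x hx y hy hx' hy' =>
    obtain ⟨x1, hx1, rfl⟩ := hx'
    obtain ⟨y1, hy1, rfl⟩ := hy'
    exact ⟨x1 + y1, Ideal.add_mem _ hx1 hy1, map_add _ _ _⟩

lemma mk_mem_mA (J : Ideal (P n)) (j : ℕ) (y : P n) (hy : y ∈ (mm n) ^ j) :
    Ideal.Quotient.mk J y ∈ mA J j := by
  have : Ideal.Quotient.mk J y = y • (1 : P n ⧸ J) := by
    rw [← mul_mk_smul, mul_one]
  rw [this, mA_def]
  exact Submodule.smul_mem_smul hy Submodule.mem_top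

lemma mA_eq_bot {J : Ideal (P n)} {j : ℕ} (h : (mm n) ^ j ≤ J) : mA J j = ⊥ := by
  rw [mA_def]
  exact pow_smul_top_eq_bot h

/-- values of `Eu` at `r` elements of `(X)^2`, for `u` with values in `m^2` -/
noncomputable def Psi2 (J : Ideal (P n)) {r : ℕ} (G : Fin r → P n)
    (hG : ∀ i, G i ∈ (mm n) ^ 2) : (Fin n → mA J 2) →ₗ[ℂ] (Fin r → mA J 3) where
  toFun u i := ⟨Eu J (fun j => (u j : P n ⧸ J)) (G i), by
    rw [Eu_apply]
    apply Submodule.sum_mem
    intro j _
    exact smul_mA J 1 2 3 rfl _ (pderiv_mem_pow _ 1 _ (hG i)) (u j) (u j).2⟩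
  map_add' u v := by
    funext i
    apply Subtype.ext
    change Eu J _ (G i) = Eu J _ (G i) + Eu J _ (G i)
    rw [Eu_apply, Eu_apply, Eu_apply, ← Finset.sum_add_distrib]
    refine Finset.sum_congr rfl fun j _ => ?_
    change pderiv ℂ j (G i) • ((u j : P n ⧸ J) + v j) = _
    rw [smul_add]
  map_smul' c u := by
    funext i
    apply Subtype.ext
    change Eu J _ (G i) = c • Eu J _ (G i)
    rw [Eu_apply, Eu_apply, Finset.smul_sum]
    refine Finset.sum_congr rfl fun j _ => ?_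
    change pderiv ℂ j (G i) • (c • (u j : P n ⧸ J)) = _
    rw [smul_comm]

lemma Psi2_apply (J : Ideal (P n)) {r : ℕ} (G : Fin r → P n)
    (hG : ∀ i, G i ∈ (mm n) ^ 2) (u : Fin n → mA J 2) (i : Fin r) :
    (Psi2 J G hG u i : P n ⧸ J) = Eu J (fun j => (u j : P n ⧸ J)) (G i) := rfl

/-- an abstract dimension count -/
lemma abs_count {X Y W : Type} [AddCommGroup X] [Module ℂ X] [Module.Finite ℂ X]
    [AddCommGroup Y] [Module ℂ Y] [Module.Finite ℂ Y] [AddCommGroup W] [Module ℂ W]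
    [Module.Finite ℂ W] (ψ : X →ₗ[ℂ] Y) (φ : X →ₗ[ℂ] W) (S : Submodule ℂ W)
    (K : Submodule ℂ X) (hK : ∀ u, ψ u = 0 → φ u ∈ S → u ∈ K) :
    Module.finrank ℂ X + Module.finrank ℂ S ≤
      Module.finrank ℂ K + Module.finrank ℂ Y + Module.finrank ℂ W := by
  have h5 := LinearMap.finrank_range_add_finrank_ker (ψ.prod (S.mkQ.comp φ))
  have h6 : Module.finrank ℂ (LinearMap.range (ψ.prod (S.mkQ.comp φ))) ≤
      Module.finrank ℂ (Y × (W ⧸ S)) := Submodule.finrank_le _
  have h7 := Submodule.finrank_quotient_add_finrank S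
  rw [Module.finrank_prod] at h6
  have h8 : LinearMap.ker (ψ.prod (S.mkQ.comp φ)) ≤ K := by
    intro u hu
    have hu' := LinearMap.mem_ker.mp hu
    rw [LinearMap.prod_apply] at hu'
    have hu1 : ψ u = 0 := congrArg Prod.fst hu'
    have hu2 : S.mkQ (φ u) = 0 := congrArg Prod.snd hu'
    rw [Submodule.mkQ_apply, Submodule.Quotient.mk_eq_zero] at hu2
    exact hK u hu1 hu2
  have h9 := Submodule.finrank_mono h8
  omega

/-- the value of `Eu` at `f` -/
noncomputable def evf (J : Ideal (P n)) (f : P n) : (Fin n → mA J 2) →ₗ[ℂ] mA J 2 where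
  toFun u := ⟨Eu J (fun j => (u j : P n ⧸ J)) f, by
    rw [Eu_apply]
    exact Submodule.sum_mem _ fun j _ => Submodule.smul_mem _ _ (u j).2⟩
  map_add' := by
    intro u v
    apply Subtype.ext
    change Eu J _ f = Eu J _ f + Eu J _ f
    rw [Eu_apply, Eu_apply, Eu_apply, ← Finset.sum_add_distrib]
    refine Finset.sum_congr rfl fun j _ => ?_
    change pderiv ℂ j f • ((u j : P n ⧸ J) + v j) = _
    rw [smul_add]
  map_smul' := by
    intro c u
    apply Subtype.ext
    change Eu J _ f = c • Eu J _ f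
    rw [Eu_apply, Eu_apply, Finset.smul_sum]
    refine Finset.sum_congr rfl fun j _ => ?_
    change pderiv ℂ j f • (c • (u j : P n ⧸ J)) = _
    rw [smul_comm]

lemma evf_apply (J : Ideal (P n)) (f : P n) (u : Fin n → mA J 2) :
    (evf J f u : P n ⧸ J) = Eu J (fun j => (u j : P n ⧸ J)) f := rfl

lemma mA_le (J : Ideal (P n)) (i j : ℕ) (hij : i ≤ j) : mA J j ≤ mA J i := by
  rw [mA_def, mA_def]
  exact Submodule.smul_mono_left (Ideal.pow_le_pow_right hij)

lemma mA_three_le (J : Ideal (P n)) : mA J 3 ≤ mA J 2 := mA_le J 2 3 (by norm_num)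

/-- the inclusion of a submodule in a larger one -/
noncomputable def inclG {X : Type} [AddCommGroup X] [Module (P n) X] [Module ℂ X]
    [IsScalarTower ℂ (P n) X] {M N : Submodule (P n) X} (h : M ≤ N) : M →ₗ[ℂ] N :=
  (Submodule.inclusion h).restrictScalars ℂ

lemma inclG_apply {X : Type} [AddCommGroup X] [Module (P n) X] [Module ℂ X]
    [IsScalarTower ℂ (P n) X] {M N : Submodule (P n) X} (h : M ≤ N) (b : M) :
    (inclG h b : X) = b := rfl

lemma inclG_injective {X : Type} [AddCommGroup X] [Module (P n) X] [Module ℂ X]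
    [IsScalarTower ℂ (P n) X] {M N : Submodule (P n) X} (h : M ≤ N) :
    Function.Injective (inclG h) :=
  Submodule.inclusion_injective h

/-- a subspace of `(m^2)^n` on which `Eu` kills `I` gives derivations -/
lemma bound_sub (I J : Ideal (P n)) {k : ℕ} (hk : (mm n) ^ k ≤ J)
    (K : Submodule ℂ (Fin n → mA J 2))
    (hK : ∀ u ∈ K, ∀ g ∈ I, Eu J (fun j => (u j : P n ⧸ J)) g = 0) :
    Module.finrank ℂ K ≤ Module.finrank ℂ (VV I J) := by
  have h1 := finite_VV I hk
  let F : K →ₗ[ℂ] VV I J :=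
    { toFun := fun u => ⟨Eu J (fun j => (u.1 j : P n ⧸ J)), fun g hg => hK u.1 u.2 g hg⟩
      map_add' := by
        intro u v
        apply Subtype.ext
        ext g
        change Eu J _ g = Eu J _ g + Eu J _ g
        rw [Eu_apply, Eu_apply, Eu_apply, ← Finset.sum_add_distrib]
        refine Finset.sum_congr rfl fun j _ => ?_
        change pderiv ℂ j g • ((u.1 j : P n ⧸ J) + v.1 j) = _
        rw [smul_add]
      map_smul' := by
        intro c u
        apply Subtype.ext
        ext g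
        change Eu J _ g = c • Eu J _ g
        rw [Eu_apply, Eu_apply, Finset.smul_sum]
        refine Finset.sum_congr rfl fun j _ => ?_
        change pderiv ℂ j g • (c • (u.1 j : P n ⧸ J)) = _
        rw [smul_comm] }
  apply LinearMap.finrank_le_finrank_of_injective (f := F)
  intro u v h
  apply Subtype.ext
  funext i
  apply Subtype.ext
  have h1 := congrArg (fun D : VV I J => (D : Derivation ℂ (P n) (P n ⧸ J)) (MvPowerSeries.X i)) h
  change Eu J _ (MvPowerSeries.X i) = Eu J _ (MvPowerSeries.X i) at h1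
  rw [Eu_X, Eu_X] at h1
  exact h1

lemma Eu_kill2 {J : Ideal (P n)} (h4 : (mm n) ^ 4 ≤ J) (u : Fin n → mA J 2) (g : P n)
    (hg : g ∈ (mm n) ^ 3) : Eu J (fun j => (u j : P n ⧸ J)) g = 0 := by
  rw [Eu_apply]
  apply Finset.sum_eq_zero
  intro j _
  have h := smul_mA J 2 2 4 rfl (pderiv ℂ j g) (pderiv_mem_pow _ 2 _ hg) (u j) (u j).2
  rw [mA_eq_bot h4, Submodule.mem_bot] at h
  exact h

/-- the first count -/
lemma bound_two (I J : Ideal (P n)) (h4 : (mm n) ^ 4 ≤ J) {r : ℕ}
    (G : Fin r → P n) (hG : ∀ i, G i ∈ (mm n) ^ 2)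
    (hspan : ∀ g ∈ I, ∃ c : Fin r → ℂ, g - ∑ i, c i • G i ∈ (mm n) ^ 3) :
    n * Module.finrank ℂ (mA J 2) ≤
      Module.finrank ℂ (VV I J) + r * Module.finrank ℂ (mA J 3) := by
  have h2 := finite_sub h4 (mA J 2)
  have h3 := finite_sub h4 (mA J 3)
  have hb := bound_sub I J h4 (LinearMap.ker (Psi2 J G hG)) (by
    intro u hu g hg
    obtain ⟨c, hc⟩ := hspan g hg
    have h1 := Eu_kill2 h4 u _ hc
    have h2 : Eu J (fun j => (u j : P n ⧸ J)) (∑ i, c i • G i) = 0 := by
      rw [map_sum]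
      apply Finset.sum_eq_zero
      intro i _
      rw [Derivation.map_smul]
      have h3 : Psi2 J G hG u = 0 := hu
      have h4 := congrArg Subtype.val (congrFun h3 i)
      rw [Psi2_apply] at h4
      rw [h4]
      exact smul_zero _
    rwa [map_sub, h2, sub_zero] at h1)
  have h5 := LinearMap.finrank_range_add_finrank_ker (Psi2 J G hG)
  have h6 : Module.finrank ℂ (LinearMap.range (Psi2 J G hG)) ≤
      Module.finrank ℂ (Fin r → mA J 3) := Submodule.finrank_le _
  rw [Module.finrank_pi_fintype, Finset.sum_const, Finset.card_univ, Fintype.card_fin,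
    smul_eq_mul] at h5 h6
  omega

/-- the second count -/
lemma bound_three (I J : Ideal (P n)) (h4 : (mm n) ^ 4 ≤ J) (f : P n) (hf : f ∈ J) {r : ℕ}
    (G : Fin r → P n) (hG : ∀ i, G i ∈ (mm n) ^ 2)
    (hspan : ∀ g ∈ I, ∃ c : Fin r → ℂ, ∃ y ∈ mm n, g - ∑ i, c i • G i - f * y ∈ (mm n) ^ 3) :
    n * Module.finrank ℂ (mA J 2) + Module.finrank ℂ (mA J 3) ≤
      Module.finrank ℂ (VV I J) + r * Module.finrank ℂ (mA J 3) + Module.finrank ℂ (mA J 2) := by
  have h2 := finite_sub h4 (mA J 2)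
  have h3 := finite_sub h4 (mA J 3)
  let K : Submodule ℂ (Fin n → mA J 2) := LinearMap.ker (Psi2 J G hG) ⊓
    Submodule.comap (evf J f) (LinearMap.range (inclG (mA_three_le J)))
  have hb := bound_sub I J h4 K (by
    intro u hu g hg
    obtain ⟨c, y, hy, hc⟩ := hspan g hg
    obtain ⟨hu1, ⟨b, hb⟩⟩ := hu
    have hu1' : Psi2 J G hG u = 0 := hu1
    have h1 := Eu_kill2 h4 u _ hc
    have h2 : Eu J (fun j => (u j : P n ⧸ J)) (∑ i, c i • G i) = 0 := by
      rw [map_sum]
      apply Finset.sum_eq_zero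
      intro i _
      rw [Derivation.map_smul]
      have h4 := congrArg Subtype.val (congrFun hu1' i)
      rw [Psi2_apply] at h4
      rw [h4]
      exact smul_zero _
    have h3 : Eu J (fun j => (u j : P n ⧸ J)) (f * y) = 0 := by
      rw [Derivation.leibniz]
      have e1 : f • Eu J (fun j => (u j : P n ⧸ J)) y = 0 := by
        rw [← mul_mk_smul, Ideal.Quotient.eq_zero_iff_mem.mpr hf, zero_mul]
      have e2 : y • Eu J (fun j => (u j : P n ⧸ J)) f = 0 := by
        have hbf : Eu J (fun j => (u j : P n ⧸ J)) f = (b : P n ⧸ J) :=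
          ((inclG_apply (mA_three_le J) b).symm.trans (congrArg (fun z : mA J 2 => (z : P n ⧸ J)) hb)).symm
        have h := smul_mA J 1 3 4 rfl y (by rw [pow_one]; exact hy) _ b.2
        rw [mA_eq_bot h4, Submodule.mem_bot] at h
        rw [hbf]
        exact h
      rw [e1, e2, add_zero]
    rwa [map_sub, map_sub, h2, h3, sub_zero, sub_zero] at h1)
  have h5 := abs_count (Psi2 J G hG) (evf J f) (LinearMap.range (inclG (mA_three_le J))) K
    (fun u h1 h2 => ⟨h1, h2⟩)
  rw [LinearMap.finrank_range_of_inj (inclG_injective (mA_three_le J)), Module.finrank_pi_fintype,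
    Module.finrank_pi_fintype, Finset.sum_const, Finset.card_univ, Fintype.card_fin, smul_eq_mul,
    Finset.sum_const, Finset.card_univ, Fintype.card_fin, smul_eq_mul] at h5
  omega

end Pool.Agent.W_MP_90188c_ag
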