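import Pool.Agent.W_MP_90188c_ag.NumF

set_option autoImplicit false

namespace Pool.Agent.W_MP_90188c_ag

open MvPowerSeries

variable {n : ℕ}

/-- the factor map as a linear map over the complex numbers -/
noncomputable def facL {K L : Ideal (P n)} (h : K ≤ L) : (P n ⧸ K) →ₗ[ℂ] (P n ⧸ L) :=
  (Submodule.mapQ K L LinearMap.id h).restrictScalars ℂ

lemma facL_mk {K L : Ideal (P n)} (h : K ≤ L) (y : P n) :
    facL h (Ideal.Quotient.mk K y) = Ideal.Quotient.mk L y := rfl

lemma facL_surj {K L : Ideal (P n)} (h : K ≤ L) : Function.Surjective (facL h) := by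
  intro x
  obtain ⟨y, rfl⟩ := Ideal.Quotient.mk_surjective x
  exact ⟨Ideal.Quotient.mk K y, rfl⟩

/-- the dimension of `P/J` is the sum of those of `P/(J + (X)^j)` and of `m^j` -/
lemma finrank_mA {J : Ideal (P n)} {k : ℕ} (hk : (mm n) ^ k ≤ J) (j : ℕ) :
    Module.finrank ℂ (P n ⧸ (J ⊔ (mm n) ^ j)) + Module.finrank ℂ (mA J j) =
      Module.finrank ℂ (P n ⧸ J) := by
  have hA := finite_A hk
  have h1 := LinearMap.finrank_range_add_finrank_ker
    (facL (le_sup_left : J ≤ J ⊔ (mm n) ^ j))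
  rw [LinearMap.range_eq_top.mpr (facL_surj _), finrank_top] at h1
  have h2 : LinearMap.ker (facL (le_sup_left : J ≤ J ⊔ (mm n) ^ j)) =
      (mA J j).restrictScalars ℂ := by
    ext x
    rw [LinearMap.mem_ker, Submodule.restrictScalars_mem]
    constructor
    · intro hx
      obtain ⟨y, rfl⟩ := Ideal.Quotient.mk_surjective x
      rw [facL_mk, Ideal.Quotient.eq_zero_iff_mem, Submodule.mem_sup] at hx
      obtain ⟨a, ha, b, hb, rfl⟩ := hx
      rw [map_add, Ideal.Quotient.eq_zero_iff_mem.mpr ha, zero_add]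
      exact mk_mem_mA J j b hb
    · intro hx
      obtain ⟨y, hy, rfl⟩ := mem_mA J j x hx
      rw [facL_mk, Ideal.Quotient.eq_zero_iff_mem]
      exact Submodule.mem_sup_right hy
  rw [h2] at h1
  exact h1

/-- the linear polynomial with given coefficients -/
noncomputable def lp : (ℂ × (Fin n → ℂ)) →ₗ[ℂ] P n where
  toFun q := algebraMap ℂ (P n) q.1 + ∑ i, q.2 i • (MvPowerSeries.X i : P n)
  map_add' q q' := by
    rw [Prod.fst_add, Prod.snd_add, map_add]
    simp only [Pi.add_apply, add_smul, Finset.sum_add_distrib]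
    ring
  map_smul' c q := by
    rw [Prod.smul_fst, Prod.smul_snd, RingHom.id_apply, smul_add, Finset.smul_sum,
      smul_eq_mul, map_mul, ← Algebra.smul_def]
    simp only [Pi.smul_apply, smul_assoc]

lemma lp_apply (q : ℂ × (Fin n → ℂ)) :
    lp q = algebraMap ℂ (P n) q.1 + ∑ i, q.2 i • (MvPowerSeries.X i : P n) := rfl

lemma sub_lp_mem (g : P n) :
    g - lp (constantCoeff g, fun i => lin i g) ∈ (mm n) ^ 2 := by
  have h1 : g - algebraMap ℂ (P n) (constantCoeff g) -
      ∑ i, lin i g • (MvPowerSeries.X i : P n) ∈ (mm n) ^ 2 := by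
    apply mem_mm_pow
    intro d hd
    have hd' : d.degree = 0 ∨ d.degree = 1 := by omega
    rcases hd' with hd0 | hd1
    · have : d = 0 := (Finsupp.degree_eq_zero_iff d).mp hd0
      subst this
      rw [map_sub, map_sub, map_sum]
      simp only [map_smul, coeff_zero_eq_constantCoeff, smul_eq_mul]
      rw [Finset.sum_eq_zero (fun i _ => by simp)]
      simp [MvPowerSeries.algebraMap_apply]
    · obtain ⟨i, rfl⟩ := exists_single d hd1
      classical
      rw [map_sub, map_sub, map_sum]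
      have h2 : ∀ j : Fin n, coeff (Finsupp.single i 1) (lin j g • (MvPowerSeries.X j : P n)) =
          if i = j then lin j g else 0 := by
        intro j
        rw [map_smul]
        have := lin_X (n := n) i j
        unfold lin at this
        rw [this]
        simp
      rw [Finset.sum_congr rfl (fun j _ => h2 j), Finset.sum_ite_eq]
      have h3 : coeff (Finsupp.single i 1) (algebraMap ℂ (P n) (constantCoeff g)) = 0 := by
        rw [MvPowerSeries.algebraMap_apply, coeff_C, if_neg]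
        simp
      rw [h3]
      simp [lin]
  rw [lp_apply, ← sub_sub]
  exact h1

/-- the first two levels of `P/J` have dimension at most `n` if `J` contains a regular parameter -/
lemma finrank_two_le (J : Ideal (P n)) (f : P n) (hfJ : f ∈ J) (hf0 : constantCoeff f = 0)
    (i0 : Fin n) (hi0 : lin i0 f ≠ 0) :
    Module.finrank ℂ (P n ⧸ (J ⊔ (mm n) ^ 2)) ≤ n := by
  let T : (ℂ × (Fin n → ℂ)) →ₗ[ℂ] (P n ⧸ (J ⊔ (mm n) ^ 2)) :=
    ((Submodule.mkQ (J ⊔ (mm n) ^ 2)).restrictScalars ℂ).comp lp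
  have hT : ∀ q, T q = Ideal.Quotient.mk (J ⊔ (mm n) ^ 2) (lp q) := fun q => rfl
  have hsurj : Function.Surjective T := by
    intro x
    obtain ⟨y, rfl⟩ := Ideal.Quotient.mk_surjective x
    refine ⟨(constantCoeff y, fun i => lin i y), ?_⟩
    rw [hT]
    symm
    rw [Ideal.Quotient.eq]
    exact Submodule.mem_sup_right (sub_lp_mem y)
  have h1 := LinearMap.finrank_range_add_finrank_ker T
  rw [LinearMap.range_eq_top.mpr hsurj, finrank_top, Module.finrank_prod, Module.finrank_self,
    Module.finrank_fintype_fun_eq_card, Fintype.card_fin] at h1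
  have h2 : 0 < Module.finrank ℂ (LinearMap.ker T) := by
    rw [Module.finrank_pos_iff_exists_ne_zero]
    refine ⟨⟨(constantCoeff f, fun i => lin i f), ?_⟩, ?_⟩
    · rw [LinearMap.mem_ker, hT, Ideal.Quotient.eq_zero_iff_mem]
      have h3 := sub_lp_mem f
      have h4 : lp (constantCoeff f, fun i => lin i f) =
          f - (f - lp (constantCoeff f, fun i => lin i f)) := by abel
      rw [h4]
      exact Ideal.sub_mem _ (Submodule.mem_sup_left hfJ) (Submodule.mem_sup_right h3)
    · intro h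
      have h3 := congrArg Subtype.val h
      have h4 := congrFun (congrArg Prod.snd h3) i0
      exact hi0 h4
  omega

/-- a linear section of `qc` with values in `(X)^2` -/
lemma exists_section : ∃ σ : (Sym2 (Fin n) → ℂ) →ₗ[ℂ] P n,
    (∀ w, σ w ∈ (mm n) ^ 2) ∧ ∀ w, qc (σ w) = w := by
  classical
  choose z hz hzq using fun p : Sym2 (Fin n) => qc_surj (Pi.single p (1 : ℂ))
  refine ⟨∑ p, (LinearMap.proj p).smulRight (z p), ?_, ?_⟩
  · intro w
    rw [LinearMap.sum_apply]
    apply Ideal.sum_mem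
    intro p _
    rw [LinearMap.smulRight_apply, Algebra.smul_def]
    exact Ideal.mul_mem_left _ _ (hz p)
  · intro w
    rw [LinearMap.sum_apply, map_sum]
    funext q
    rw [Finset.sum_apply, Finset.sum_eq_single q]
    · rw [LinearMap.smulRight_apply, map_smul, hzq, Pi.smul_apply, Pi.single_eq_same,
        smul_eq_mul, mul_one]
      rfl
    · intro p _ hp
      rw [LinearMap.smulRight_apply, map_smul, hzq, Pi.smul_apply,
        Pi.single_eq_of_ne (Ne.symm hp), smul_zero]
    · intro h; exact absurd (Finset.mem_univ _) h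

/-- the quadratic parts of the multiples of `f` -/
noncomputable def Ff (f : P n) : Submodule ℂ (Sym2 (Fin n) → ℂ) :=
  Submodule.map ((qc (n := n)).comp (LinearMap.mulLeft ℂ f)) ((mm n).restrictScalars ℂ)

lemma mem_Ff (f : P n) (w : Sym2 (Fin n) → ℂ) : w ∈ Ff f ↔ ∃ y ∈ mm n, qc (f * y) = w := Iff.rfl

/-- the quadratic parts of the elements of `I` -/
noncomputable def Cc (I : Ideal (P n)) : Submodule ℂ (Sym2 (Fin n) → ℂ) :=
  Submodule.map (qc (n := n)) (I.restrictScalars ℂ)

lemma mem_Cc (I : Ideal (P n)) (w : Sym2 (Fin n) → ℂ) : w ∈ Cc I ↔ ∃ y ∈ I, qc y = w := Iff.rfl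

lemma finrank_sym : Module.finrank ℂ (Sym2 (Fin n) → ℂ) = (n + 1).choose 2 := by
  rw [Module.finrank_fintype_fun_eq_card, Sym2.card, Fintype.card_fin]

/-- the bound for the dimension of `P/(J + (X)^3)` -/
lemma finrank_three_le (I : Ideal (P n)) (hI2 : I ≤ (mm n) ^ 2) (f : P n)
    (hf0 : constantCoeff f = 0) (i0 : Fin n) (hi0 : lin i0 f ≠ 0) :
    Module.finrank ℂ (P n ⧸ ((I ⊔ Ideal.span {f}) ⊔ (mm n) ^ 3)) +
      Module.finrank ℂ (Cc I ⊔ Ff f : Submodule ℂ (Sym2 (Fin n) → ℂ)) ≤
      n + (n + 1).choose 2 := by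
  set J := I ⊔ Ideal.span {f} with hJ
  have hfJ : f ∈ J := (le_sup_right : Ideal.span {f} ≤ J) (Ideal.mem_span_singleton_self f)
  have hfm : f ∈ mm n := (mem_mm_iff f).mpr hf0
  have hle : J ⊔ (mm n) ^ 3 ≤ J ⊔ (mm n) ^ 2 :=
    sup_le_sup_left (Ideal.pow_le_pow_right (by norm_num)) _
  have hfin := finite_A (le_sup_right : (mm n) ^ 3 ≤ J ⊔ (mm n) ^ 3)
  have h1 := LinearMap.finrank_range_add_finrank_ker (facL hle)
  rw [LinearMap.range_eq_top.mpr (facL_surj _), finrank_top] at h1
  have h2 := finrank_two_le J f hfJ hf0 i0 hi0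
  obtain ⟨σ, hσ, hqσ⟩ := exists_section (n := n)
  let S : (Sym2 (Fin n) → ℂ) →ₗ[ℂ] (P n ⧸ (J ⊔ (mm n) ^ 3)) :=
    ((Submodule.mkQ (J ⊔ (mm n) ^ 3)).restrictScalars ℂ).comp σ
  have hS : ∀ q, S q = Ideal.Quotient.mk (J ⊔ (mm n) ^ 3) (σ q) := fun q => rfl
  have h3 := LinearMap.finrank_range_add_finrank_ker S
  rw [finrank_sym] at h3
  have h4 : Cc I ⊔ Ff f ≤ LinearMap.ker S := by
    refine sup_le ?_ ?_
    · intro w hw
      obtain ⟨g, hg, rfl⟩ := (mem_Cc I w).mp hw
      rw [LinearMap.mem_ker, hS, Ideal.Quotient.eq_zero_iff_mem]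
      have h5 : σ (qc g) - g ∈ (mm n) ^ 3 := by
        apply mem_cube_of_qc
        · exact Ideal.sub_mem _ (hσ _) (hI2 hg)
        · rw [map_sub, hqσ, sub_self]
      have h6 : σ (qc g) = g + (σ (qc g) - g) := by abel
      rw [h6]
      exact Submodule.add_mem_sup ((le_sup_left : I ≤ J) hg) h5
    · intro w hw
      obtain ⟨y, hy, rfl⟩ := (mem_Ff f w).mp hw
      rw [LinearMap.mem_ker, hS, Ideal.Quotient.eq_zero_iff_mem]
      have h5 : σ (qc (f * y)) - f * y ∈ (mm n) ^ 3 := by
        apply mem_cube_of_qc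
        · refine Ideal.sub_mem _ (hσ _) ?_
          rw [pow_two]
          exact Ideal.mul_mem_mul hfm hy
        · rw [map_sub, hqσ, sub_self]
      have h6 : σ (qc (f * y)) = f * y + (σ (qc (f * y)) - f * y) := by abel
      rw [h6]
      exact Submodule.add_mem_sup (Ideal.mul_mem_right _ _ hfJ) h5
  have h5 := Submodule.finrank_mono h4
  have h6 : LinearMap.ker (facL hle) ≤ LinearMap.range S := by
    intro x hx
    obtain ⟨z, rfl⟩ := Ideal.Quotient.mk_surjective x
    rw [LinearMap.mem_ker, facL_mk, Ideal.Quotient.eq_zero_iff_mem, Submodule.mem_sup] at hx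
    obtain ⟨a, ha, b, hb, rfl⟩ := hx
    refine ⟨qc b, ?_⟩
    rw [hS]
    symm
    rw [Ideal.Quotient.eq]
    have h7 : a + b - σ (qc b) = a + (b - σ (qc b)) := by abel
    rw [h7]
    refine Submodule.add_mem_sup ha ?_
    apply mem_cube_of_qc
    · exact Ideal.sub_mem _ hb (hσ _)
    · rw [map_sub, hqσ, sub_self]
  have h7 := Submodule.finrank_mono h6
  omega

lemma finrank_map_mkQ {W : Type} [AddCommGroup W] [Module ℂ W] [Module.Finite ℂ W]
    (C F : Submodule ℂ W) :
    Module.finrank ℂ (C.map F.mkQ) + Module.finrank ℂ F ≤ Module.finrank ℂ (C ⊔ F : Submodule ℂ W) := by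
  have h1 := LinearMap.finrank_range_add_finrank_ker (F.mkQ.domRestrict (C ⊔ F))
  have h2 : C.map F.mkQ ≤ LinearMap.range (F.mkQ.domRestrict (C ⊔ F)) := by
    rintro _ ⟨c, hc, rfl⟩
    exact ⟨⟨c, Submodule.mem_sup_left hc⟩, rfl⟩
  have h3 := Submodule.finrank_mono h2
  have h4 : Module.finrank ℂ F ≤ Module.finrank ℂ (LinearMap.ker (F.mkQ.domRestrict (C ⊔ F))) := by
    let T : F →ₗ[ℂ] LinearMap.ker (F.mkQ.domRestrict (C ⊔ F)) :=
      { toFun := fun x => ⟨⟨x.1, Submodule.mem_sup_right x.2⟩, by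
          rw [LinearMap.mem_ker, LinearMap.domRestrict_apply, Submodule.mkQ_apply,
            Submodule.Quotient.mk_eq_zero]
          exact x.2⟩
        map_add' := fun _ _ => rfl
        map_smul' := fun _ _ => rfl }
    apply LinearMap.finrank_le_finrank_of_injective (f := T)
    intro a b hab
    apply Subtype.ext
    exact congrArg (fun z => (z.1.1 : W)) hab
  omega

end Pool.Agent.W_MP_90188c_ag
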