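import Pool.Agent.W_MP_90188c_ag.NumG

set_option autoImplicit false

namespace Pool.Agent.W_MP_90188c_ag

open MvPowerSeries

variable {n : ℕ}

lemma qc_mul (f l : P n) (hf : f ∈ mm n) (hl : l ∈ mm n) (i j : Fin n) (hij : i ≠ j) :
    qc (f * l) s(i, j) = lin i f * lin j l + lin j f * lin i l := by
  classical
  have h1 : f * l - lp (0, fun i => lin i f) * lp (0, fun i => lin i l) ∈ (mm n) ^ 3 := by
    have e1 := sub_lp_mem f
    have e2 := sub_lp_mem l
    rw [(mem_mm_iff f).mp hf] at e1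
    rw [(mem_mm_iff l).mp hl] at e2
    have hlp : ∀ v : Fin n → ℂ, lp (0, v) ∈ mm n := by
      intro v
      rw [lp_apply, map_zero, zero_add]
      apply Ideal.sum_mem
      intro i _
      rw [Algebra.smul_def]
      exact Ideal.mul_mem_left _ _ (X_mem_mm i)
    have e3 : f * l - lp (0, fun i => lin i f) * lp (0, fun i => lin i l) =
        (f - lp (0, fun i => lin i f)) * l +
          lp (0, fun i => lin i f) * (l - lp (0, fun i => lin i l)) := by ring
    rw [e3]
    apply Ideal.add_mem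
    · rw [pow_succ]
      exact Ideal.mul_mem_mul e1 hl
    · rw [pow_succ']
      exact Ideal.mul_mem_mul (hlp _) e2
  have h2 : ∀ g ∈ (mm n) ^ 3, qc g s(i, j) = 0 := by
    intro g hg
    have h3 : pderiv ℂ j g ∈ (mm n) ^ 2 := pderiv_mem_pow _ 2 g hg
    have h4 := (PD_lin i).sq h3
    unfold lin at h4
    rw [coeff_pderiv] at h4
    rw [qc_apply]
    rcases mul_eq_zero.mp h4 with h5 | h5
    · exact h5
    · exfalso
      norm_cast at h5
  have h3 := h2 _ h1
  rw [map_sub, Pi.sub_apply, sub_eq_zero] at h3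
  rw [h3, lp_apply, lp_apply, map_zero, zero_add, zero_add, Finset.sum_mul_sum, map_sum,
    Finset.sum_apply]
  have h4 : ∀ a b : Fin n, qc (lin a f • (MvPowerSeries.X a : P n) *
      lin b l • (MvPowerSeries.X b : P n)) s(i, j) =
      lin a f * lin b l * (if s(a, b) = s(i, j) then 1 else 0) := by
    intro a b
    rw [smul_mul_smul_comm, map_smul, Pi.smul_apply, smul_eq_mul]
    congr 1
    rw [qc_apply, MvPowerSeries.X, MvPowerSeries.X, monomial_mul_monomial, coeff_monomial, mul_one]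
    congr 1
    rw [eq_iff_iff, Sym2.eq_iff]
    constructor
    · intro h
      have hi := congrArg (fun d : Fin n →₀ ℕ => d i) h
      have hj := congrArg (fun d : Fin n →₀ ℕ => d j) h
      simp only [Finsupp.add_apply, Finsupp.single_apply, hij, Ne.symm hij, if_true, if_false] at hi hj
      by_cases hai : a = i
      · subst hai
        by_cases hbj : b = j
        · exact Or.inl ⟨rfl, hbj⟩
        · simp [hij, hbj] at hj
      · by_cases hbi : b = i
        · subst hbi
          by_cases haj : a = j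
          · exact Or.inr ⟨haj, rfl⟩
          · simp [Ne.symm hij, hij, haj] at hj
        · simp [hai, hbi] at hi
    · rintro (⟨rfl, rfl⟩ | ⟨rfl, rfl⟩)
      · rfl
      · exact add_comm _ _
  have h5 : ∀ a : Fin n, qc (∑ b, lin a f • (MvPowerSeries.X a : P n) *
      lin b l • (MvPowerSeries.X b : P n)) s(i, j) =
      (if a = i then lin i f * lin j l else 0) + (if a = j then lin j f * lin i l else 0) := by
    intro a
    rw [map_sum, Finset.sum_apply, Finset.sum_congr rfl (fun b _ => h4 a b)]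
    by_cases hai : a = i
    · subst hai
      rw [if_pos rfl, if_neg hij, add_zero, Finset.sum_eq_single j]
      · rw [if_pos rfl, mul_one]
      · intro b _ hb
        rw [if_neg, mul_zero]
        rw [Sym2.eq_iff]
        rintro (⟨_, h⟩ | ⟨h, _⟩)
        · exact hb h
        · exact hij h
      · intro h; exact absurd (Finset.mem_univ _) h
    · by_cases haj : a = j
      · subst haj
        rw [if_neg hai, if_pos rfl, zero_add, Finset.sum_eq_single i]
        · rw [if_pos Sym2.eq_swap, mul_one]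
        · intro b _ hb
          rw [if_neg, mul_zero]
          rw [Sym2.eq_iff]
          rintro (⟨h, _⟩ | ⟨_, h⟩)
          · exact hai h
          · exact hb h
        · intro h; exact absurd (Finset.mem_univ _) h
      · rw [if_neg hai, if_neg haj, add_zero]
        apply Finset.sum_eq_zero
        intro b _
        rw [if_neg, mul_zero]
        rw [Sym2.eq_iff]
        rintro (⟨h, _⟩ | ⟨h, _⟩)
        · exact hai h
        · exact haj h
  rw [Finset.sum_congr rfl (fun a _ => h5 a), Finset.sum_add_distrib, Finset.sum_ite_eq',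
    Finset.sum_ite_eq', if_pos (Finset.mem_univ _), if_pos (Finset.mem_univ _)]

lemma qc_mul_diag (f l : P n) (hf : f ∈ mm n) (hl : l ∈ mm n) (i : Fin n) :
    qc (f * l) s(i, i) = lin i f * lin i l := by
  classical
  have h3 : pderiv ℂ i (f * l) = f * pderiv ℂ i l + l * pderiv ℂ i f := by
    rw [Derivation.leibniz]
    rfl
  have h4 : lin i (pderiv ℂ i (f * l)) = qc (f * l) s(i, i) * 2 := by
    unfold lin
    rw [coeff_pderiv, qc_apply, Finsupp.single_eq_same]
    norm_num
  have h5 : ∀ g : P n, constantCoeff (pderiv ℂ i g) = lin i g := by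
    intro g
    rw [← coeff_zero_eq_constantCoeff_apply, coeff_pderiv]
    unfold lin
    simp
  rw [h3, map_add, lin_mul, lin_mul, (mem_mm_iff f).mp hf, (mem_mm_iff l).mp hl, h5, h5] at h4
  have h6 : (2 : ℂ) ≠ 0 := two_ne_zero
  apply mul_right_cancel₀ h6
  rw [← h4]
  ring

/-- multiplication by a regular parameter is injective on leading linear forms -/
lemma lin_zero_of_qc (f l : P n) (hf : f ∈ mm n) (hl : l ∈ mm n) (i0 : Fin n) (hi0 : lin i0 f ≠ 0)
    (h : qc (f * l) = 0) (j : Fin n) : lin j l = 0 := by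
  have h1 : lin i0 l = 0 := by
    have h2 := congrFun h s(i0, i0)
    rw [qc_mul_diag f l hf hl] at h2
    exact (mul_eq_zero.mp h2).resolve_left hi0
  by_cases hj : j = i0
  · rw [hj]; exact h1
  · have h2 := congrFun h s(i0, j)
    rw [qc_mul f l hf hl i0 j (Ne.symm hj), h1, mul_zero, add_zero] at h2
    exact (mul_eq_zero.mp h2).resolve_left hi0

lemma lp_zero_mem (v : Fin n → ℂ) : lp (0, v) ∈ mm n := by
  rw [lp_apply, map_zero, zero_add]
  apply Ideal.sum_mem
  intro i _
  rw [Algebra.smul_def]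
  exact Ideal.mul_mem_left _ _ (X_mem_mm i)

lemma lin_lp (v : Fin n → ℂ) (j : Fin n) : lin j (lp (0, v)) = v j := by
  classical
  rw [lp_apply, map_zero, zero_add, map_sum, Finset.sum_eq_single j]
  · rw [map_smul, lin_X, if_pos rfl, smul_eq_mul, mul_one]
  · intro i _ hi
    rw [map_smul, lin_X, if_neg (Ne.symm hi), smul_zero]
  · intro h; exact absurd (Finset.mem_univ _) h

lemma finrank_Ff (f : P n) (hf : f ∈ mm n) (i0 : Fin n) (hi0 : lin i0 f ≠ 0) :
    n ≤ Module.finrank ℂ (Ff f) := by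
  let T : (Fin n → ℂ) →ₗ[ℂ] Ff f :=
    LinearMap.codRestrict (Ff f) (((qc (n := n)).comp (LinearMap.mulLeft ℂ f)).comp
      (lp.comp (LinearMap.inr ℂ ℂ (Fin n → ℂ)))) (fun v => ⟨lp (0, v), lp_zero_mem v, rfl⟩)
  have h1 : Function.Injective T := by
    rw [← LinearMap.ker_eq_bot, LinearMap.ker_eq_bot']
    intro v hv
    have h2 : qc (f * lp (0, v)) = 0 := congrArg Subtype.val hv
    funext j
    have h3 := lin_zero_of_qc f _ hf (lp_zero_mem v) i0 hi0 h2 j
    rw [lin_lp] at h3
    exact h3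
  have h2 := LinearMap.finrank_le_finrank_of_injective h1
  rwa [Module.finrank_fintype_fun_eq_card, Fintype.card_fin] at h2

/-- the elements `G` -/
lemma exists_G (I : Ideal (P n)) (hI2 : I ≤ (mm n) ^ 2) (f : P n)
    (hf0 : constantCoeff f = 0) (i0 : Fin n) (hi0 : lin i0 f ≠ 0) :
    ∃ (r : ℕ) (G : Fin r → P n), (∀ i, G i ∈ I) ∧
      r + Module.finrank ℂ (P n ⧸ ((I ⊔ Ideal.span {f}) ⊔ (mm n) ^ 3)) ≤ (n + 1).choose 2 ∧
      ∀ g ∈ I, ∃ c : Fin r → ℂ, ∃ y ∈ mm n, g - ∑ i, c i • G i - f * y ∈ (mm n) ^ 3 := by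
  classical
  have hf : f ∈ mm n := (mem_mm_iff f).mpr hf0
  set C' := (Cc I).map (Ff f).mkQ with hC'
  let b := Module.finBasis ℂ C'
  have hb : ∀ i, ∃ g ∈ I, (Ff f).mkQ (qc g) = (b i : (Sym2 (Fin n) → ℂ) ⧸ Ff f) := by
    intro i
    obtain ⟨w, hw, hwb⟩ := (b i).2
    obtain ⟨g, hg, rfl⟩ := (mem_Cc I w).mp hw
    exact ⟨g, hg, hwb⟩
  choose G hGI hGq using hb
  refine ⟨_, G, hGI, ?_, ?_⟩
  · have h1 := finrank_three_le I hI2 f hf0 i0 hi0
    have h2 := finrank_map_mkQ (Cc I) (Ff f)
    have h3 := finrank_Ff f hf i0 hi0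
    rw [← hC'] at h2
    omega
  · intro g hg
    have hgC : (Ff f).mkQ (qc g) ∈ C' := ⟨qc g, ⟨g, hg, rfl⟩, rfl⟩
    have h1 := congrArg Subtype.val (b.sum_repr ⟨(Ff f).mkQ (qc g), hgC⟩)
    rw [Submodule.coe_sum] at h1
    have h2 : (Ff f).mkQ (qc (g - ∑ i, b.repr ⟨(Ff f).mkQ (qc g), hgC⟩ i • G i)) = 0 := by
      rw [map_sub, map_sub, map_sum, map_sum, sub_eq_zero]
      refine h1.symm.trans (Finset.sum_congr rfl fun i _ => ?_)
      rw [map_smul, map_smul, hGq]
      rfl
    rw [Submodule.mkQ_apply, Submodule.Quotient.mk_eq_zero] at h2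
    obtain ⟨y, hy, hyq⟩ := (mem_Ff f _).mp h2
    refine ⟨fun i => b.repr ⟨(Ff f).mkQ (qc g), hgC⟩ i, y, hy, ?_⟩
    apply mem_cube_of_qc
    · refine Ideal.sub_mem _ (Ideal.sub_mem _ (hI2 hg) ?_) ?_
      · apply Ideal.sum_mem
        intro i _
        rw [Algebra.smul_def]
        exact Ideal.mul_mem_left _ _ (hI2 (hGI i))
      · rw [pow_two]
        exact Ideal.mul_mem_mul hf hy
    · rw [map_sub, hyq, sub_self]

end Pool.Agent.W_MP_90188c_ag
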