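import Pool.Agent.W_MP_90188c_ag.NumH

set_option autoImplicit false

namespace Pool.Agent.W_MP_90188c_ag

open MvPowerSeries

variable {n : ℕ}

/-- arithmetic, case `e ≠ 2 n` -/
lemma arith_one (n e t m2 m3 b r C : ℤ) (hn : 4 ≤ n) (he : e ≠ 2 * n) (ht : 1 ≤ t)
    (hC : 2 * C = n * (n + 1)) (hT : n * t ≤ e) (hG : t = 1 → n * (n - 1) + 4 ≤ 2 * e)
    (hm3 : b + m3 = e) (hm2 : e ≤ n + m2) (ht3 : m3 ≤ t) (ht2 : m3 = 0 → m2 ≤ t)
    (hr : r + b ≤ C) (h0 : 0 ≤ m3)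
    (hb : n * m2 + m3 ≤ e + r * m3 + m2) : False := by
  have hb' : (n - 1) * (e - n) + m3 ≤ e + (C - e + m3) * m3 := by
    have h1 : (n - 1) * (e - n) ≤ (n - 1) * m2 := mul_le_mul_of_nonneg_left (by linarith) (by linarith)
    have h2 : r * m3 ≤ (C - e + m3) * m3 := mul_le_mul_of_nonneg_right (by linarith) h0
    nlinarith
  rcases (by omega : m3 = 0 ∨ m3 = 1 ∨ m3 = 2 ∨ 3 ≤ m3) with h | h | h | h
  · have h1 := ht2 h
    rcases (by omega : t = 1 ∨ 2 ≤ t) with h2 | h2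
    · have h3 := hG h2
      nlinarith
    · have h3 : 2 * n ≤ e := by nlinarith
      have h4 : n * (e - n) ≤ n * t := mul_le_mul_of_nonneg_left (by linarith) (by linarith)
      nlinarith
  · subst h
    have h1 : 2 * ((n - 1) * (e - n)) ≤ n * (n + 1) := by nlinarith
    rcases (by omega : t = 1 ∨ 2 ≤ t) with h2 | h2
    · have h3 := hG h2
      nlinarith [mul_le_mul_of_nonneg_left (show n * (n - 1) + 4 - 2 * n ≤ 2 * (e - n) by linarith)
        (show (0 : ℤ) ≤ n - 1 by linarith), mul_self_nonneg (n - 4),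
        mul_nonneg (show (0 : ℤ) ≤ n - 4 by linarith) (mul_self_nonneg (n - 4))]
    · have h3 : 2 * n ≤ e := by nlinarith
      nlinarith [mul_le_mul_of_nonneg_left (show n ≤ e - n by linarith)
        (show (0 : ℤ) ≤ n - 1 by linarith)]
  · subst h
    have h2 : 2 * n ≤ e := by nlinarith
    have h3 : 2 * n + 1 ≤ e := by omega
    nlinarith
  · have h2 : n * m3 ≤ e := by nlinarith
    have h3 : e * (2 * n - 4 + 2 * m3) ≤
        2 * n * (n - 1) + m3 * (n * (n + 1)) + 2 * m3 ^ 2 - 2 * m3 := by nlinarith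
    have h4 : n * m3 * (2 * n - 4 + 2 * m3) ≤ e * (2 * n - 4 + 2 * m3) :=
      mul_le_mul_of_nonneg_right h2 (by linarith)
    obtain ⟨a, rfl⟩ : ∃ a, n = a + 4 := ⟨n - 4, by ring⟩
    obtain ⟨k, rfl⟩ : ∃ k, m3 = k + 3 := ⟨m3 - 3, by ring⟩
    have ha : 0 ≤ a := by linarith
    have hk : 0 ≤ k := by linarith
    have h5 : 0 ≤ a ^ 2 * k + a ^ 2 + 2 * a * k ^ 2 + 15 * a * k + 13 * a + 34 * k + 6 * k ^ 2 := by
      positivity
    nlinarith

/-- arithmetic, case `n ≥ 5` -/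
lemma arith_two (n e t m2 m3 b r C : ℤ) (hn : 5 ≤ n) (ht : 1 ≤ t)
    (hC : 2 * C = n * (n + 1)) (hT : n * t ≤ e) (hG : t = 1 → n * (n - 1) + 4 ≤ 2 * e)
    (hm3 : b + m3 = e) (hm2 : e ≤ n + m2) (ht3 : m3 ≤ t) (ht2 : m3 = 0 → m2 ≤ t)
    (hr : r + b ≤ C) (h0 : 0 ≤ m3)
    (hb : n * m2 ≤ e + r * m3) : False := by
  have hb' : n * (e - n) ≤ e + (C - e + m3) * m3 := by
    have h1 : n * (e - n) ≤ n * m2 := mul_le_mul_of_nonneg_left (by linarith) (by linarith)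
    have h2 : r * m3 ≤ (C - e + m3) * m3 := mul_le_mul_of_nonneg_right (by linarith) h0
    linarith
  rcases (by omega : m3 = 0 ∨ m3 = 1 ∨ m3 = 2 ∨ 3 ≤ m3) with h | h | h | h
  · have h1 := ht2 h
    rcases (by omega : t = 1 ∨ 2 ≤ t) with h2 | h2
    · have h3 := hG h2
      nlinarith
    · have h3 : 2 * n ≤ e := by nlinarith
      have h4 : n * (e - n) ≤ n * t := mul_le_mul_of_nonneg_left (by linarith) (by linarith)
      nlinarith
  · subst h
    have h1 : 2 * (n * (e - n)) ≤ n * (n + 1) + 2 := by nlinarith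
    rcases (by omega : t = 1 ∨ 2 ≤ t) with h2 | h2
    · have h3 := hG h2
      nlinarith [mul_le_mul_of_nonneg_left (show n * (n - 1) + 4 - 2 * n ≤ 2 * (e - n) by linarith)
        (show (0 : ℤ) ≤ n by linarith), mul_self_nonneg (n - 4),
        mul_nonneg (show (0 : ℤ) ≤ n - 5 by linarith) (mul_self_nonneg (n - 4))]
    · have h3 : 2 * n ≤ e := by nlinarith
      nlinarith [mul_le_mul_of_nonneg_left (show n ≤ e - n by linarith)
        (show (0 : ℤ) ≤ n by linarith)]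
  · subst h
    have h2 : 2 * n ≤ e := by nlinarith
    nlinarith
  · have h2 : n * m3 ≤ e := by nlinarith
    have h3 : e * (2 * n - 2 + 2 * m3) ≤
        2 * n * n + m3 * (n * (n + 1)) + 2 * m3 ^ 2 := by nlinarith
    have h4 : n * m3 * (2 * n - 2 + 2 * m3) ≤ e * (2 * n - 2 + 2 * m3) :=
      mul_le_mul_of_nonneg_right h2 (by linarith)
    obtain ⟨a, rfl⟩ : ∃ a, n = a + 5 := ⟨n - 5, by ring⟩
    obtain ⟨k, rfl⟩ : ∃ k, m3 = k + 3 := ⟨m3 - 3, by ring⟩
    have ha : 0 ≤ a := by linarith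
    have hk : 0 ≤ k := by linarith
    have h5 : 0 ≤ a ^ 2 * k + a ^ 2 + 2 * a * k ^ 2 + 19 * a * k + 19 * a + 58 * k + 8 * k ^ 2 := by
      positivity
    nlinarith

end Pool.Agent.W_MP_90188c_ag
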