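import Pool.Agent.W_MP_90188c_ag.NumI

set_option autoImplicit false

namespace Pool.Agent.W_MP_90188c_ag

open MvPowerSeries

variable {n : ℕ}

lemma finrank_sub_le {J : Ideal (P n)} {k : ℕ} (hk : (mm n) ^ k ≤ J)
    {M N : Submodule (P n) (P n ⧸ J)} (h : M ≤ N) : Module.finrank ℂ M ≤ Module.finrank ℂ N := by
  have h1 := finite_sub hk N
  exact LinearMap.finrank_le_finrank_of_injective (inclG_injective h)

lemma soc_pos {J : Ideal (P n)} {k : ℕ} (hk : (mm n) ^ k ≤ J) (hJ : J ≠ ⊤) :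
    1 ≤ Module.finrank ℂ (soc J) := by
  have h1 := finite_sub hk (soc J)
  obtain ⟨s, hs, hs0⟩ := exists_soc J hJ k hk
  have h2 : 0 < Module.finrank ℂ (soc J) := by
    rw [Module.finrank_pos_iff_exists_ne_zero]
    exact ⟨⟨s, hs⟩, fun h => hs0 (congrArg Subtype.val h)⟩
  exact h2

lemma mA_le_soc {J : Ideal (P n)} (j : ℕ) (h : mA J (j + 1) = ⊥) : mA J j ≤ soc J := by
  intro b hb x hx
  have h1 := smul_mA J 1 j (j + 1) (add_comm j 1) x (by rw [pow_one]; exact hx) b hb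
  rw [h, Submodule.mem_bot] at h1
  exact h1

/-- **Sections with `m^4 = 0`** -/
theorem soc_three (hn : 4 ≤ n) (I : Ideal (P n)) (hI2 : I ≤ (mm n) ^ 2) (hrad : I.IsRadical)
    (hdim : ringKrullDim (P n ⧸ I) = 1) (f : P n) (hf0 : constantCoeff f = 0) (i0 : Fin n)
    (hi0 : lin i0 f ≠ 0) (hreg : ∀ g, f * g ∈ I → g ∈ I)
    (h4 : (mm n) ^ 4 ≤ I ⊔ Ideal.span {f})
    (hcase : Module.finrank ℂ (P n ⧸ (I ⊔ Ideal.span {f})) ≠ 2 * n ∨
      (5 ≤ n ∧ ∀ g, f * g ∈ I ⊔ (mm n) ^ 3 → g ∈ (mm n) ^ 2)) : ¬ Rig I := by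
  intro hrig
  have hmas := master_finrank I hrad hdim f hf0 hreg hrig
  have htype := type_bound I hI2 hrad hdim f hf0 hreg hrig
  have hgor := gorenstein_bound (by omega) I hI2 hrad hdim f hf0 hreg hrig
  have hJm : I ⊔ Ideal.span {f} ≤ mm n := by
    refine sup_le (hI2.trans (Ideal.pow_le_self two_ne_zero)) ?_
    rw [Ideal.span_singleton_le_iff_mem, mem_mm_iff]
    exact hf0
  have hfJ : f ∈ I ⊔ Ideal.span {f} :=
    (le_sup_right : Ideal.span {f} ≤ _) (Ideal.mem_span_singleton_self f)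
  have hfm : f ∈ mm n := (mem_mm_iff f).mpr hf0
  obtain ⟨r, G, hGI, hr, hspan⟩ := exists_G I hI2 f hf0 i0 hi0
  have hG2 : ∀ i, G i ∈ (mm n) ^ 2 := fun i => hI2 (hGI i)
  set J := I ⊔ Ideal.span {f} with hJ
  have hJtop : J ≠ ⊤ := by
    intro h
    have h1 : (1 : P n) ∈ mm n := hJm (h ▸ Submodule.mem_top)
    rw [mem_mm_iff, map_one] at h1
    exact one_ne_zero h1
  have hpos := soc_pos h4 hJtop
  have h3J := finrank_mA h4 3
  have h2J := finrank_mA h4 2
  have h2le := finrank_two_le J f hfJ hf0 i0 hi0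
  have h4bot : mA J 4 = ⊥ := mA_eq_bot h4
  have hs3 : Module.finrank ℂ (mA J 3) ≤ Module.finrank ℂ (soc J) :=
    finrank_sub_le h4 (mA_le_soc 3 h4bot)
  have hs2 : Module.finrank ℂ (mA J 3) = 0 →
      Module.finrank ℂ (mA J 2) ≤ Module.finrank ℂ (soc J) := by
    intro h0
    have hfin := finite_sub h4 (mA J 3)
    have h1 : Subsingleton (mA J 3) := Module.finrank_zero_iff.mp h0
    exact finrank_sub_le h4 (mA_le_soc 2 (Submodule.subsingleton_iff_eq_bot.mp h1))
  have hchoose : (n + 1).choose 2 * 2 = (n + 1) * n := by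
    rw [Nat.choose_two_right, Nat.add_sub_cancel]
    exact Nat.div_mul_cancel (Nat.even_mul_pred_self (n + 1)).two_dvd
  have hgor' : (Module.finrank ℂ (soc J) : ℤ) = 1 →
      (n : ℤ) * ((n : ℤ) - 1) + 4 ≤ 2 * (Module.finrank ℂ (P n ⧸ J) : ℤ) := by
    intro h
    have h1 := hgor (by exact_mod_cast h)
    obtain ⟨m, rfl⟩ : ∃ m, n = m + 1 := ⟨n - 1, by omega⟩
    rw [Nat.add_sub_cancel] at h1
    push_cast
    have h2 : (((m + 1) * m + 4 : ℕ) : ℤ) ≤ ((2 * Module.finrank ℂ (P (m + 1) ⧸ J) : ℕ) : ℤ) := by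
      exact_mod_cast h1
    push_cast at h2
    linarith
  rcases hcase with hne | ⟨hn5, hsup⟩
  · have hb := bound_three I J h4 f hfJ G hG2 hspan
    refine arith_one (n : ℤ) (Module.finrank ℂ (P n ⧸ J)) (Module.finrank ℂ (soc J))
      (Module.finrank ℂ (mA J 2)) (Module.finrank ℂ (mA J 3))
      (Module.finrank ℂ (P n ⧸ (J ⊔ (mm n) ^ 3))) r ((n + 1).choose 2) ?_ ?_ ?_ ?_ ?_ hgor' ?_ ?_ ?_ ?_
      ?_ ?_ ?_
    · exact_mod_cast hn
    · exact_mod_cast hne
    · exact_mod_cast hpos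
    · have : (((n + 1).choose 2 * 2 : ℕ) : ℤ) = (((n + 1) * n : ℕ) : ℤ) := by exact_mod_cast hchoose
      push_cast at this ⊢
      linarith
    · exact_mod_cast htype
    · exact_mod_cast h3J
    · have : Module.finrank ℂ (P n ⧸ J) ≤ n + Module.finrank ℂ (mA J 2) := by omega
      exact_mod_cast this
    · exact_mod_cast hs3
    · intro h0
      exact_mod_cast hs2 (by exact_mod_cast h0)
    · exact_mod_cast hr
    · positivity
    · have : n * Module.finrank ℂ (mA J 2) + Module.finrank ℂ (mA J 3) ≤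
          Module.finrank ℂ (P n ⧸ J) + r * Module.finrank ℂ (mA J 3) +
            Module.finrank ℂ (mA J 2) := by omega
      exact_mod_cast this
  · have hspan' : ∀ g ∈ I, ∃ c : Fin r → ℂ, g - ∑ i, c i • G i ∈ (mm n) ^ 3 := by
      intro g hg
      obtain ⟨c, y, hy, hc⟩ := hspan g hg
      refine ⟨c, ?_⟩
      have hGs : ∑ i, c i • G i ∈ I := by
        apply Ideal.sum_mem
        intro i _
        rw [Algebra.smul_def]
        exact Ideal.mul_mem_left _ _ (hGI i)
      have h1 : f * y ∈ I ⊔ (mm n) ^ 3 := by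
        have h2 : f * y = (g - ∑ i, c i • G i) - (g - ∑ i, c i • G i - f * y) := by ring
        rw [h2]
        exact Ideal.sub_mem _ (Submodule.mem_sup_left (I.sub_mem hg hGs))
          (Submodule.mem_sup_right hc)
      have h2 : f * y ∈ (mm n) ^ 3 := by
        rw [pow_succ']
        exact Ideal.mul_mem_mul hfm (hsup y h1)
      have h3 : g - ∑ i, c i • G i = (g - ∑ i, c i • G i - f * y) + f * y := by ring
      rw [h3]
      exact Ideal.add_mem _ hc h2
    have hb := bound_two I J h4 G hG2 hspan'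
    refine arith_two (n : ℤ) (Module.finrank ℂ (P n ⧸ J)) (Module.finrank ℂ (soc J))
      (Module.finrank ℂ (mA J 2)) (Module.finrank ℂ (mA J 3))
      (Module.finrank ℂ (P n ⧸ (J ⊔ (mm n) ^ 3))) r ((n + 1).choose 2) ?_ ?_ ?_ ?_ hgor' ?_ ?_ ?_ ?_
      ?_ ?_ ?_
    · exact_mod_cast hn5
    · exact_mod_cast hpos
    · have : (((n + 1).choose 2 * 2 : ℕ) : ℤ) = (((n + 1) * n : ℕ) : ℤ) := by exact_mod_cast hchoose
      push_cast at this ⊢
      linarith
    · exact_mod_cast htype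
    · exact_mod_cast h3J
    · have : Module.finrank ℂ (P n ⧸ J) ≤ n + Module.finrank ℂ (mA J 2) := by omega
      exact_mod_cast this
    · exact_mod_cast hs3
    · intro h0
      exact_mod_cast hs2 (by exact_mod_cast h0)
    · exact_mod_cast hr
    · positivity
    · have : n * Module.finrank ℂ (mA J 2) ≤
          Module.finrank ℂ (P n ⧸ J) + r * Module.finrank ℂ (mA J 3) := by omega
      exact_mod_cast this

end Pool.Agent.W_MP_90188c_ag
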