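import Pool.Agent.W_MP_90188c_ag.Master

set_option autoImplicit false

namespace Pool.Agent.W_MP_90188c_ag

open MvPowerSeries

variable {n : ℕ}

/-- point derivations at the origin -/
def PD (l : P n →ₗ[ℂ] ℂ) : Prop :=
  ∀ g h, l (g * h) = constantCoeff g * l h + constantCoeff h * l g

lemma PD_lin (i : Fin n) : PD (lin i : P n →ₗ[ℂ] ℂ) := fun g h => lin_mul i g h

lemma PD.add {l l' : P n →ₗ[ℂ] ℂ} (h : PD l) (h' : PD l') : PD (l + l') := by
  intro g k
  rw [LinearMap.add_apply, LinearMap.add_apply, LinearMap.add_apply, h, h']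
  ring

lemma PD.smul {l : P n →ₗ[ℂ] ℂ} (c : ℂ) (h : PD l) : PD (c • l) := by
  intro g k
  rw [LinearMap.smul_apply, LinearMap.smul_apply, LinearMap.smul_apply, h]
  simp only [smul_eq_mul]
  ring

lemma PD.one {l : P n →ₗ[ℂ] ℂ} (h : PD l) : l 1 = 0 := by
  have h1 := h 1 1
  rw [mul_one, map_one constantCoeff, one_mul] at h1
  linear_combination -h1

lemma PD.sq {l : P n →ₗ[ℂ] ℂ} (h : PD l) {g : P n} (hg : g ∈ (mm n) ^ 2) : l g = 0 := by
  rw [pow_two] at hg
  induction hg using Submodule.mul_induction_on' with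
  | mem_mul_mem a ha b hb =>
    rw [h, (mem_mm_iff a).mp ha, (mem_mm_iff b).mp hb]
    ring
  | add x _ y _ hx hy => rw [map_add, hx, hy, add_zero]

lemma exists_single (d : Fin n →₀ ℕ) (hd : d.degree = 1) : ∃ i, d = Finsupp.single i 1 := by
  have hne : d ≠ 0 := by
    rintro rfl; simp at hd
  obtain ⟨i, hi⟩ := Finsupp.support_nonempty_iff.mpr hne
  have hi' : d i ≠ 0 := by simpa using hi
  have hle : Finsupp.single i 1 ≤ d := by
    rw [Finsupp.single_le_iff]; omega
  refine ⟨i, ?_⟩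
  have h1 : d - Finsupp.single i 1 + Finsupp.single i 1 = d := tsub_add_cancel_of_le hle
  have h2 := congrArg Finsupp.degree h1
  rw [map_add, Finsupp.degree_single, hd] at h2
  have h3 : (d - Finsupp.single i 1).degree = 0 := by omega
  have h4 := (Finsupp.degree_eq_zero_iff _).mp h3
  rw [h4, zero_add] at h1
  exact h1.symm

lemma PD.expand {l : P n →ₗ[ℂ] ℂ} (h : PD l) (g : P n) :
    l g = ∑ i, lin i g * l (MvPowerSeries.X i) := by
  classical
  have h1 : g - algebraMap ℂ (P n) (constantCoeff g) -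
      ∑ i, lin i g • (MvPowerSeries.X i : P n) ∈ (mm n) ^ 2 := by
    apply mem_mm_pow
    intro d hd
    have hd' : d.degree = 0 ∨ d.degree = 1 := by omega
    rcases hd' with hd0 | hd1
    · have : d = 0 := (Finsupp.degree_eq_zero_iff d).mp hd0
      subst this
      rw [map_sub, map_sub, map_sum]
      simp only [map_smul, coeff_zero_eq_constantCoeff, smul_eq_mul]
      rw [Finset.sum_eq_zero (fun i _ => by simp)]
      simp [MvPowerSeries.algebraMap_apply]
    · obtain ⟨i, rfl⟩ := exists_single d hd1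
      rw [map_sub, map_sub, map_sum]
      have h2 : ∀ j : Fin n, coeff (Finsupp.single i 1) (lin j g • (MvPowerSeries.X j : P n)) =
          if i = j then lin j g else 0 := by
        intro j
        rw [map_smul]
        have := lin_X (n := n) i j
        unfold lin at this
        rw [this]
        simp
      rw [Finset.sum_congr rfl (fun j _ => h2 j), Finset.sum_ite_eq]
      have h3 : coeff (Finsupp.single i 1) (algebraMap ℂ (P n) (constantCoeff g)) = 0 := by
        rw [MvPowerSeries.algebraMap_apply, coeff_C, if_neg]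
        simp
      rw [h3]
      simp [lin]
  have h4 := h.sq h1
  rw [map_sub, map_sub, map_sum, Algebra.algebraMap_eq_smul_one, map_smul, h.one, smul_zero,
    sub_zero, sub_eq_zero] at h4
  rw [h4]
  exact Finset.sum_congr rfl fun i _ => by rw [map_smul, smul_eq_mul]

/-- the functional on `P/J` induced by a functional vanishing on `J` -/
noncomputable def tl (J : Ideal (P n)) (l : P n →ₗ[ℂ] ℂ) (hl : ∀ g ∈ J, l g = 0) :
    (P n ⧸ J) →ₗ[ℂ] ℂ :=
  (Submodule.liftQ (J.restrictScalars ℂ) l (fun g hg => hl g hg)).comp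
    (Submodule.Quotient.restrictScalarsEquiv ℂ J).symm.toLinearMap

lemma tl_mk (J : Ideal (P n)) (l : P n →ₗ[ℂ] ℂ) (hl : ∀ g ∈ J, l g = 0) (g : P n) :
    tl J l hl (Ideal.Quotient.mk J g) = l g := rfl

/-- the socle -/
def soc (J : Ideal (P n)) : Submodule (P n) (P n ⧸ J) where
  carrier := {s | ∀ x ∈ mm n, x • s = 0}
  zero_mem' := fun x _ => smul_zero x
  add_mem' := by
    intro a b ha hb x hx
    rw [smul_add, ha x hx, hb x hx, add_zero]
  smul_mem' := by
    intro c a ha x hx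
    rw [smul_comm, ha x hx, smul_zero]

lemma mem_soc (J : Ideal (P n)) (s : P n ⧸ J) : s ∈ soc J ↔ ∀ x ∈ mm n, x • s = 0 := Iff.rfl

lemma sub_const_mem (g : P n) : g - algebraMap ℂ (P n) (constantCoeff g) ∈ mm n := by
  rw [mem_mm_iff, map_sub, MvPowerSeries.algebraMap_apply]
  simp

lemma smul_eq_of_kill (J : Ideal (P n)) (g : P n) (b : P n ⧸ J) :
    g • b = constantCoeff g • b + (g - algebraMap ℂ (P n) (constantCoeff g)) • b := by
  rw [sub_smul, algebraMap_smul]
  abel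

lemma smul_soc (J : Ideal (P n)) {s : P n ⧸ J} (hs : s ∈ soc J) (g : P n) :
    g • s = constantCoeff g • s := by
  rw [smul_eq_of_kill J g s, hs _ (sub_const_mem g), add_zero]

/-- the derivation `g ↦ l(g) s` -/
noncomputable def sder (J : Ideal (P n)) (l : P n →ₗ[ℂ] ℂ) (hl : PD l) (s : P n ⧸ J)
    (hs : s ∈ soc J) : Derivation ℂ (P n) (P n ⧸ J) :=
  Derivation.mk' (l.smulRight s) (by
    intro a b
    simp only [LinearMap.smulRight_apply]
    rw [hl, smul_comm a, smul_comm b, smul_soc J hs, smul_soc J hs, add_smul, mul_smul, mul_smul,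
      smul_comm (l b), smul_comm (l a)])

lemma sder_apply (J : Ideal (P n)) (l : P n →ₗ[ℂ] ℂ) (hl : PD l) (s : P n ⧸ J)
    (hs : s ∈ soc J) (g : P n) : sder J l hl s hs g = l g • s := rfl

/-- the derivation `g ↦ l₂(g) b₁ - l₁(g) b₂` -/
noncomputable def dder (J : Ideal (P n)) (l₁ l₂ : P n →ₗ[ℂ] ℂ) (hl₁ : PD l₁) (hl₂ : PD l₂)
    (s b₁ b₂ : P n ⧸ J) (hb₁ : ∀ x ∈ mm n, x • b₁ = l₁ x • s)
    (hb₂ : ∀ x ∈ mm n, x • b₂ = l₂ x • s) : Derivation ℂ (P n) (P n ⧸ J) :=
  Derivation.mk' (l₂.smulRight b₁ - l₁.smulRight b₂) (by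
    intro g h
    simp only [LinearMap.sub_apply, LinearMap.smulRight_apply]
    have e : ∀ (l : P n →ₗ[ℂ] ℂ), PD l → ∀ x : P n,
        l (x - algebraMap ℂ (P n) (constantCoeff x)) = l x := by
      intro l hl x
      rw [map_sub, Algebra.algebraMap_eq_smul_one, map_smul, hl.one, smul_zero, sub_zero]
    have k1 : ∀ x : P n, x • b₁ = constantCoeff x • b₁ + l₁ x • s := by
      intro x
      rw [smul_eq_of_kill J x b₁, hb₁ _ (sub_const_mem x), e l₁ hl₁]
    have k2 : ∀ x : P n, x • b₂ = constantCoeff x • b₂ + l₂ x • s := by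
      intro x
      rw [smul_eq_of_kill J x b₂, hb₂ _ (sub_const_mem x), e l₂ hl₂]
    rw [smul_sub, smul_sub, smul_comm g, smul_comm g, smul_comm h, smul_comm h, k1 g, k1 h, k2 g,
      k2 h, hl₁, hl₂]
    module)

lemma dder_apply (J : Ideal (P n)) (l₁ l₂ : P n →ₗ[ℂ] ℂ) (hl₁ : PD l₁) (hl₂ : PD l₂)
    (s b₁ b₂ : P n ⧸ J) (hb₁ : ∀ x ∈ mm n, x • b₁ = l₁ x • s)
    (hb₂ : ∀ x ∈ mm n, x • b₂ = l₂ x • s) (g : P n) :
    dder J l₁ l₂ hl₁ hl₂ s b₁ b₂ hb₁ hb₂ g = l₂ g • b₁ - l₁ g • b₂ := rfl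

end Pool.Agent.W_MP_90188c_ag
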