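import Pool.Agent.W_MP_90188c_ag.Deriv

set_option autoImplicit false

namespace Pool.Agent.W_MP_90188c_ag

open MvPowerSeries

variable {n : ℕ}

/-- Krull intersection: an element of `I + f^N P` for all `N` lies in `I` -/
lemma mem_of_forall_pow (I : Ideal (P n)) (hI : I ≠ ⊤) (f : P n) (hf0 : constantCoeff f = 0) (g : P n)
    (h : ∀ N : ℕ, ∃ y, g - f ^ N * y ∈ I) : g ∈ I := by
  have : Nontrivial (P n ⧸ I) := Ideal.Quotient.nontrivial_iff.mpr hI
  have : IsLocalRing (P n ⧸ I) :=
    IsLocalRing.of_surjective' (Ideal.Quotient.mk I) Ideal.Quotient.mk_surjective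
  have hne : Ideal.span {Ideal.Quotient.mk I f} ≠ ⊤ := by
    rw [ne_eq, Ideal.span_singleton_eq_top]
    intro hu
    have hmax : Ideal.Quotient.mk I f ∈ IsLocalRing.maximalIdeal (P n ⧸ I) := by
      have hfm : f ∈ IsLocalRing.maximalIdeal (P n) := by
        rw [← mm_eq_maximal, mem_mm_iff]; exact hf0
      have hloc : IsLocalHom (Ideal.Quotient.mk I) :=
        IsLocalHom.of_surjective _ Ideal.Quotient.mk_surjective
      rw [IsLocalRing.mem_maximalIdeal, mem_nonunits_iff]
      intro hu'
      have := (isUnit_map_iff (Ideal.Quotient.mk I) f).mp hu'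
      exact hfm this
    exact hmax hu
  have hK := Ideal.iInf_pow_eq_bot_of_isLocalRing _ hne
  rw [← Ideal.Quotient.eq_zero_iff_mem, ← Submodule.mem_bot (P n ⧸ I), ← hK, Submodule.mem_iInf]
  intro N
  obtain ⟨y, hy⟩ := h N
  rw [Ideal.span_singleton_pow, Ideal.mem_span_singleton]
  refine ⟨Ideal.Quotient.mk I y, ?_⟩
  rw [← map_pow, ← map_mul, Ideal.Quotient.eq]
  exact hy

/-- the substitution `T ↦ f` -/
noncomputable def phi (f : P n) (hf0 : constantCoeff f = 0) : PowerSeries ℂ →ₐ[ℂ] P n :=
  PowerSeries.substAlgHom (PowerSeries.HasSubst.of_constantCoeff_zero hf0)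

lemma phi_split (f : P n) (hf0 : constantCoeff f = 0) (c : PowerSeries ℂ) (N : ℕ) :
    phi f hf0 c = f ^ N * phi f hf0 (PowerSeries.mk fun i => PowerSeries.coeff (i + N) c) +
      Polynomial.aeval f (c.trunc N) := by
  conv_lhs => rw [c.eq_X_pow_mul_shift_add_trunc N]
  rw [map_add, map_mul, map_pow]
  unfold phi
  rw [PowerSeries.substAlgHom_X, PowerSeries.substAlgHom_coe]

lemma deriv_phi_mem (I : Ideal (P n)) (hI : I ≠ ⊤) (f : P n) (hf0 : constantCoeff f = 0)
    (D : Derivation ℂ (P n) (P n)) (hDf : D f ∈ I) (c : PowerSeries ℂ) :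
    D (phi f hf0 c) ∈ I := by
  apply mem_of_forall_pow I hI f hf0
  intro N
  refine ⟨D (phi f hf0 (PowerSeries.mk fun i => PowerSeries.coeff (i + N) c)), ?_⟩
  rw [phi_split f hf0 c N, map_add, D.leibniz, D.leibniz_pow, Derivation.map_aeval]
  simp only [smul_eq_mul, nsmul_eq_mul]
  have e : f ^ N * D (phi f hf0 (PowerSeries.mk fun i => PowerSeries.coeff (i + N) c)) +
      phi f hf0 (PowerSeries.mk fun i => PowerSeries.coeff (i + N) c) *
        (↑N * (f ^ (N - 1) * D f)) +
      Polynomial.aeval f (Polynomial.derivative (c.trunc N)) * D f -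
      f ^ N * D (phi f hf0 (PowerSeries.mk fun i => PowerSeries.coeff (i + N) c)) =
      (phi f hf0 (PowerSeries.mk fun i => PowerSeries.coeff (i + N) c) * ↑N * f ^ (N - 1) +
        Polynomial.aeval f (Polynomial.derivative (c.trunc N))) * D f := by ring
  rw [e]
  exact I.mul_mem_left _ hDf

/-- every power series is, modulo `I`, a combination of monomials of degree `< k` with
coefficients power series in `f` -/
lemma exists_comb (I : Ideal (P n)) (hI : I ≠ ⊤) (f : P n) (hf0 : constantCoeff f = 0) (k : ℕ)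
    (hk : (mm n) ^ k ≤ I ⊔ Ideal.span {f}) (r : P n) :
    ∃ (F : Finset (Fin n →₀ ℕ)) (C : (Fin n →₀ ℕ) → PowerSeries ℂ),
      r - ∑ d ∈ F, phi f hf0 (C d) * monomial d (1 : ℂ) ∈ I ∧ ∀ d ∈ F, d.degree < k := by
  classical
  -- one step
  have step : ∀ x : P n, ∃ y : P n, x - (truncTotal k x : MvPolynomial (Fin n) ℂ) - f * y ∈ I := by
    intro x
    have := hk (sub_trunc_mem k x)
    rw [Submodule.mem_sup] at this
    obtain ⟨a, ha, b, hb, hab⟩ := this
    obtain ⟨y, rfl⟩ := Ideal.mem_span_singleton'.mp hb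
    refine ⟨y, ?_⟩
    rw [← hab]
    have : a + y * f - f * y = a := by ring
    rw [this]; exact ha
  choose nx hnx using step
  have hfin : {d : Fin n →₀ ℕ | d.degree < k}.Finite := by
    have : {d : Fin n →₀ ℕ | d.degree < k} ⊆ ⋃ j ∈ Finset.range k, {d | d.degree = j} := by
      intro d hd
      simp only [Finset.mem_range, Set.mem_iUnion, Set.mem_ofPred_eq, exists_prop]
      exact ⟨d.degree, hd, rfl⟩
    refine Set.Finite.subset ?_ this
    refine Set.Finite.biUnion (Finset.finite_toSet _) ?_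
    intro j _
    exact Finsupp.finite_of_degree_le j |>.subset (fun d hd => le_of_eq hd)
  set F := hfin.toFinset with hF
  refine ⟨F, fun d => PowerSeries.mk fun j => coeff d (nx^[j] r), ?_, ?_⟩
  swap
  · intro d hd
    simpa [hF] using hd
  have htr : ∀ x : P n, ((truncTotal k x : MvPolynomial (Fin n) ℂ) : P n) =
      ∑ d ∈ F, (algebraMap ℂ (P n) (coeff d x)) * monomial d (1 : ℂ) := by
    intro x
    ext e
    rw [MvPolynomial.coeff_coe, map_sum]
    have h1 : ∀ d ∈ F, coeff e ((algebraMap ℂ (P n) (coeff d x)) * monomial d (1 : ℂ)) =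
        if e = d then coeff d x else 0 := by
      intro d _
      rw [← Algebra.smul_def, map_smul, coeff_monomial]
      split_ifs <;> simp
    rw [Finset.sum_congr rfl h1, Finset.sum_ite_eq]
    by_cases he : e.degree < k
    · rw [coeff_truncTotal _ he, if_pos]
      simpa [hF] using he
    · rw [coeff_truncTotal_eq_zero _ (not_lt.mp he), if_neg]
      simpa [hF] using he
  have hpart : ∀ N : ℕ, r - ∑ j ∈ Finset.range N, f ^ j *
      ((truncTotal k (nx^[j] r) : MvPolynomial (Fin n) ℂ) : P n) - f ^ N * (nx^[N] r) ∈ I := by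
    intro N
    induction N with
    | zero => simp
    | succ N ih =>
      have h2 := I.mul_mem_left (f ^ N) (hnx (nx^[N] r))
      have h3 := I.add_mem ih h2
      rw [Finset.sum_range_succ, Function.iterate_succ_apply', pow_succ]
      convert h3 using 1
      ring
  apply mem_of_forall_pow I hI f hf0
  intro N
  refine ⟨(nx^[N] r) - ∑ d ∈ F, phi f hf0 (PowerSeries.mk fun i =>
    PowerSeries.coeff (i + N) (PowerSeries.mk fun j => coeff d (nx^[j] r))) * monomial d (1 : ℂ), ?_⟩
  have e1 : ∑ d ∈ F, phi f hf0 (PowerSeries.mk fun j => coeff d (nx^[j] r)) * monomial d (1 : ℂ) =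
      f ^ N * (∑ d ∈ F, phi f hf0 (PowerSeries.mk fun i =>
        PowerSeries.coeff (i + N) (PowerSeries.mk fun j => coeff d (nx^[j] r))) *
          monomial d (1 : ℂ)) +
      ∑ j ∈ Finset.range N, f ^ j *
        ((truncTotal k (nx^[j] r) : MvPolynomial (Fin n) ℂ) : P n) := by
    have h4 : ∀ d ∈ F, phi f hf0 (PowerSeries.mk fun j => coeff d (nx^[j] r)) *
        monomial d (1 : ℂ) = f ^ N * (phi f hf0 (PowerSeries.mk fun i =>
        PowerSeries.coeff (i + N) (PowerSeries.mk fun j => coeff d (nx^[j] r))) *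
          monomial d (1 : ℂ)) + ∑ j ∈ Finset.range N, f ^ j *
            (algebraMap ℂ (P n) (coeff d (nx^[j] r)) * monomial d (1 : ℂ)) := by
      intro d _
      rw [phi_split f hf0 _ N, add_mul]
      congr 1
      · ring
      · rw [PowerSeries.trunc_apply, map_sum, Finset.sum_mul, ← Finset.range_eq_Ico]
        refine Finset.sum_congr rfl fun j _ => ?_
        rw [Polynomial.aeval_monomial, PowerSeries.coeff_mk]
        ring
    rw [Finset.sum_congr rfl h4, Finset.sum_add_distrib, ← Finset.mul_sum]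
    congr 1
    rw [Finset.sum_comm]
    refine Finset.sum_congr rfl fun j _ => ?_
    rw [htr, Finset.mul_sum]
  rw [e1]
  convert hpart N using 1
  ring

/-- integrality of every power series over the power series in `f`, modulo `I` -/
lemma exists_monic (I : Ideal (P n)) (hI : I ≠ ⊤) (f : P n) (hf0 : constantCoeff f = 0) (k : ℕ)
    (hk : (mm n) ^ k ≤ I ⊔ Ideal.span {f}) (r : P n) :
    ∃ G : Polynomial (PowerSeries ℂ), G.Monic ∧ G.eval₂ (phi f hf0).toRingHom r ∈ I := by
  classical
  let ψ : PowerSeries ℂ →+* (P n ⧸ I) := (Ideal.Quotient.mk I).comp (phi f hf0).toRingHom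
  let _ : Algebra (PowerSeries ℂ) (P n ⧸ I) := ψ.toAlgebra
  have hfin : {d : Fin n →₀ ℕ | d.degree < k}.Finite := by
    have : {d : Fin n →₀ ℕ | d.degree < k} ⊆ ⋃ j ∈ Finset.range k, {d | d.degree = j} := by
      intro d hd
      simp only [Finset.mem_range, Set.mem_iUnion, Set.mem_ofPred_eq, exists_prop]
      exact ⟨d.degree, hd, rfl⟩
    refine Set.Finite.subset ?_ this
    refine Set.Finite.biUnion (Finset.finite_toSet _) ?_
    intro j _
    exact Finsupp.finite_of_degree_le j |>.subset (fun d hd => le_of_eq hd)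
  have hspan : Module.Finite (PowerSeries ℂ) (P n ⧸ I) := by
    refine ⟨⟨(hfin.toFinset.image fun d => Ideal.Quotient.mk I (monomial d (1 : ℂ))), ?_⟩⟩
    rw [eq_top_iff]
    rintro x -
    obtain ⟨x, rfl⟩ := Ideal.Quotient.mk_surjective x
    obtain ⟨F, C, hFC, hF⟩ := exists_comb I hI f hf0 k hk x
    have hx : Ideal.Quotient.mk I x =
        ∑ d ∈ F, C d • Ideal.Quotient.mk I (monomial d (1 : ℂ)) := by
      rw [← Ideal.Quotient.eq, map_sum] at hFC
      rw [hFC]
      refine Finset.sum_congr rfl fun d _ => ?_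
      rw [Algebra.smul_def, map_mul]
      rfl
    rw [hx]
    refine Submodule.sum_mem _ fun d hd => Submodule.smul_mem _ _ (Submodule.subset_span ?_)
    simp only [Finset.coe_image, Set.mem_image, Finset.mem_coe, Set.Finite.mem_toFinset,
      Set.mem_ofPred_eq]
    exact ⟨d, hF d hd, rfl⟩
  have hint : IsIntegral (PowerSeries ℂ) (Ideal.Quotient.mk I r) :=
    Algebra.IsIntegral.isIntegral _
  obtain ⟨G, hG, hG0⟩ := hint
  refine ⟨G, hG, ?_⟩
  rw [← Ideal.Quotient.eq_zero_iff_mem, Polynomial.hom_eval₂]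
  exact hG0

/-- the chain rule -/
lemma deriv_eval₂ (I : Ideal (P n)) (hI : I ≠ ⊤) (f : P n) (hf0 : constantCoeff f = 0)
    (D : Derivation ℂ (P n) (P n)) (hDf : D f ∈ I) (r : P n) (G : Polynomial (PowerSeries ℂ)) :
    D (G.eval₂ (phi f hf0).toRingHom r) -
      (Polynomial.derivative G).eval₂ (phi f hf0).toRingHom r * D r ∈ I := by
  induction G using Polynomial.induction_on' with
  | add p q hp hq =>
    rw [Polynomial.eval₂_add, map_add, Polynomial.derivative_add, Polynomial.eval₂_add, add_mul]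
    have := I.add_mem hp hq
    convert this using 1
    ring
  | monomial j c =>
    rw [Polynomial.eval₂_monomial, Polynomial.derivative_monomial, Polynomial.eval₂_monomial,
      D.leibniz, D.leibniz_pow, map_mul, map_natCast]
    simp only [smul_eq_mul, nsmul_eq_mul]
    have h1 := I.mul_mem_left (r ^ j) (deriv_phi_mem I hI f hf0 D hDf c)
    convert h1 using 1
    simp only [AlgHom.toRingHom_eq_coe, RingHom.coe_coe]
    ring

/-- **Rank lemma.** A derivation of `P` preserving the radical ideal `I` which kills `f` modulo `I`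
is zero modulo `I`. -/
lemma rank_lemma (I : Ideal (P n)) (hI : I ≠ ⊤) (hrad : I.IsRadical) (f : P n)
    (hf0 : constantCoeff f = 0) (hreg : ∀ g, f * g ∈ I → g ∈ I) (k : ℕ)
    (hk : (mm n) ^ k ≤ I ⊔ Ideal.span {f}) (D : Derivation ℂ (P n) (P n))
    (hDI : ∀ g ∈ I, D g ∈ I) (hDf : D f ∈ I) (r : P n) : D r ∈ I := by
  classical
  rw [← hrad.radical, ← Ideal.sInf_minimalPrimes, Ideal.mem_sInf]
  intro q hq
  have hqp : q.IsPrime := hq.1.1
  have hIq : I ≤ q := hq.1.2
  -- `q = (I : s)` with `s ∉ q`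
  have hcol : q ∈ (Submodule.colon (I : Submodule (P n) (P n)) {(1 : P n)}).minimalPrimes := by
    have : Submodule.colon (I : Submodule (P n) (P n)) {(1 : P n)} = I := by
      ext x
      rw [Submodule.mem_colon_singleton]
      simp
    rw [this]
    exact hq
  obtain ⟨s, hs⟩ := Submodule.exists_eq_colon_of_mem_minimalPrimes hcol
  have hqs : ∀ x, x ∈ q ↔ x * s ∈ I := by
    intro x
    rw [hs, Submodule.mem_colon_singleton]
    rfl
  have hsq : s ∉ q := by
    intro hsq
    have h1 : s * s ∈ I := (hqs s).mp hsq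
    have h2 : s ∈ I := by
      apply hrad
      exact ⟨2, by rw [pow_two]; exact h1⟩
    have h3 : (1 : P n) ∈ q := (hqs 1).mpr (by rw [one_mul]; exact h2)
    exact hqp.ne_top ((Ideal.eq_top_iff_one _).mpr h3)
  have hfq : f ∉ q := by
    intro hfq
    have h1 : f * s ∈ I := (hqs f).mp hfq
    exact hsq (hIq (hreg s h1))
  have hDq : ∀ a ∈ q, D a ∈ q := by
    intro a ha
    have h1 : a * s ∈ I := (hqs a).mp ha
    have h2 : D (a * s) ∈ q := hIq (hDI _ h1)
    rw [D.leibniz] at h2
    simp only [smul_eq_mul] at h2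
    have h3 : s * D a ∈ q := by
      have := q.sub_mem h2 (q.mul_mem_right (D s) ha)
      convert this using 1
      ring
    exact (hqp.mem_or_mem h3).resolve_left hsq
  -- minimal degree relation
  have hex : ∃ m : ℕ, ∃ G : Polynomial (PowerSeries ℂ), G ≠ 0 ∧ G.natDegree = m ∧
      G.eval₂ (phi f hf0).toRingHom r ∈ q := by
    obtain ⟨G, hG, hG0⟩ := exists_monic I hI f hf0 k hk r
    exact ⟨_, G, hG.ne_zero, rfl, hIq hG0⟩
  obtain ⟨G, hG0, hGd, hGr⟩ := Nat.find_spec hex
  have hmin : ∀ H : Polynomial (PowerSeries ℂ), H.natDegree < Nat.find hex →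
      H.eval₂ (phi f hf0).toRingHom r ∈ q → H = 0 := by
    intro H hH hHr
    by_contra hH0
    exact Nat.find_min hex hH ⟨H, hH0, rfl, hHr⟩
  have h1 := hDq _ hGr
  have h2 := hIq (deriv_eval₂ I hI f hf0 D hDf r G)
  have h3 : (Polynomial.derivative G).eval₂ (phi f hf0).toRingHom r * D r ∈ q := by
    have := q.sub_mem h1 h2
    convert this using 1
    ring
  rcases hqp.mem_or_mem h3 with h4 | h4
  swap
  · exact h4
  exfalso
  by_cases hd : G.natDegree = 0
  · -- constant relation
    rw [Polynomial.natDegree_eq_zero] at hd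
    obtain ⟨c, rfl⟩ := hd
    have hc : c ≠ 0 := by
      rintro rfl; simp at hG0
    rw [Polynomial.eval₂_C] at hGr
    have hcx : c = PowerSeries.X ^ (PowerSeries.order c).toNat * PowerSeries.divXPowOrder c :=
      (PowerSeries.X_pow_order_mul_divXPowOrder (f := c)).symm
    have hu : IsUnit (PowerSeries.divXPowOrder c) :=
      PowerSeries.isUnit_divided_by_X_pow_order hc
    rw [hcx] at hGr
    simp only [AlgHom.toRingHom_eq_coe, RingHom.coe_coe, map_mul, map_pow] at hGr
    rcases hqp.mem_or_mem hGr with h5 | h5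
    · have h6 := hqp.mem_of_pow_mem _ h5
      unfold phi at h6
      rw [PowerSeries.substAlgHom_X] at h6
      exact hfq h6
    · exact hqp.ne_top (q.eq_top_of_isUnit_mem h5 (hu.map (phi f hf0)))
  · have hlt : (Polynomial.derivative G).natDegree < Nat.find hex := by
      rw [← hGd]
      exact Polynomial.natDegree_derivative_lt hd
    have h5 := hmin _ hlt h4
    have : CharZero (PowerSeries ℂ) :=
      charZero_of_injective_algebraMap (algebraMap ℂ (PowerSeries ℂ)).injective
    have h6 := Polynomial.derivative_eq_zero.mp h5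
    exact hd h6

end Pool.Agent.W_MP_90188c_ag
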