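import Pool.Agent.W_MP_90188c_ag.Eul97

/-!
# The square of the maximal ideal is not generated by two elements

For `n ≥ 3` the quadratic forms of `I` have codimension at least three.
-/

set_option autoImplicit false

namespace Pool.Agent.W_MP_90188c_ag

open MvPowerSeries

variable {n : ℕ}

/-- a two-dimensional space spanned by the values of a bilinear map is spanned by the products with
one element (linear algebra) -/
lemma exists_mult {W : Type} [AddCommGroup W] [Module ℂ W] [Module.Finite ℂ W]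
    (hW : Module.finrank ℂ W = 2) (B : P n → P n → W)
    (hadd : ∀ u v w, B (u + v) w = B u w + B v w) (hsymm : ∀ u v, B u v = B v u)
    (hsmul : ∀ (c : ℂ) u v, B (c • u) v = c • B u v)
    (hspan : Submodule.span ℂ {w | ∃ u ∈ mm n, ∃ v ∈ mm n, w = B u v} = ⊤) :
    ∃ y ∈ mm n, ∀ w : W, ∃ v ∈ mm n, w = B y v := by
  classical
  have hadd' : ∀ u v w, B w (u + v) = B w u + B w v := by
    intro u v w
    rw [hsymm, hadd, hsymm u, hsymm v]
  have hsmul' : ∀ (c : ℂ) u v, B u (c • v) = c • B u v := by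
    intro c u v
    rw [hsymm, hsmul, hsymm]
  -- the squares span
  have hsq : Submodule.span ℂ {w | ∃ u ∈ mm n, w = B u u} = ⊤ := by
    rw [eq_top_iff, ← hspan, Submodule.span_le]
    rintro _ ⟨u, hu, v, hv, rfl⟩
    have h1 : B u v = (2 : ℂ)⁻¹ • (B (u + v) (u + v) - B u u - B v v) := by
      rw [hadd, hadd', hadd', hsymm v u]
      have : B u u + B u v + (B u v + B v v) - B u u - B v v = (2 : ℂ) • B u v := by
        rw [two_smul]; abel
      rw [this, smul_smul]
      norm_num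
    rw [h1]
    apply Submodule.smul_mem
    apply Submodule.sub_mem
    · apply Submodule.sub_mem
      · exact Submodule.subset_span ⟨u + v, Ideal.add_mem _ hu hv, rfl⟩
      · exact Submodule.subset_span ⟨u, hu, rfl⟩
    · exact Submodule.subset_span ⟨v, hv, rfl⟩
  -- a line does not contain all squares
  have hline : ∀ w : W, ∃ u ∈ mm n, B u u ∉ Submodule.span ℂ {w} := by
    intro w
    by_contra hcon
    push Not at hcon
    have h1 : (⊤ : Submodule ℂ W) ≤ Submodule.span ℂ {w} := by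
      rw [← hsq, Submodule.span_le]
      rintro _ ⟨u, hu, rfl⟩
      exact hcon u hu
    have h2 := finrank_span_le_card (R := ℂ) (M := W) {w}
    rw [top_le_iff.mp h1, finrank_top, hW] at h2
    simp at h2
  obtain ⟨u1, hu1, hw1⟩ := hline 0
  obtain ⟨u2, hu2, hw2⟩ := hline (B u1 u1)
  have hw1' : B u1 u1 ≠ 0 := by
    intro h
    apply hw1
    rw [h]
    exact Submodule.zero_mem _
  have hli : LinearIndependent ℂ ![B u1 u1, B u2 u2] := by
    rw [LinearIndependent.pair_iff' hw1']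
    intro a ha
    apply hw2
    rw [Submodule.mem_span_singleton]
    exact ⟨a, ha⟩
  have hspan2 : Submodule.span ℂ (Set.range ![B u1 u1, B u2 u2]) = ⊤ := by
    apply LinearIndependent.span_eq_top_of_card_eq_finrank hli
    rw [Fintype.card_fin, hW]
  have hmem : ∀ w : W, ∃ a b : ℂ, w = a • B u1 u1 + b • B u2 u2 := by
    intro w
    have h1 : w ∈ Submodule.span ℂ (Set.range ![B u1 u1, B u2 u2]) := by
      rw [hspan2]; exact Submodule.mem_top
    rw [Matrix.range_cons, Matrix.range_cons, Matrix.range_empty, Set.union_empty,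
      Set.singleton_union, Submodule.mem_span_pair] at h1
    obtain ⟨a, b, h⟩ := h1
    exact ⟨a, b, h.symm⟩
  obtain ⟨a, b, hab⟩ := hmem (B u1 u2)
  have hlam : ∃ l : ℂ, b + l + l ^ 2 * a ≠ 0 := by
    by_contra hcon
    push Not at hcon
    have h0 := hcon 0
    have h1 := hcon 1
    have h2 := hcon (-1)
    have h3 : (2 : ℂ) = 0 := by linear_combination h1 - h2
    norm_num at h3
  obtain ⟨l, hl⟩ := hlam
  refine ⟨u1 + l • u2, ?_, ?_⟩
  · refine Ideal.add_mem _ hu1 ?_
    rw [Algebra.smul_def]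
    exact Ideal.mul_mem_left _ _ hu2
  · intro w
    obtain ⟨c, d, rfl⟩ := hmem w
    set D := b + l + l ^ 2 * a with hD
    refine ⟨(c * D⁻¹ * (b + l) - d * D⁻¹ * a) • u1 + (d * D⁻¹ * (1 + l * a) - c * D⁻¹ * (l * b)) • u2,
      ?_, ?_⟩
    · refine Ideal.add_mem _ ?_ ?_
      · rw [Algebra.smul_def]
        exact Ideal.mul_mem_left _ _ hu1
      · rw [Algebra.smul_def]
        exact Ideal.mul_mem_left _ _ hu2
    · rw [hadd', hsmul', hsmul', hadd, hadd, hsmul, hsmul, hsymm u2 u1, hab]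
      have e1 : c = c * D⁻¹ * D := by rw [mul_assoc, inv_mul_cancel₀ hl, mul_one]
      have e2 : d = d * D⁻¹ * D := by rw [mul_assoc, inv_mul_cancel₀ hl, mul_one]
      have e3 : c • B u1 u1 + d • B u2 u2 = (c * D⁻¹ * D) • B u1 u1 + (d * D⁻¹ * D) • B u2 u2 := by
        rw [← e1, ← e2]
      rw [e3, hD]
      module

/-- for `n ≥ 3` the quadratic forms of `I` have codimension at least three -/
lemma quad_codim_three (hn : 3 ≤ n) (I : Ideal (P n)) (hI2 : I ≤ (mm n) ^ 2) (hI : I ≠ ⊤)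
    (f : P n) (hf0 : constantCoeff f = 0) (hreg : ∀ g, f * g ∈ I → g ∈ I) :
    Module.finrank ℂ (Submodule.map (qc (n := n)) (I.restrictScalars ℂ)) + 3 ≤
      (n + 1).choose 2 := by
  classical
  have hq := quad_codim (by omega) I hI2 hI f hf0 hreg
  by_contra hcon
  push Not at hcon
  set C := Submodule.map (qc (n := n)) (I.restrictScalars ℂ) with hC
  have hcard : Module.finrank ℂ (Sym2 (Fin n) → ℂ) = (n + 1).choose 2 := by
    rw [Module.finrank_fintype_fun_eq_card, Sym2.card, Fintype.card_fin]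
  have h1 := Submodule.finrank_quotient_add_finrank C
  rw [hcard] at h1
  have hW : Module.finrank ℂ ((Sym2 (Fin n) → ℂ) ⧸ C) = 2 := by omega
  let B : P n → P n → ((Sym2 (Fin n) → ℂ) ⧸ C) := fun u v => C.mkQ (qc (u * v))
  have hB : ∀ u v, B u v = C.mkQ (qc (u * v)) := fun u v => rfl
  have hspan : Submodule.span ℂ {w | ∃ u ∈ mm n, ∃ v ∈ mm n, w = B u v} = ⊤ := by
    rw [eq_top_iff]
    intro w hw
    clear hw
    obtain ⟨w0, rfl⟩ := C.mkQ_surjective w
    obtain ⟨z, hz, rfl⟩ := qc_surj w0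
    rw [pow_two] at hz
    induction hz using Submodule.mul_induction_on' with
    | mem_mul_mem a ha b hb => exact Submodule.subset_span ⟨a, ha, b, hb, rfl⟩
    | add x _ y _ hx hy =>
      rw [map_add, map_add]
      exact Submodule.add_mem _ hx hy
  obtain ⟨y, hy, hyW⟩ := exists_mult hW B
    (fun u v w => by rw [hB, hB, hB, add_mul, map_add, map_add])
    (fun u v => by rw [hB, hB, mul_comm])
    (fun c u v => by rw [hB, hB, smul_mul_assoc, map_smul, map_smul]) hspan
  -- `(X)^2 ≤ y (X) + I`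
  have hle : (mm n) ^ 2 ≤ Ideal.span {y} * mm n ⊔ I := by
    apply Submodule.le_of_le_smul_of_le_jacobson_bot (I := mm n) (mm_pow_fg 2)
    · rw [mm_eq_maximal]
      exact IsLocalRing.maximalIdeal_le_jacobson _
    · intro h hh
      obtain ⟨v, hv, hvw⟩ := hyW (C.mkQ (qc h))
      rw [hB, Submodule.mkQ_apply, Submodule.mkQ_apply, Submodule.Quotient.eq] at hvw
      obtain ⟨g, hg, hgq⟩ := hvw
      have hg' : g ∈ I := hg
      have hyv : y * v ∈ (mm n) ^ 2 := by
        rw [pow_two]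
        exact Ideal.mul_mem_mul hy hv
      have h3 : h - y * v - g ∈ (mm n) ^ 3 := by
        apply mem_cube_of_qc
        · exact Ideal.sub_mem _ (Ideal.sub_mem _ hh hyv) (hI2 hg')
        · rw [map_sub, map_sub, hgq]
          abel
      have h4 : h = (y * v + g) + (h - y * v - g) := by abel
      rw [h4]
      apply Submodule.add_mem_sup
      · exact Submodule.add_mem_sup
          (Ideal.mul_mem_mul (Ideal.mem_span_singleton_self y) hv) hg'
      · rw [smul_eq_mul, ← pow_succ']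
        exact h3
  have hfm : f ∈ mm n := (mem_mm_iff f).mpr hf0
  have hyreg : ∀ g, y * g ∈ I → g ∈ I := by
    intro g hg
    have h2 : f * f ∈ (mm n) ^ 2 := by
      rw [pow_two]
      exact Ideal.mul_mem_mul hfm hfm
    have h3 := hle h2
    rw [Submodule.mem_sup] at h3
    obtain ⟨x, hx, i, hi, hxi⟩ := h3
    rw [Ideal.mem_span_singleton_mul] at hx
    obtain ⟨c, _, rfl⟩ := hx
    apply hreg
    apply hreg
    have h4 : f * (f * g) = c * (y * g) + i * g := by
      linear_combination -g * hxi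
    rw [h4]
    exact I.add_mem (I.mul_mem_left _ hg) (I.mul_mem_right _ hi)
  -- the multiplication by `y` is injective on the linear forms
  let T : (Fin n → ℂ) →ₗ[ℂ] ((Sym2 (Fin n) → ℂ) ⧸ C) :=
    C.mkQ.comp (((qc (n := n)).comp (LinearMap.mulLeft ℂ y)).comp
      (lp.comp (LinearMap.inr ℂ ℂ (Fin n → ℂ))))
  have hT : ∀ v, T v = C.mkQ (qc (y * lp (0, v))) := fun v => rfl
  have hinj : Function.Injective T := by
    rw [← LinearMap.ker_eq_bot, LinearMap.ker_eq_bot']
    intro v hv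
    rw [hT, Submodule.mkQ_apply, Submodule.Quotient.mk_eq_zero] at hv
    obtain ⟨g, hg, hgq⟩ := hv
    have hg' : g ∈ I := hg
    have h2 : y * lp (0, v) - g ∈ (mm n) ^ 3 := by
      apply mem_cube_of_qc
      · refine Ideal.sub_mem _ ?_ (hI2 hg')
        rw [pow_two]
        exact Ideal.mul_mem_mul hy (lp_zero_mem v)
      · rw [map_sub, hgq, sub_self]
    have h3 : (mm n) ^ 3 ≤ Ideal.span {y} * (mm n) ^ 2 ⊔ I := by
      rw [pow_succ']
      refine (Ideal.mul_mono_right hle).trans ?_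
      rw [Ideal.mul_sup]
      refine sup_le_sup ?_ Ideal.mul_le_right
      rw [pow_two, ← mul_assoc, ← mul_assoc, mul_comm (mm n)]
    have h4 := h3 h2
    rw [Submodule.mem_sup] at h4
    obtain ⟨x, hx, i, hi, hxi⟩ := h4
    rw [Ideal.mem_span_singleton_mul] at hx
    obtain ⟨u, hu, rfl⟩ := hx
    have h5 : y * (lp (0, v) - u) ∈ I := by
      have h6 : y * (lp (0, v) - u) = g + i := by linear_combination -hxi
      rw [h6]
      exact I.add_mem hg' hi
    have h6 : lp (0, v) ∈ (mm n) ^ 2 := by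
      have h7 := hI2 (hyreg _ h5)
      have h8 : lp (0, v) = (lp (0, v) - u) + u := by ring
      rw [h8]
      exact Ideal.add_mem _ h7 hu
    funext j
    have h7 := (PD_lin j).sq h6
    rw [lin_lp] at h7
    exact h7
  have h2 := LinearMap.finrank_le_finrank_of_injective hinj
  rw [Module.finrank_fintype_fun_eq_card, Fintype.card_fin, hW] at h2
  omega

/-- `I` is generated modulo `(X)^3` by few elements -/
lemma exists_quadrics_three (hn : 3 ≤ n) (I : Ideal (P n)) (hI2 : I ≤ (mm n) ^ 2) (hI : I ≠ ⊤)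
    (f : P n) (hf0 : constantCoeff f = 0) (hreg : ∀ g, f * g ∈ I → g ∈ I) :
    ∃ (r : ℕ) (G : Fin r → P n), r + 3 ≤ (n + 1).choose 2 ∧ (∀ i, G i ∈ I) ∧
      ∀ g ∈ I, ∃ c : Fin r → ℂ, g - ∑ i, c i • G i ∈ (mm n) ^ (2 + 1) := by
  classical
  set C := Submodule.map (qc (n := n)) (I.restrictScalars ℂ) with hC
  have hr := quad_codim_three hn I hI2 hI f hf0 hreg
  let b := Module.finBasis ℂ C
  have hb : ∀ i, ∃ g ∈ I, qc g = (b i : Sym2 (Fin n) → ℂ) := by
    intro i
    obtain ⟨g, hg, hgq⟩ := (b i).2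
    exact ⟨g, hg, hgq⟩
  choose G hGI hGq using hb
  refine ⟨_, G, hr, hGI, ?_⟩
  intro g hg
  have hgC : qc g ∈ C := ⟨g, hg, rfl⟩
  refine ⟨fun i => b.repr ⟨qc g, hgC⟩ i, ?_⟩
  apply mem_cube_of_qc
  · refine Ideal.sub_mem _ (hI2 hg) ?_
    apply Ideal.sum_mem
    intro i _
    rw [Algebra.smul_def]
    exact Ideal.mul_mem_left _ _ (hI2 (hGI i))
  · have h1 := congrArg Subtype.val (b.sum_repr ⟨qc g, hgC⟩)
    rw [map_sub, map_sum, sub_eq_zero]
    rw [Submodule.coe_sum] at h1
    refine h1.symm.trans (Finset.sum_congr rfl fun i _ => ?_)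
    rw [map_smul, hGq]
    rfl

/-- **Bound in the case of one-dimensional socle**, `n ≥ 3` -/
theorem gorenstein_bound_three (hn : 3 ≤ n) (I : Ideal (P n)) (hI2 : I ≤ (mm n) ^ 2)
    (hrad : I.IsRadical) (hdim : ringKrullDim (P n ⧸ I) = 1)
    (f : P n) (hf0 : constantCoeff f = 0) (hreg : ∀ g, f * g ∈ I → g ∈ I)
    (hrig : Rig I) (ht : Module.finrank ℂ (soc (I ⊔ Ideal.span {f})) = 1) :
    n * (n - 1) + 6 ≤ 2 * Module.finrank ℂ (P n ⧸ (I ⊔ Ideal.span {f})) := by
  obtain ⟨_, hI, k, hk⟩ := artin_facts I hdim f hf0 hreg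
  have h1 := master_finrank I hrad hdim f hf0 hreg hrig
  have h2 := lev_two_ge I hI2 f hf0 k hk ht
  obtain ⟨r, G, hr, hGI, hspan⟩ := exists_quadrics_three hn I hI2 hI f hf0 hreg
  have h3 := bound_level I (I ⊔ Ideal.span {f}) hk 2 G (fun i => hI2 (hGI i)) hspan
  rw [ht, mul_one] at h3
  have h4 : n * n ≤ n * Module.finrank ℂ (lev (I ⊔ Ideal.span {f}) 2) := Nat.mul_le_mul_left n h2
  have h5 : (n + 1).choose 2 * 2 = (n + 1) * n := by
    rw [Nat.choose_two_right, Nat.add_sub_cancel]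
    exact Nat.div_mul_cancel (Nat.even_mul_pred_self (n + 1)).two_dvd
  obtain ⟨m, rfl⟩ : ∃ m, n = m + 1 := ⟨n - 1, by omega⟩
  rw [Nat.add_sub_cancel]
  nlinarith

/-- the first level of `P/J` has dimension at most one -/
lemma finrank_one_le (K : Ideal (P n)) (hK : mm n ≤ K) : Module.finrank ℂ (P n ⧸ K) ≤ 1 := by
  let T : ℂ →ₗ[ℂ] (P n ⧸ K) := (Algebra.linearMap ℂ (P n ⧸ K))
  have hsurj : Function.Surjective T := by
    intro x
    obtain ⟨y, rfl⟩ := Ideal.Quotient.mk_surjective x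
    refine ⟨constantCoeff y, ?_⟩
    change Ideal.Quotient.mk K (algebraMap ℂ (P n) (constantCoeff y)) = _
    symm
    rw [Ideal.Quotient.eq]
    exact hK (sub_const_mem y)
  have h1 := LinearMap.finrank_range_add_finrank_ker T
  rw [LinearMap.range_eq_top.mpr hsurj, finrank_top, Module.finrank_self] at h1
  omega

/-- **Strict bound in terms of the type**, `n ≥ 3` -/
theorem type_bound_three (hn : 3 ≤ n) (I : Ideal (P n)) (hI2 : I ≤ (mm n) ^ 2)
    (hrad : I.IsRadical) (hdim : ringKrullDim (P n ⧸ I) = 1)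
    (f : P n) (hf0 : constantCoeff f = 0) (hreg : ∀ g, f * g ∈ I → g ∈ I)
    (hrig : Rig I) :
    n * Module.finrank ℂ (soc (I ⊔ Ideal.span {f})) + 1 ≤
      Module.finrank ℂ (P n ⧸ (I ⊔ Ideal.span {f})) := by
  by_cases hsq : (mm n) ^ 2 ≤ I ⊔ Ideal.span {f}
  swap
  · exact type_bound_strict I hI2 hrad hdim f hf0 hreg hrig hsq
  exfalso
  have htype := type_bound I hI2 hrad hdim f hf0 hreg hrig
  have hJm : I ⊔ Ideal.span {f} ≤ mm n := by
    refine sup_le (hI2.trans (Ideal.pow_le_self two_ne_zero)) ?_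
    rw [Ideal.span_singleton_le_iff_mem, mem_mm_iff]
    exact hf0
  set J := I ⊔ Ideal.span {f} with hJ
  have hJtop : J ≠ ⊤ := by
    intro h
    have h1 : (1 : P n) ∈ mm n := hJm (h ▸ Submodule.mem_top)
    rw [mem_mm_iff, map_one] at h1
    exact one_ne_zero h1
  have hpos := soc_pos hsq hJtop
  have h1 := finrank_mA hsq 1
  have h2 := finrank_one_le (J ⊔ (mm n) ^ 1) (by rw [pow_one]; exact le_sup_right)
  have h3 : Module.finrank ℂ (mA J 1) ≤ Module.finrank ℂ (soc J) :=
    finrank_sub_le hsq (mA_le_soc 1 (mA_eq_bot hsq))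
  nlinarith

end Pool.Agent.W_MP_90188c_ag
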